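import Mathlib

set_option autoImplicit false
set_option linter.unusedSectionVars false

/-!
Coding of the slow (a,b)-continued fraction maps by four letters.

`T` stands for the branch `x + 1` on `(-∞, a)`, `M` for the branch `-1/x` on `(a, 0)`, `Q` for the
branch `-1/x` on `(0, b)` and `D` for the branch `x - 1` on `(b, ∞)`.
-/

namespace Pool.Agent.ABcf

open Set

/-- the four letters -/
inductive Lt : Type
  | T | M | Q | D

namespace Lt

/-- all letters -/
def all : List Lt := [T, M, Q, D]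

theorem mem_all (s : Lt) : s ∈ all := by cases s <;> simp [all]

instance : DecidableEq Lt := fun s t => by
  cases s <;> cases t <;> first | exact isTrue rfl | exact isFalse (by intro h; cases h)

instance : Fintype Lt := ⟨⟨↑all, by decide⟩, mem_all⟩

theorem card : Fintype.card Lt = 4 := rfl

end Lt

open Lt

/-- the branch maps -/
noncomputable def g : Lt → ℝ → ℝ
  | T => fun x => x + 1
  | M => fun x => -x⁻¹
  | Q => fun x => -x⁻¹
  | D => fun x => x - 1

/-- the open laps -/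
def lap (p : ℝ × ℝ) : Lt → Set ℝ
  | T => Iio p.1
  | M => Ioo p.1 0
  | Q => Ioo 0 p.2
  | D => Ioi p.2

theorem lap_open (p : ℝ × ℝ) (s : Lt) : IsOpen (lap p s) := by
  cases s
  · exact isOpen_Iio
  · exact isOpen_Ioo
  · exact isOpen_Ioo
  · exact isOpen_Ioi

theorem lap_ord (p : ℝ × ℝ) (s : Lt) : OrdConnected (lap p s) := by
  cases s
  · exact ordConnected_Iio
  · exact ordConnected_Ioo
  · exact ordConnected_Ioo
  · exact ordConnected_Ioi

theorem neg_inv_lt_neg_inv_of_pos {x y : ℝ} (hx : 0 < x) (h : x < y) : -x⁻¹ < -y⁻¹ :=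
  neg_lt_neg ((inv_lt_inv₀ (hx.trans h) hx).2 h)

theorem neg_inv_lt_neg_inv_of_neg {x y : ℝ} (hy : y < 0) (h : x < y) : -x⁻¹ < -y⁻¹ := by
  apply neg_lt_neg
  have := (inv_lt_inv₀ (a := -x) (b := -y) (by linarith) (by linarith)).2 (by linarith)
  rw [inv_neg, inv_neg] at this
  linarith

theorem g_mono (p : ℝ × ℝ) (s : Lt) : StrictMonoOn (g s) (lap p s) := by
  intro x hx y hy h
  cases s
  · simp only [g]; linarith
  · exact neg_inv_lt_neg_inv_of_neg hy.2 h
  · exact neg_inv_lt_neg_inv_of_pos hx.1 h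
  · simp only [g]; linarith

theorem g_cont (p : ℝ × ℝ) (s : Lt) : ContinuousOn (g s) (lap p s) := by
  cases s
  · exact (continuous_id.add continuous_const).continuousOn
  · exact (continuousOn_inv₀.mono fun x (hx : x ∈ Ioo p.1 0) => hx.2.ne).neg
  · exact (continuousOn_inv₀.mono fun x (hx : x ∈ Ioo 0 p.2) => hx.1.ne').neg
  · exact (continuous_id.sub continuous_const).continuousOn

/-- the cylinders -/
def cyl (p : ℝ × ℝ) : List Lt → Set ℝ
  | [] => univ
  | s :: w => {x | x ∈ lap p s ∧ g s x ∈ cyl p w}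

/-- the iterated branches -/
noncomputable def act : List Lt → ℝ → ℝ
  | [] => id
  | s :: w => fun x => act w (g s x)

theorem cyl_nil (p : ℝ × ℝ) : cyl p [] = univ := rfl

theorem mem_cyl_cons (p : ℝ × ℝ) (s : Lt) (w : List Lt) (x : ℝ) :
    x ∈ cyl p (s :: w) ↔ x ∈ lap p s ∧ g s x ∈ cyl p w := Iff.rfl

theorem act_nil (x : ℝ) : act [] x = x := rfl

theorem act_cons (s : Lt) (w : List Lt) (x : ℝ) : act (s :: w) x = act w (g s x) := rfl

theorem mem_cyl_append (p : ℝ × ℝ) (w v : List Lt) (x : ℝ) :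
    x ∈ cyl p (w ++ v) ↔ x ∈ cyl p w ∧ act w x ∈ cyl p v := by
  induction w generalizing x with
  | nil => simp [cyl, act]
  | cons s w ih =>
    rw [List.cons_append, mem_cyl_cons, mem_cyl_cons, ih, act_cons, and_assoc]

theorem act_append (w v : List Lt) (x : ℝ) : act (w ++ v) x = act v (act w x) := by
  induction w generalizing x with
  | nil => rfl
  | cons s w ih => rw [List.cons_append, act_cons, ih, act_cons]

theorem act_mono (p : ℝ × ℝ) (w : List Lt) : StrictMonoOn (act w) (cyl p w) := by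
  induction w with
  | nil => intro x _ y _ h; exact h
  | cons s w ih =>
    intro x hx y hy h
    exact ih hx.2 hy.2 (g_mono p s hx.1 hy.1 h)

theorem cyl_ord (p : ℝ × ℝ) (w : List Lt) : OrdConnected (cyl p w) := by
  induction w with
  | nil => exact ordConnected_univ
  | cons s w ih =>
    refine ⟨fun x hx y hy z hz => ?_⟩
    have h1 : z ∈ lap p s := (lap_ord p s).out hx.1 hy.1 hz
    refine ⟨h1, ih.out hx.2 hy.2 ⟨?_, ?_⟩⟩
    · exact (g_mono p s).monotoneOn hx.1 h1 hz.1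
    · exact (g_mono p s).monotoneOn h1 hy.1 hz.2

theorem act_cont (p : ℝ × ℝ) (w : List Lt) : ContinuousOn (act w) (cyl p w) := by
  induction w with
  | nil => exact continuousOn_id
  | cons s w ih =>
    have h1 : ContinuousOn (g s) (cyl p (s :: w)) := (g_cont p s).mono fun x hx => hx.1
    exact ih.comp h1 fun x hx => hx.2

/-- one step of the map on sets, along a letter -/
noncomputable def step (p : ℝ × ℝ) (s : Lt) (X : Set ℝ) : Set ℝ := g s '' (lap p s ∩ X)

/-- image of a set along a word -/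
noncomputable def img (p : ℝ × ℝ) : List Lt → Set ℝ → Set ℝ
  | [] => fun X => X
  | s :: w => fun X => img p w (step p s X)

theorem img_nil (p : ℝ × ℝ) (X : Set ℝ) : img p [] X = X := rfl

theorem img_cons (p : ℝ × ℝ) (s : Lt) (w : List Lt) (X : Set ℝ) :
    img p (s :: w) X = img p w (step p s X) := rfl

theorem img_append (p : ℝ × ℝ) (w v : List Lt) (X : Set ℝ) :
    img p (w ++ v) X = img p v (img p w X) := by
  induction w generalizing X with
  | nil => rfl
  | cons s w ih => rw [List.cons_append, img_cons, ih, img_cons]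

theorem step_mono (p : ℝ × ℝ) (s : Lt) {X Y : Set ℝ} (h : X ⊆ Y) : step p s X ⊆ step p s Y :=
  image_mono (inter_subset_inter_right _ h)

theorem img_mono (p : ℝ × ℝ) (w : List Lt) {X Y : Set ℝ} (h : X ⊆ Y) :
    img p w X ⊆ img p w Y := by
  induction w generalizing X Y with
  | nil => exact h
  | cons s w ih => exact ih (step_mono p s h)

theorem img_eq (p : ℝ × ℝ) (w : List Lt) (X : Set ℝ) : img p w X = act w '' (cyl p w ∩ X) := by
  induction w generalizing X with
  | nil => simp [img, act, cyl]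
  | cons s w ih =>
    rw [img_cons, ih]
    ext y
    constructor
    · rintro ⟨z, ⟨hz1, x, ⟨hx1, hx2⟩, rfl⟩, rfl⟩
      exact ⟨x, ⟨⟨hx1, hz1⟩, hx2⟩, rfl⟩
    · rintro ⟨x, ⟨⟨hx1, hx2⟩, hx3⟩, rfl⟩
      exact ⟨g s x, ⟨hx2, x, ⟨hx1, hx3⟩, rfl⟩, rfl⟩

theorem img_union (p : ℝ × ℝ) (w : List Lt) (X Y : Set ℝ) :
    img p w (X ∪ Y) = img p w X ∪ img p w Y := by
  rw [img_eq, img_eq, img_eq, inter_union_distrib_left, image_union]

theorem step_open (p : ℝ × ℝ) (s : Lt) {X : Set ℝ} (hX : IsOpen X) : IsOpen (step p s X) := by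
  have hU : IsOpen (lap p s ∩ X) := (lap_open p s).inter hX
  cases s
  · have : step p T X = (fun y => y - 1) ⁻¹' (lap p T ∩ X) := by
      ext y
      constructor
      · rintro ⟨x, hx, rfl⟩
        simpa [g] using hx
      · intro hy
        exact ⟨y - 1, hy, by simp [g]⟩
    rw [this]
    exact hU.preimage (by fun_prop)
  · have : step p M X = (Ioi 0) ∩ (fun y => -y⁻¹) ⁻¹' (lap p M ∩ X) := by
      ext y
      constructor
      · rintro ⟨x, hx, rfl⟩
        refine ⟨?_, ?_⟩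
        · have : x < 0 := hx.1.2
          simp only [g, mem_Ioi]
          have := inv_lt_zero.2 this
          linarith
        · simpa [g] using hx
      · rintro ⟨_, hy⟩
        exact ⟨-y⁻¹, hy, by simp [g]⟩
    rw [this]
    have hc : ContinuousOn (fun y : ℝ => -y⁻¹) (Ioi 0) :=
      (continuousOn_inv₀.mono fun x (hx : x ∈ Ioi (0 : ℝ)) => hx.ne').neg
    exact hc.isOpen_inter_preimage isOpen_Ioi hU
  · have : step p Q X = (Iio 0) ∩ (fun y => -y⁻¹) ⁻¹' (lap p Q ∩ X) := by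
      ext y
      constructor
      · rintro ⟨x, hx, rfl⟩
        refine ⟨?_, ?_⟩
        · have : 0 < x := hx.1.1
          simp only [g, mem_Iio]
          have := inv_pos.2 this
          linarith
        · simpa [g] using hx
      · rintro ⟨_, hy⟩
        exact ⟨-y⁻¹, hy, by simp [g]⟩
    rw [this]
    have hc : ContinuousOn (fun y : ℝ => -y⁻¹) (Iio 0) :=
      (continuousOn_inv₀.mono fun x (hx : x ∈ Iio (0 : ℝ)) => hx.ne).neg
    exact hc.isOpen_inter_preimage isOpen_Iio hU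
  · have : step p D X = (fun y => y + 1) ⁻¹' (lap p D ∩ X) := by
      ext y
      constructor
      · rintro ⟨x, hx, rfl⟩
        simpa [g] using hx
      · intro hy
        exact ⟨y + 1, hy, by simp [g]⟩
    rw [this]
    exact hU.preimage (by fun_prop)

theorem img_open (p : ℝ × ℝ) (w : List Lt) {X : Set ℝ} (hX : IsOpen X) : IsOpen (img p w X) := by
  induction w generalizing X with
  | nil => exact hX
  | cons s w ih => exact ih (step_open p s hX)

theorem img_ord (p : ℝ × ℝ) (w : List Lt) {X : Set ℝ} (hX : OrdConnected X) :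
    OrdConnected (img p w X) := by
  rw [img_eq]
  have h1 : OrdConnected (cyl p w ∩ X) := (cyl_ord p w).inter hX
  have h2 : IsPreconnected (cyl p w ∩ X) := h1.isPreconnected
  exact (h2.image _ ((act_cont p w).mono inter_subset_left)).ordConnected

/-- words of length `n` -/
def words (n : ℕ) : Set (List Lt) := {w | w.length = n}

theorem words_finite (n : ℕ) : (words n).Finite := List.finite_length_eq Lt n

/-- words which can be followed from `X` -/
def WX (p : ℝ × ℝ) (X : Set ℝ) (n : ℕ) : Set (List Lt) :=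
  {w | w.length = n ∧ (img p w X).Nonempty}

theorem WX_finite (p : ℝ × ℝ) (X : Set ℝ) (n : ℕ) : (WX p X n).Finite :=
  (words_finite n).subset fun _ hw => hw.1

/-- their number -/
noncomputable def NX (p : ℝ × ℝ) (X : Set ℝ) (n : ℕ) : ℕ := (WX p X n).ncard

/-- words along which the image of `X` contains `Y` -/
def HX (p : ℝ × ℝ) (X Y : Set ℝ) (n : ℕ) : Set (List Lt) :=
  {w | w.length = n ∧ Y ⊆ img p w X}

theorem HX_finite (p : ℝ × ℝ) (X Y : Set ℝ) (n : ℕ) : (HX p X Y n).Finite :=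
  (words_finite n).subset fun _ hw => hw.1

noncomputable def NH (p : ℝ × ℝ) (X Y : Set ℝ) (n : ℕ) : ℕ := (HX p X Y n).ncard

theorem NH_le_NX (p : ℝ × ℝ) (X Y : Set ℝ) (hY : Y.Nonempty) (n : ℕ) : NH p X Y n ≤ NX p X n :=
  ncard_le_ncard (fun _ hw => ⟨hw.1, hY.mono hw.2⟩) (WX_finite p X n)

theorem NX_mono (p : ℝ × ℝ) {X X' : Set ℝ} (h : X ⊆ X') (n : ℕ) : NX p X n ≤ NX p X' n :=
  ncard_le_ncard (fun _ hw => ⟨hw.1, hw.2.mono (img_mono p _ h)⟩) (WX_finite p X' n)

theorem NH_mono (p : ℝ × ℝ) {X X' Y : Set ℝ} (h : X ⊆ X') (n : ℕ) : NH p X Y n ≤ NH p X' Y n :=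
  ncard_le_ncard (fun _ hw => ⟨hw.1, hw.2.trans (img_mono p _ h)⟩) (HX_finite p X' Y n)

theorem NX_union (p : ℝ × ℝ) (X Y : Set ℝ) (n : ℕ) : NX p (X ∪ Y) n ≤ NX p X n + NX p Y n := by
  have h : WX p (X ∪ Y) n ⊆ WX p X n ∪ WX p Y n := by
    rintro w ⟨h1, h2⟩
    rw [img_union, union_nonempty] at h2
    rcases h2 with h2 | h2
    · exact Or.inl ⟨h1, h2⟩
    · exact Or.inr ⟨h1, h2⟩
  exact (ncard_le_ncard h ((WX_finite p X n).union (WX_finite p Y n))).trans
    (ncard_union_le _ _)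

/-- Adding a first word. -/
theorem NX_prepend (p : ℝ × ℝ) (X Y : Set ℝ) (v : List Lt) (h : Y ⊆ img p v X) (n : ℕ) :
    NX p Y n ≤ NX p X (v.length + n) := by
  have hinj : InjOn (fun w : List Lt => v ++ w) (WX p Y n) := fun w _ w' _ h =>
    List.append_cancel_left h
  have hsub : (fun w : List Lt => v ++ w) '' WX p Y n ⊆ WX p X (v.length + n) := by
    rintro _ ⟨w, ⟨h1, h2⟩, rfl⟩
    refine ⟨by simp [h1], ?_⟩
    simp only [img_append]
    exact h2.mono (img_mono p w h)
  calc NX p Y n = ((fun w : List Lt => v ++ w) '' WX p Y n).ncard :=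
        hinj.ncard_image.symm
    _ ≤ _ := ncard_le_ncard hsub (WX_finite p X _)

theorem WX_cons (p : ℝ × ℝ) (X : Set ℝ) (n : ℕ) (s : Lt) (w : List Lt) :
    s :: w ∈ WX p X (n + 1) ↔ w ∈ WX p (step p s X) n := by
  unfold WX
  simp [img_cons]

theorem NX_succ_le (p : ℝ × ℝ) (X : Set ℝ) (n : ℕ) :
    NX p X (n + 1) ≤ NX p (step p T X) n + NX p (step p M X) n + NX p (step p Q X) n +
      NX p (step p D X) n := by
  have h : WX p X (n + 1) ⊆ ((fun w => T :: w) '' WX p (step p T X) n ∪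
      (fun w => M :: w) '' WX p (step p M X) n) ∪ (fun w => Q :: w) '' WX p (step p Q X) n ∪
      (fun w => D :: w) '' WX p (step p D X) n := by
    intro w hw
    cases w with
    | nil => exact absurd hw.1 (by simp)
    | cons s w =>
      rw [WX_cons] at hw
      cases s
      · exact Or.inl (Or.inl (Or.inl ⟨w, hw, rfl⟩))
      · exact Or.inl (Or.inl (Or.inr ⟨w, hw, rfl⟩))
      · exact Or.inl (Or.inr ⟨w, hw, rfl⟩)
      · exact Or.inr ⟨w, hw, rfl⟩
  have hf : ∀ s : Lt, ((fun w => s :: w) '' WX p (step p s X) n).Finite := fun s =>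
    (WX_finite p _ n).image _
  have hc : ∀ s : Lt, ((fun w => s :: w) '' WX p (step p s X) n).ncard ≤ NX p (step p s X) n :=
    fun s => ncard_image_le (WX_finite p _ n)
  refine (ncard_le_ncard h ((((hf T).union (hf M)).union (hf Q)).union (hf D))).trans ?_
  refine (ncard_union_le _ _).trans (add_le_add ?_ (hc D))
  refine (ncard_union_le _ _).trans (add_le_add ?_ (hc Q))
  exact (ncard_union_le _ _).trans (add_le_add (hc T) (hc M))

theorem NX_zero_le (p : ℝ × ℝ) (X : Set ℝ) : NX p X 0 ≤ 1 := by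
  have h : WX p X 0 ⊆ {[]} := by
    rintro w ⟨h1, _⟩
    exact List.eq_nil_of_length_eq_zero h1
  have h2 := ncard_le_ncard h (finite_singleton _)
  rwa [ncard_singleton] at h2

theorem NX_empty (p : ℝ × ℝ) (n : ℕ) : NX p ∅ n = 0 := by
  have h : WX p ∅ n = ∅ := by
    ext w
    simp only [WX, mem_ofPred_eq, mem_empty_iff_false, iff_false, not_and]
    intro _
    rw [img_eq]
    simp
  rw [NX, h, ncard_empty]

/-- Two options with different first letters. -/
theorem NH_two (p : ℝ × ℝ) (X X₁ X₂ Y : Set ℝ) (s₁ s₂ : Lt) (hs : s₁ ≠ s₂) (v₁ v₂ : List Lt)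
    (h1 : X₁ ⊆ img p (s₁ :: v₁) X) (h2 : X₂ ⊆ img p (s₂ :: v₂) X) (n n₁ n₂ : ℕ)
    (hn1 : n = n₁ + (v₁.length + 1)) (hn2 : n = n₂ + (v₂.length + 1)) :
    NH p X₁ Y n₁ + NH p X₂ Y n₂ ≤ NH p X Y n := by
  have hinj1 : InjOn (fun w : List Lt => (s₁ :: v₁) ++ w) (HX p X₁ Y n₁) := fun w _ w' _ h =>
    List.append_cancel_left h
  have hinj2 : InjOn (fun w : List Lt => (s₂ :: v₂) ++ w) (HX p X₂ Y n₂) := fun w _ w' _ h =>
    List.append_cancel_left h
  have hsub1 : (fun w : List Lt => (s₁ :: v₁) ++ w) '' HX p X₁ Y n₁ ⊆ HX p X Y n := by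
    rintro _ ⟨w, ⟨h3, h4⟩, rfl⟩
    refine ⟨by simp only [List.length_append, List.length_cons, h3]; omega, ?_⟩
    simp only [img_append]
    exact h4.trans (img_mono p w h1)
  have hsub2 : (fun w : List Lt => (s₂ :: v₂) ++ w) '' HX p X₂ Y n₂ ⊆ HX p X Y n := by
    rintro _ ⟨w, ⟨h3, h4⟩, rfl⟩
    refine ⟨by simp only [List.length_append, List.length_cons, h3]; omega, ?_⟩
    simp only [img_append]
    exact h4.trans (img_mono p w h2)
  have hdisj : Disjoint ((fun w : List Lt => (s₁ :: v₁) ++ w) '' HX p X₁ Y n₁)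
      ((fun w : List Lt => (s₂ :: v₂) ++ w) '' HX p X₂ Y n₂) := by
    rw [Set.disjoint_left]
    rintro _ ⟨w, _, rfl⟩ ⟨w', _, h⟩
    simp only [List.cons_append, List.cons.injEq] at h
    exact hs h.1.symm
  have h5 := ncard_union_eq hdisj ((HX_finite p X₁ Y n₁).image _) ((HX_finite p X₂ Y n₂).image _)
  rw [hinj1.ncard_image, hinj2.ncard_image] at h5
  calc NH p X₁ Y n₁ + NH p X₂ Y n₂ = _ := h5.symm
    _ ≤ _ := ncard_le_ncard (union_subset hsub1 hsub2) (HX_finite p X Y n)

theorem NX_two (p : ℝ × ℝ) (X X₁ X₂ : Set ℝ) (s₁ s₂ : Lt) (hs : s₁ ≠ s₂) (v₁ v₂ : List Lt)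
    (h1 : X₁ ⊆ img p (s₁ :: v₁) X) (h2 : X₂ ⊆ img p (s₂ :: v₂) X) (n n₁ n₂ : ℕ)
    (hn1 : n = n₁ + (v₁.length + 1)) (hn2 : n = n₂ + (v₂.length + 1)) :
    NX p X₁ n₁ + NX p X₂ n₂ ≤ NX p X n := by
  have hinj1 : InjOn (fun w : List Lt => (s₁ :: v₁) ++ w) (WX p X₁ n₁) := fun w _ w' _ h =>
    List.append_cancel_left h
  have hinj2 : InjOn (fun w : List Lt => (s₂ :: v₂) ++ w) (WX p X₂ n₂) := fun w _ w' _ h =>
    List.append_cancel_left h
  have hsub1 : (fun w : List Lt => (s₁ :: v₁) ++ w) '' WX p X₁ n₁ ⊆ WX p X n := by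
    rintro _ ⟨w, ⟨h3, h4⟩, rfl⟩
    refine ⟨by simp only [List.length_append, List.length_cons, h3]; omega, ?_⟩
    simp only [img_append]
    exact h4.mono (img_mono p w h1)
  have hsub2 : (fun w : List Lt => (s₂ :: v₂) ++ w) '' WX p X₂ n₂ ⊆ WX p X n := by
    rintro _ ⟨w, ⟨h3, h4⟩, rfl⟩
    refine ⟨by simp only [List.length_append, List.length_cons, h3]; omega, ?_⟩
    simp only [img_append]
    exact h4.mono (img_mono p w h2)
  have hdisj : Disjoint ((fun w : List Lt => (s₁ :: v₁) ++ w) '' WX p X₁ n₁)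
      ((fun w : List Lt => (s₂ :: v₂) ++ w) '' WX p X₂ n₂) := by
    rw [Set.disjoint_left]
    rintro _ ⟨w, _, rfl⟩ ⟨w', _, h⟩
    simp only [List.cons_append, List.cons.injEq] at h
    exact hs h.1.symm
  have h5 := ncard_union_eq hdisj ((WX_finite p X₁ n₁).image _) ((WX_finite p X₂ n₂).image _)
  rw [hinj1.ncard_image, hinj2.ncard_image] at h5
  calc NX p X₁ n₁ + NX p X₂ n₂ = _ := h5.symm
    _ ≤ _ := ncard_le_ncard (union_subset hsub1 hsub2) (WX_finite p X n)

theorem NX_prepend' (p : ℝ × ℝ) (X X₁ : Set ℝ) (v : List Lt)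
    (h1 : X₁ ⊆ img p v X) (n n₁ : ℕ) (hn1 : n = n₁ + v.length) :
    NX p X₁ n₁ ≤ NX p X n := by
  have := NX_prepend p X X₁ v h1 n₁
  rwa [add_comm, ← hn1] at this

theorem NX_zero (p : ℝ × ℝ) (X : Set ℝ) (h : X.Nonempty) : 1 ≤ NX p X 0 := by
  have h1 : {[]} ⊆ WX p X 0 := by
    rintro _ rfl
    exact ⟨rfl, h⟩
  have h2 := ncard_le_ncard h1 (WX_finite p X 0)
  rwa [ncard_singleton] at h2

theorem NH_prepend (p : ℝ × ℝ) (X X₁ Y : Set ℝ) (v : List Lt)
    (h1 : X₁ ⊆ img p v X) (n n₁ : ℕ) (hn1 : n = n₁ + v.length) :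
    NH p X₁ Y n₁ ≤ NH p X Y n := by
  have hinj1 : InjOn (fun w : List Lt => v ++ w) (HX p X₁ Y n₁) := fun w _ w' _ h =>
    List.append_cancel_left h
  have hsub1 : (fun w : List Lt => v ++ w) '' HX p X₁ Y n₁ ⊆ HX p X Y n := by
    rintro _ ⟨w, ⟨h3, h4⟩, rfl⟩
    refine ⟨by simp only [List.length_append, h3]; omega, ?_⟩
    simp only [img_append]
    exact h4.trans (img_mono p w h1)
  calc NH p X₁ Y n₁ = ((fun w : List Lt => v ++ w) '' HX p X₁ Y n₁).ncard :=
        hinj1.ncard_image.symm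
    _ ≤ _ := ncard_le_ncard hsub1 (HX_finite p X Y n)

theorem NH_zero (p : ℝ × ℝ) (X Y : Set ℝ) (h : Y ⊆ X) : 1 ≤ NH p X Y 0 := by
  have h1 : {[]} ⊆ HX p X Y 0 := by
    rintro _ rfl
    exact ⟨rfl, h⟩
  have h2 := ncard_le_ncard h1 (HX_finite p X Y 0)
  rwa [ncard_singleton] at h2

/-- Submultiplicativity. -/
theorem NX_submul (p : ℝ × ℝ) (m n : ℕ) :
    NX p univ (m + n) ≤ NX p univ m * NX p univ n := by
  have hmaps : ∀ w ∈ WX p univ (m + n),
      (w.take m, w.drop m) ∈ (WX p univ m) ×ˢ (WX p univ n) := by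
    rintro w ⟨h1, h2⟩
    have h3 : w = w.take m ++ w.drop m := (List.take_append_drop m w).symm
    rw [h3, img_append] at h2
    refine ⟨⟨by simp [h1], ?_⟩, ⟨by simp [h1], ?_⟩⟩
    · by_contra h4
      rw [not_nonempty_iff_eq_empty] at h4
      rw [h4, img_eq] at h2
      simp at h2
    · exact h2.mono (img_mono p _ (subset_univ _))
  have hinj : InjOn (fun w : List Lt => (w.take m, w.drop m)) (WX p univ (m + n)) := by
    intro w _ w' _ h
    simp only [Prod.mk.injEq] at h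
    rw [← List.take_append_drop m w, ← List.take_append_drop m w', h.1, h.2]
  have h := ncard_le_ncard_of_injOn _ hmaps hinj
    ((WX_finite p univ m).prod (WX_finite p univ n))
  rwa [ncard_prod] at h

end Pool.Agent.ABcf
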