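import Mathlib
import Pool.Agent.ABcf.Basic

set_option autoImplicit false
set_option linter.unusedSectionVars false

/-!
The parameter set, the symmetry `(a,b) ↦ (-b,-a)`, and horseshoes giving a uniform lower bound
for the growth of the number of words.
-/

namespace Pool.Agent.ABcf

open Set Lt

/-- the parameter set -/
def InP (p : ℝ × ℝ) : Prop := p.1 ≤ 0 ∧ 0 ≤ p.2 ∧ 1 ≤ p.2 - p.1 ∧ -(p.1 * p.2) ≤ 1

theorem mem_stepT (p : ℝ × ℝ) (X : Set ℝ) (y : ℝ) :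
    y ∈ step p T X ↔ y - 1 < p.1 ∧ y - 1 ∈ X := by
  constructor
  · rintro ⟨x, ⟨h1, h2⟩, rfl⟩
    simp only [g, add_sub_cancel_right]
    exact ⟨h1, h2⟩
  · rintro ⟨h1, h2⟩
    exact ⟨y - 1, ⟨h1, h2⟩, by simp [g]⟩

theorem mem_stepD (p : ℝ × ℝ) (X : Set ℝ) (y : ℝ) :
    y ∈ step p D X ↔ p.2 < y + 1 ∧ y + 1 ∈ X := by
  constructor
  · rintro ⟨x, ⟨h1, h2⟩, rfl⟩
    simp only [g, sub_add_cancel]
    exact ⟨h1, h2⟩
  · rintro ⟨h1, h2⟩
    exact ⟨y + 1, ⟨h1, h2⟩, by simp [g]⟩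

theorem mem_stepM (p : ℝ × ℝ) (X : Set ℝ) (y : ℝ) :
    y ∈ step p M X ↔ 0 < y ∧ p.1 < -y⁻¹ ∧ -y⁻¹ ∈ X := by
  constructor
  · rintro ⟨x, ⟨h1, h2⟩, rfl⟩
    have h3 : x < 0 := h1.2
    have h4 : p.1 < x := h1.1
    have h5 : -(-x⁻¹)⁻¹ = x := by simp
    simp only [g]
    rw [h5]
    exact ⟨by have := inv_lt_zero.2 h3; linarith, h4, h2⟩
  · rintro ⟨h1, h2, h3⟩
    refine ⟨-y⁻¹, ⟨⟨h2, ?_⟩, h3⟩, by simp [g]⟩
    have := inv_pos.2 h1
    linarith

theorem mem_stepQ (p : ℝ × ℝ) (X : Set ℝ) (y : ℝ) :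
    y ∈ step p Q X ↔ y < 0 ∧ -y⁻¹ < p.2 ∧ -y⁻¹ ∈ X := by
  constructor
  · rintro ⟨x, ⟨h1, h2⟩, rfl⟩
    have h3 : 0 < x := h1.1
    have h4 : x < p.2 := h1.2
    have h5 : -(-x⁻¹)⁻¹ = x := by simp
    simp only [g]
    rw [h5]
    exact ⟨by have := inv_pos.2 h3; linarith, h4, h2⟩
  · rintro ⟨h1, h2, h3⟩
    refine ⟨-y⁻¹, ⟨⟨?_, h2⟩, h3⟩, by simp [g]⟩
    have := inv_lt_zero.2 h1
    linarith

/-! ### Symmetry -/

/-- symmetric letter -/
def fl : Lt → Lt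
  | T => D
  | M => Q
  | Q => M
  | D => T

theorem fl_fl (s : Lt) : fl (fl s) = s := by cases s <;> rfl

theorem fl_inj : Function.Injective fl := fun s t h => by
  rw [← fl_fl s, h, fl_fl]

/-- symmetric parameter -/
def fp (p : ℝ × ℝ) : ℝ × ℝ := (-p.2, -p.1)

theorem fp_fp (p : ℝ × ℝ) : fp (fp p) = p := by simp [fp]

theorem InP_fp {p : ℝ × ℝ} (h : InP p) : InP (fp p) := by
  obtain ⟨h1, h2, h3, h4⟩ := h
  refine ⟨?_, ?_, ?_, ?_⟩ <;> simp only [fp] <;> nlinarith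

/-- symmetric set -/
def fs (X : Set ℝ) : Set ℝ := (fun x => -x) ⁻¹' X

theorem mem_fs (X : Set ℝ) (x : ℝ) : x ∈ fs X ↔ -x ∈ X := Iff.rfl

theorem fs_fs (X : Set ℝ) : fs (fs X) = X := by
  ext x; simp [mem_fs]

theorem fs_univ : fs univ = univ := rfl

theorem fs_mono {X Y : Set ℝ} (h : X ⊆ Y) : fs X ⊆ fs Y := fun _ hx => h hx

theorem step_fl (p : ℝ × ℝ) (s : Lt) (X : Set ℝ) :
    step (fp p) (fl s) (fs X) = fs (step p s X) := by
  ext y
  rw [mem_fs]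
  cases s
  · change y ∈ step (fp p) D (fs X) ↔ _
    rw [mem_stepD, mem_stepT, mem_fs]
    simp only [fp]
    rw [show -(y + 1) = -y - 1 by ring]
    constructor <;> rintro ⟨h1, h2⟩ <;> exact ⟨by linarith, h2⟩
  · change y ∈ step (fp p) Q (fs X) ↔ _
    rw [mem_stepQ, mem_stepM, mem_fs]
    simp only [fp]
    rw [inv_neg, neg_neg]
    constructor <;> rintro ⟨h1, h2, h3⟩ <;> exact ⟨by linarith, by linarith, h3⟩
  · change y ∈ step (fp p) M (fs X) ↔ _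
    rw [mem_stepQ, mem_stepM, mem_fs]
    simp only [fp]
    rw [inv_neg, neg_neg]
    constructor <;> rintro ⟨h1, h2, h3⟩ <;> exact ⟨by linarith, by linarith, h3⟩
  · change y ∈ step (fp p) T (fs X) ↔ _
    rw [mem_stepD, mem_stepT, mem_fs]
    simp only [fp]
    rw [show -(y - 1) = -y + 1 by ring]
    constructor <;> rintro ⟨h1, h2⟩ <;> exact ⟨by linarith, h2⟩

theorem img_fl (p : ℝ × ℝ) (w : List Lt) (X : Set ℝ) :
    img (fp p) (w.map fl) (fs X) = fs (img p w X) := by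
  induction w generalizing X with
  | nil => rfl
  | cons s w ih => rw [List.map_cons, img_cons, step_fl, ih, img_cons]

theorem NH_fl (p : ℝ × ℝ) (X Y : Set ℝ) (n : ℕ) : NH (fp p) (fs X) (fs Y) n = NH p X Y n := by
  have key : ∀ (p : ℝ × ℝ) (X Y : Set ℝ), NH p X Y n ≤ NH (fp p) (fs X) (fs Y) n := by
    intro p X Y
    have hinj : InjOn (fun w : List Lt => w.map fl) (HX p X Y n) := fun w _ w' _ h =>
      (List.map_injective_iff.2 fl_inj) h
    have hsub : (fun w : List Lt => w.map fl) '' HX p X Y n ⊆ HX (fp p) (fs X) (fs Y) n := by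
      rintro _ ⟨w, ⟨h1, h2⟩, rfl⟩
      refine ⟨by simp [h1], ?_⟩
      simp only [img_fl]
      exact fs_mono h2
    calc NH p X Y n = ((fun w : List Lt => w.map fl) '' HX p X Y n).ncard :=
          hinj.ncard_image.symm
      _ ≤ _ := ncard_le_ncard hsub (HX_finite _ _ _ n)
  refine le_antisymm ?_ (key p X Y)
  have := key (fp p) (fs X) (fs Y)
  rwa [fp_fp, fs_fs, fs_fs] at this

theorem NX_fl (p : ℝ × ℝ) (X : Set ℝ) (n : ℕ) : NX (fp p) (fs X) n = NX p X n := by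
  have key : ∀ (p : ℝ × ℝ) (X : Set ℝ), NX p X n ≤ NX (fp p) (fs X) n := by
    intro p X
    have hinj : InjOn (fun w : List Lt => w.map fl) (WX p X n) := fun w _ w' _ h =>
      (List.map_injective_iff.2 fl_inj) h
    have hsub : (fun w : List Lt => w.map fl) '' WX p X n ⊆ WX (fp p) (fs X) n := by
      rintro _ ⟨w, ⟨h1, ⟨y, h2⟩⟩, rfl⟩
      refine ⟨by simp [h1], -y, ?_⟩
      simp only [img_fl]
      rw [mem_fs, neg_neg]
      exact h2
    calc NX p X n = ((fun w : List Lt => w.map fl) '' WX p X n).ncard :=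
          hinj.ncard_image.symm
      _ ≤ _ := ncard_le_ncard hsub (WX_finite _ _ n)
  refine le_antisymm ?_ (key p X)
  have := key (fp p) (fs X)
  rwa [fp_fp, fs_fs] at this

/-! ### The universal lower bound -/

theorem growth_of_rec (u : ℕ → ℕ) (ℓ : ℕ) (hℓ : 1 ≤ ℓ)
    (hρ : (13 / 10 : ℝ) ^ (ℓ - 1) + 1 ≥ (13 / 10 : ℝ) ^ ℓ)
    (h0 : 1 ≤ u 0) (h1 : ∀ n, u n ≤ u (n + 1))
    (h2 : ∀ n, u (n + (ℓ - 1)) + u n ≤ u (n + ℓ)) :
    ∀ n, ((13 / 10 : ℝ) ^ ℓ)⁻¹ * (13 / 10 : ℝ) ^ n ≤ u n := by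
  have hmono : Monotone u := monotone_nat_of_le_succ h1
  have hpos : (0 : ℝ) < (13 / 10 : ℝ) ^ ℓ := by positivity
  intro n
  induction n using Nat.strong_induction_on with
  | _ n ih =>
    rcases Nat.lt_or_ge n ℓ with hn | hn
    · have h3 : (1 : ℝ) ≤ u n := by
        exact_mod_cast h0.trans (hmono (Nat.zero_le n))
      have h4 : (13 / 10 : ℝ) ^ n ≤ (13 / 10 : ℝ) ^ ℓ :=
        pow_le_pow_right₀ (by norm_num) hn.le
      calc ((13 / 10 : ℝ) ^ ℓ)⁻¹ * (13 / 10 : ℝ) ^ n ≤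
          ((13 / 10 : ℝ) ^ ℓ)⁻¹ * (13 / 10 : ℝ) ^ ℓ :=
            mul_le_mul_of_nonneg_left h4 (by positivity)
        _ = 1 := inv_mul_cancel₀ hpos.ne'
        _ ≤ u n := h3
    · obtain ⟨m, rfl⟩ : ∃ m, n = m + ℓ := ⟨n - ℓ, by omega⟩
      have e1 := ih (m + (ℓ - 1)) (by omega)
      have e2 := ih m (by omega)
      have e3 : ((u (m + (ℓ - 1)) : ℝ) + u m) ≤ u (m + ℓ) := by exact_mod_cast h2 m
      refine le_trans ?_ e3
      refine le_trans ?_ (add_le_add e1 e2)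
      rw [pow_add, pow_add, ← mul_add]
      refine mul_le_mul_of_nonneg_left ?_ (by positivity)
      have h5 : (0 : ℝ) ≤ (13 / 10 : ℝ) ^ m := by positivity
      nlinarith

/-- The universal lower bound, first family. -/
theorem shoe1 {p : ℝ × ℝ} (hp : InP p) (h : -(3 / 5) ≤ p.1) (n : ℕ) :
    ((13 / 10 : ℝ) ^ 4)⁻¹ * (13 / 10 : ℝ) ^ n ≤ NX p (Iio (p.1 + 1)) n := by
  obtain ⟨h1, h2, h3, h4⟩ := hp
  set V : Set ℝ := Iio (p.1 + 1) with hV
  have hT : V ⊆ img p [T] V := by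
    intro y hy
    rw [img_cons, img_nil, mem_stepT]
    have hy' : y < p.1 + 1 := hy
    exact ⟨by linarith, show y - 1 < p.1 + 1 by linarith⟩
  have hQ : V ⊆ img p [Q, T, T, T] V := by
    intro y hy
    have hy' : y < p.1 + 1 := hy
    simp only [img_cons, img_nil, mem_stepT, mem_stepQ]
    have hpos : (0 : ℝ) < 2 - p.1 := by linarith
    have hlt : -(y - 1 - 1 - 1)⁻¹ < p.1 + 1 := by
      rw [← inv_neg]
      have h5 : (2 - p.1) < -(y - 1 - 1 - 1) := by linarith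
      have h6 : (-(y - 1 - 1 - 1))⁻¹ < (2 - p.1)⁻¹ := (inv_lt_inv₀ (by linarith) hpos).2 h5
      refine h6.trans_le ?_
      rw [inv_le_iff_one_le_mul₀ hpos]
      nlinarith
    exact ⟨by linarith, by linarith, by linarith, by linarith, by linarith, hlt⟩
  refine growth_of_rec (fun n => NX p V n) 4 (by norm_num) (by norm_num)
    (NX_zero p V ⟨p.1, show p.1 < p.1 + 1 by linarith⟩) ?_ ?_ n
  · intro n
    exact NX_prepend' p V V [T] hT (n + 1) n rfl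
  · intro n
    exact NX_two p V V V T Q (by decide) [] [T, T, T] hT hQ (n + 4) (n + 3) n rfl rfl

/-- Third family. -/
theorem shoe3 {p : ℝ × ℝ} (h1 : -1 ≤ p.1) (h1' : p.1 ≤ -(1 / 2)) (h2 : 1 / 2 ≤ p.2)
    (h2' : p.2 ≤ 1) (n : ℕ) :
    ((13 / 10 : ℝ) ^ 3)⁻¹ * (13 / 10 : ℝ) ^ n ≤
      (min (NX p (Iio 0) n) (NX p (Ioi 0) n) : ℕ) := by
  have hT : Iio (0 : ℝ) ⊆ img p [T] (Iio 0) := by
    intro y hy
    rw [img_cons, img_nil, mem_stepT]
    have hy' : y < 0 := hy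
    exact ⟨by linarith, show y - 1 < 0 by linarith⟩
  have hD : Ioi (0 : ℝ) ⊆ img p [D] (Ioi 0) := by
    intro y hy
    rw [img_cons, img_nil, mem_stepD]
    have hy' : 0 < y := hy
    exact ⟨by linarith, show 0 < y + 1 by linarith⟩
  have hM : Ioi (0 : ℝ) ⊆ img p [M, D, D] (Iio 0) := by
    intro y hy
    have hy' : 0 < y := hy
    simp only [img_cons, img_nil, mem_stepD, mem_stepM]
    have h5 : (y + 1 + 1)⁻¹ < 2⁻¹ := (inv_lt_inv₀ (by linarith) (by norm_num)).2 (by linarith)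
    have h6 : 0 < (y + 1 + 1)⁻¹ := inv_pos.2 (by linarith)
    norm_num at h5
    exact ⟨by linarith, by linarith, by linarith, by linarith,
      show -(y + 1 + 1)⁻¹ < 0 by linarith⟩
  have hQ : Iio (0 : ℝ) ⊆ img p [Q, T, T] (Ioi 0) := by
    intro y hy
    have hy' : y < 0 := hy
    simp only [img_cons, img_nil, mem_stepT, mem_stepQ]
    have h5 : (-(y - 1 - 1))⁻¹ < 2⁻¹ := (inv_lt_inv₀ (by linarith) (by norm_num)).2 (by linarith)
    have h6 : 0 < (-(y - 1 - 1))⁻¹ := inv_pos.2 (by linarith)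
    rw [inv_neg] at h5 h6
    norm_num at h5
    exact ⟨by linarith, by linarith, by linarith, by linarith,
      show 0 < -(y - 1 - 1)⁻¹ by linarith⟩
  refine growth_of_rec (fun n => min (NX p (Iio 0) n) (NX p (Ioi 0) n)) 3 (by norm_num)
    (by norm_num) ?_ ?_ ?_ n
  · exact le_min (NX_zero p _ ⟨-1, by norm_num⟩) (NX_zero p _ ⟨1, by norm_num⟩)
  · intro n
    have e1 := NX_prepend' p (Iio 0) (Iio 0) [T] hT (n + 1) n rfl
    have e2 := NX_prepend' p (Ioi 0) (Ioi 0) [D] hD (n + 1) n rfl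
    exact min_le_min e1 e2
  · intro n
    have e1 := NX_two p (Iio 0) (Iio 0) (Ioi 0) T M (by decide) [] [D, D] hT hM
      (n + 3) (n + 2) n rfl rfl
    have e2 := NX_two p (Ioi 0) (Ioi 0) (Iio 0) D Q (by decide) [] [T, T] hD hQ
      (n + 3) (n + 2) n rfl rfl
    simp only [Nat.reduceSub] at *
    omega

/-- Fourth family. -/
theorem shoe4 {p : ℝ × ℝ} (hp : InP p) (h1 : -(5 / 3) ≤ p.1) (h1' : p.1 < -1)
    (h2 : 1 / 2 ≤ p.2) (n : ℕ) :
    ((13 / 10 : ℝ) ^ 5)⁻¹ * (13 / 10 : ℝ) ^ n ≤ NX p (Iio (-(2 / 3))) n := by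
  obtain ⟨-, -, h3, h4⟩ := hp
  have hb : p.2 < 1 := by nlinarith
  set V : Set ℝ := Iio (-(2 / 3) : ℝ) with hV
  have hT : V ⊆ img p [T] V := by
    intro y hy
    rw [img_cons, img_nil, mem_stepT]
    have hy' : y < -(2 / 3) := hy
    exact ⟨by linarith, show y - 1 < -(2 / 3) by linarith⟩
  have hM : V ⊆ img p [M, D, Q, T, T] V := by
    intro y hy
    have hy' : y < -(2 / 3) := hy
    simp only [img_cons, img_nil, mem_stepT, mem_stepQ, mem_stepD, mem_stepM]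
    set z : ℝ := -(y - 1 - 1)⁻¹ with hz
    have h5 : (-(y - 1 - 1))⁻¹ < 2⁻¹ := (inv_lt_inv₀ (by linarith) (by norm_num)).2 (by linarith)
    have h6 : 0 < (-(y - 1 - 1))⁻¹ := inv_pos.2 (by linarith)
    rw [inv_neg, ← hz] at h5 h6
    norm_num at h5
    have h7 : (z + 1)⁻¹ < 1 := inv_lt_one_of_one_lt₀ (by linarith)
    have h8 : (3 / 2 : ℝ)⁻¹ < (z + 1)⁻¹ := (inv_lt_inv₀ (by norm_num) (by linarith)).2 (by linarith)
    norm_num at h8
    exact ⟨by linarith, by linarith, by linarith, by linarith, by linarith, by linarith,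
      by linarith, show -(z + 1)⁻¹ < -(2 / 3) by linarith⟩
  refine growth_of_rec (fun n => NX p V n) 5 (by norm_num) (by norm_num)
    (NX_zero p V ⟨-1, show (-1 : ℝ) < -(2 / 3) by norm_num⟩) ?_ ?_ n
  · intro n
    exact NX_prepend' p V V [T] hT (n + 1) n rfl
  · intro n
    exact NX_two p V V V T M (by decide) [] [D, Q, T, T] hT hM (n + 5) (n + 4) n rfl rfl

/-- The universal lower bound for the number of words. -/
theorem universal {p : ℝ × ℝ} (hp : InP p) (n : ℕ) :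
    ((13 / 10 : ℝ) ^ 5)⁻¹ * (13 / 10 : ℝ) ^ n ≤ NX p univ n := by
  have hle : ∀ k ≤ 5, ((13 / 10 : ℝ) ^ 5)⁻¹ * (13 / 10 : ℝ) ^ n ≤
      ((13 / 10 : ℝ) ^ k)⁻¹ * (13 / 10 : ℝ) ^ n := by
    intro k hk
    refine mul_le_mul_of_nonneg_right ?_ (by positivity)
    exact inv_anti₀ (by positivity) (pow_le_pow_right₀ (by norm_num) hk)
  -- a version for `p` with `-3/5 ≤ a`, and the symmetric one
  have key1 : ∀ q : ℝ × ℝ, InP q → -(3 / 5) ≤ q.1 →
      ((13 / 10 : ℝ) ^ 5)⁻¹ * (13 / 10 : ℝ) ^ n ≤ NX q univ n := by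
    intro q hq h
    refine (hle 4 (by norm_num)).trans ((shoe1 hq h n).trans ?_)
    exact_mod_cast NX_mono q (subset_univ _) n
  have key4 : ∀ q : ℝ × ℝ, InP q → -(5 / 3) ≤ q.1 → q.1 < -1 → 1 / 2 ≤ q.2 →
      ((13 / 10 : ℝ) ^ 5)⁻¹ * (13 / 10 : ℝ) ^ n ≤ NX q univ n := by
    intro q hq h h' h''
    refine (shoe4 hq h h' h'' n).trans ?_
    exact_mod_cast NX_mono q (subset_univ _) n
  have hsym : NX (fp p) univ n = NX p univ n := by
    have := NX_fl p univ n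
    rwa [fs_univ] at this
  by_cases ha : -(3 / 5) ≤ p.1
  · exact key1 p hp ha
  by_cases hb : p.2 ≤ 3 / 5
  · rw [← hsym]
    exact key1 (fp p) (InP_fp hp) (by simp only [fp]; linarith)
  push Not at ha hb
  obtain ⟨h1, h2, h3, h4⟩ := hp
  by_cases ha1 : p.1 < -1
  · refine key4 p ⟨h1, h2, h3, h4⟩ ?_ ha1 (by linarith)
    nlinarith
  by_cases hb1 : 1 < p.2
  · rw [← hsym]
    refine key4 (fp p) (InP_fp ⟨h1, h2, h3, h4⟩) ?_ ?_ ?_ <;> simp only [fp]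
    · nlinarith
    · linarith
    · linarith
  push Not at ha1 hb1
  refine (hle 3 (by norm_num)).trans ((shoe3 ha1 (by linarith) (by linarith) hb1 n).trans ?_)
  have : min (NX p (Iio 0) n) (NX p (Ioi 0) n) ≤ NX p univ n :=
    (min_le_left _ _).trans (NX_mono p (subset_univ _) n)
  exact_mod_cast this

end Pool.Agent.ABcf
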