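import Mathlib
import Pool.Agent.ABcf.Shoes

set_option autoImplicit false
set_option linter.unusedSectionVars false

/-!
Words realised by closed orbits (in homogeneous coordinates), and their number.
-/

namespace Pool.Agent.ABcf

open Set Lt Filter Topology

/-- the branches in homogeneous coordinates -/
def lin : Lt → ℝ × ℝ → ℝ × ℝ
  | T => fun z => (z.1 + z.2, z.2)
  | M => fun z => (z.2, -z.1)
  | Q => fun z => (-z.2, z.1)
  | D => fun z => (z.1 - z.2, z.2)

/-- the closed laps in homogeneous coordinates -/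
def CC (p : ℝ × ℝ) : Lt → ℝ × ℝ → Prop
  | T => fun z => 0 ≤ z.2 ∧ z.1 ≤ p.1 * z.2
  | M => fun z => 0 ≤ z.2 ∧ p.1 * z.2 ≤ z.1 ∧ z.1 ≤ 0
  | Q => fun z => 0 ≤ z.2 ∧ 0 ≤ z.1 ∧ z.1 ≤ p.2 * z.2
  | D => fun z => 0 ≤ z.2 ∧ p.2 * z.2 ≤ z.1

/-- closed words -/
def CL (p : ℝ × ℝ) : List Lt → ℝ × ℝ → Prop
  | [] => fun _ => True
  | s :: w => fun z => CC p s z ∧ CL p w (lin s z)

/-- allowed transitions -/
def ok : Lt → Lt → Prop
  | T => fun t => t = T ∨ t = M ∨ t = Q
  | D => fun t => t = D ∨ t = M ∨ t = Q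
  | M => fun t => t = D
  | Q => fun t => t = T

/-- legal words -/
def legal : List Lt → Prop
  | [] => True
  | [_] => True
  | s :: t :: w => ok s t ∧ legal (t :: w)

theorem legal_tail (s : Lt) (w : List Lt) (h : legal (s :: w)) : legal w := by
  cases w with
  | nil => trivial
  | cons t w => exact h.2

theorem legal_append_right (w v : List Lt) (h : legal (w ++ v)) : legal v := by
  induction w with
  | nil => exact h
  | cons s w ih => exact ih (legal_tail s _ h)

theorem CL_append (p : ℝ × ℝ) (w v : List Lt) (z : ℝ × ℝ) (h : CL p (w ++ v) z) :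
    CL p v (w.foldl (fun z s => lin s z) z) := by
  induction w generalizing z with
  | nil => exact h
  | cons s w ih => exact ih _ h.2

/-! ### Real words are legal closed words -/

theorem CL_of_cyl (p : ℝ × ℝ) (w : List Lt) (x v : ℝ) (hv : 0 < v) (h : x ∈ cyl p w) :
    CL p w (x * v, v) := by
  induction w generalizing x v with
  | nil => trivial
  | cons s w ih =>
    obtain ⟨h1, h2⟩ := h
    cases s
    · have h3 : x < p.1 := h1
      refine ⟨⟨hv.le, ?_⟩, ?_⟩
      · exact mul_le_mul_of_nonneg_right h3.le hv.le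
      · have := ih (x + 1) v hv h2
        simp only [lin]
        rwa [add_mul, one_mul] at this
    · have h3 : p.1 < x := h1.1
      have h4 : x < 0 := h1.2
      refine ⟨⟨hv.le, mul_le_mul_of_nonneg_right h3.le hv.le, ?_⟩, ?_⟩
      · exact mul_nonpos_of_nonpos_of_nonneg h4.le hv.le
      · have h5 : 0 < -(x * v) := by nlinarith
        have := ih (-x⁻¹) (-(x * v)) h5 h2
        simp only [lin]
        have h6 : -x⁻¹ * -(x * v) = v := by
          have : x ≠ 0 := h4.ne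
          field_simp
        rwa [h6] at this
    · have h3 : 0 < x := h1.1
      have h4 : x < p.2 := h1.2
      refine ⟨⟨hv.le, ?_, mul_le_mul_of_nonneg_right h4.le hv.le⟩, ?_⟩
      · exact mul_nonneg h3.le hv.le
      · have h5 : 0 < x * v := mul_pos h3 hv
        have := ih (-x⁻¹) (x * v) h5 h2
        simp only [lin]
        have h6 : -x⁻¹ * (x * v) = -v := by
          have : x ≠ 0 := h3.ne'
          field_simp
        rwa [h6] at this
    · have h3 : p.2 < x := h1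
      refine ⟨⟨hv.le, ?_⟩, ?_⟩
      · exact mul_le_mul_of_nonneg_right h3.le hv.le
      · have := ih (x - 1) v hv h2
        simp only [lin]
        rwa [sub_mul, one_mul] at this

theorem M_image {p : ℝ × ℝ} (hp : InP p) {x : ℝ} (h : p.1 < x) (h' : x < 0) : p.2 < -x⁻¹ := by
  obtain ⟨p1, p2, p3, p4⟩ := hp
  have h1 : -x⁻¹ = 1 / (-x) := by rw [one_div, inv_neg]
  rw [h1, lt_div_iff₀ (by linarith)]
  rcases p2.eq_or_lt with hb | hb
  · rw [← hb]; linarith
  · nlinarith

theorem Q_image {p : ℝ × ℝ} (hp : InP p) {x : ℝ} (h : 0 < x) (h' : x < p.2) : -x⁻¹ < p.1 := by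
  obtain ⟨p1, p2, p3, p4⟩ := hp
  have h1 : -x⁻¹ = -1 / x := by rw [neg_div, one_div]
  rw [h1, div_lt_iff₀ h]
  rcases p1.eq_or_lt with hb | hb
  · rw [hb]; linarith
  · nlinarith

theorem legal_of_cyl {p : ℝ × ℝ} (hp : InP p) (w : List Lt) (x : ℝ) (h : x ∈ cyl p w) :
    legal w := by
  induction w generalizing x with
  | nil => trivial
  | cons s w ih =>
    obtain ⟨h1, h2⟩ := h
    have h3 := ih _ h2
    cases w with
    | nil => trivial
    | cons t w =>
      refine ⟨?_, h3⟩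
      have h4 : g s x ∈ lap p t := h2.1
      cases s
      · have h5 : x < p.1 := h1
        cases t
        · exact Or.inl rfl
        · exact Or.inr (Or.inl rfl)
        · exact Or.inr (Or.inr rfl)
        · exfalso
          have h6 : p.2 < x + 1 := h4
          linarith [hp.2.2.1]
      · have h5 := M_image hp h1.1 h1.2
        have h6 := hp.2.1
        cases t
        · exfalso
          have h7 : -x⁻¹ < p.1 := h4
          linarith [hp.1]
        · exfalso
          have h7 : -x⁻¹ < 0 := h4.2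
          linarith
        · exfalso
          have h7 : -x⁻¹ < p.2 := h4.2
          linarith
        · rfl
      · have h5 := Q_image hp h1.1 h1.2
        have h6 := hp.1
        cases t
        · rfl
        · exfalso
          have h7 : p.1 < -x⁻¹ := h4.1
          linarith
        · exfalso
          have h7 : 0 < -x⁻¹ := h4.1
          linarith
        · exfalso
          have h7 : p.2 < -x⁻¹ := h4
          linarith [hp.2.1]
      · have h5 : p.2 < x := h1
        cases t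
        · exfalso
          have h6 : x - 1 < p.1 := h4
          linarith [hp.2.2.1]
        · exact Or.inr (Or.inl rfl)
        · exact Or.inr (Or.inr rfl)
        · exact Or.inl rfl

/-! ### Closedness in the parameter -/

theorem lin_cont (s : Lt) : Continuous (lin s) := by
  cases s <;> (unfold lin; fun_prop)

theorem CC_closed (s : Lt) : IsClosed {q : (ℝ × ℝ) × (ℝ × ℝ) | CC q.1 s q.2} := by
  cases s
  · have h : {q : (ℝ × ℝ) × (ℝ × ℝ) | CC q.1 T q.2} =
      {q | 0 ≤ q.2.2} ∩ {q | q.2.1 ≤ q.1.1 * q.2.2} := by ext q; rfl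
    rw [h]
    exact (isClosed_le (by fun_prop) (by fun_prop)).inter (isClosed_le (by fun_prop) (by fun_prop))
  · have h : {q : (ℝ × ℝ) × (ℝ × ℝ) | CC q.1 M q.2} =
      {q | 0 ≤ q.2.2} ∩ ({q | q.1.1 * q.2.2 ≤ q.2.1} ∩ {q | q.2.1 ≤ 0}) := by ext q; rfl
    rw [h]
    exact (isClosed_le (by fun_prop) (by fun_prop)).inter
      ((isClosed_le (by fun_prop) (by fun_prop)).inter (isClosed_le (by fun_prop) (by fun_prop)))
  · have h : {q : (ℝ × ℝ) × (ℝ × ℝ) | CC q.1 Q q.2} =
      {q | 0 ≤ q.2.2} ∩ ({q | 0 ≤ q.2.1} ∩ {q | q.2.1 ≤ q.1.2 * q.2.2}) := by ext q; rfl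
    rw [h]
    exact (isClosed_le (by fun_prop) (by fun_prop)).inter
      ((isClosed_le (by fun_prop) (by fun_prop)).inter (isClosed_le (by fun_prop) (by fun_prop)))
  · have h : {q : (ℝ × ℝ) × (ℝ × ℝ) | CC q.1 D q.2} =
      {q | 0 ≤ q.2.2} ∩ {q | q.1.2 * q.2.2 ≤ q.2.1} := by ext q; rfl
    rw [h]
    exact (isClosed_le (by fun_prop) (by fun_prop)).inter (isClosed_le (by fun_prop) (by fun_prop))

theorem CL_closed (w : List Lt) : IsClosed {q : (ℝ × ℝ) × (ℝ × ℝ) | CL q.1 w q.2} := by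
  induction w with
  | nil =>
    have : {q : (ℝ × ℝ) × (ℝ × ℝ) | CL q.1 [] q.2} = univ := by ext q; simp [CL]
    rw [this]; exact isClosed_univ
  | cons s w ih =>
    have h : {q : (ℝ × ℝ) × (ℝ × ℝ) | CL q.1 (s :: w) q.2} =
        {q | CC q.1 s q.2} ∩ (fun q : (ℝ × ℝ) × (ℝ × ℝ) => (q.1, lin s q.2)) ⁻¹'
          {q | CL q.1 w q.2} := by ext q; rfl
    rw [h]
    refine (CC_closed s).inter (ih.preimage ?_)
    exact continuous_fst.prodMk ((lin_cont s).comp continuous_snd)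

theorem lin_smul (s : Lt) (t : ℝ) (z : ℝ × ℝ) : lin s (t • z) = t • lin s z := by
  cases s <;> simp only [lin, Prod.smul_fst, Prod.smul_snd, smul_eq_mul] <;> ext <;>
    simp only [Prod.smul_fst, Prod.smul_snd, smul_eq_mul] <;> ring

theorem CL_smul (p : ℝ × ℝ) (w : List Lt) (t : ℝ) (ht : 0 < t) (z : ℝ × ℝ) (h : CL p w z) :
    CL p w (t • z) := by
  induction w generalizing z with
  | nil => trivial
  | cons s w ih =>
    obtain ⟨h1, h2⟩ := h
    refine ⟨?_, by rw [lin_smul]; exact ih _ h2⟩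
    cases s <;> simp only [CC, Prod.smul_fst, Prod.smul_snd, smul_eq_mul] at h1 ⊢
    · exact ⟨by nlinarith [h1.1], by nlinarith [h1.2]⟩
    · exact ⟨by nlinarith [h1.1], by nlinarith [h1.2.1], by nlinarith [h1.2.2]⟩
    · exact ⟨by nlinarith [h1.1], by nlinarith [h1.2.1], by nlinarith [h1.2.2]⟩
    · exact ⟨by nlinarith [h1.1], by nlinarith [h1.2]⟩

/-- the legal closed words of length `n` at the parameter `p` -/
def WC (p : ℝ × ℝ) (n : ℕ) : Set (List Lt) :=
  {w | w.length = n ∧ legal w ∧ ∃ z : ℝ × ℝ, z ≠ 0 ∧ CL p w z}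

theorem WC_finite (p : ℝ × ℝ) (n : ℕ) : (WC p n).Finite :=
  (words_finite n).subset fun _ hw => hw.1

theorem WX_sub_WC {p : ℝ × ℝ} (hp : InP p) (n : ℕ) : WX p univ n ⊆ WC p n := by
  rintro w ⟨h1, h2⟩
  rw [img_eq] at h2
  obtain ⟨y, x, ⟨hx, _⟩, _⟩ := h2
  refine ⟨h1, legal_of_cyl hp w x hx, (x * 1, 1), ?_, CL_of_cyl p w x 1 one_pos hx⟩
  intro h
  have := congrArg Prod.snd h
  simp at this

theorem WC_eventually (p₀ : ℝ × ℝ) (w : List Lt) (hw : ¬ ∃ z : ℝ × ℝ, z ≠ 0 ∧ CL p₀ w z) :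
    ∀ᶠ p in 𝓝 p₀, ¬ ∃ z : ℝ × ℝ, z ≠ 0 ∧ CL p w z := by
  have hK : IsCompact (Metric.sphere (0 : ℝ × ℝ) 1) := isCompact_sphere 0 1
  have h1 : ∀ z ∈ Metric.sphere (0 : ℝ × ℝ) 1, ∀ᶠ q : (ℝ × ℝ) × (ℝ × ℝ) in 𝓝 (p₀, z),
      ¬ CL q.1 w q.2 := by
    intro z hz
    have hopen : IsOpen {q : (ℝ × ℝ) × (ℝ × ℝ) | CL q.1 w q.2}ᶜ := (CL_closed w).isOpen_compl
    refine hopen.mem_nhds ?_
    intro h2
    refine hw ⟨z, ?_, h2⟩
    intro h3
    rw [h3] at hz
    simp at hz
  have h2 := hK.eventually_forall_of_forall_eventually (x₀ := p₀)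
    (P := fun (p z : ℝ × ℝ) => ¬ CL p w z) h1
  filter_upwards [h2] with p hp
  rintro ⟨z, hz, hz'⟩
  have hn : 0 < ‖z‖ := norm_pos_iff.2 hz
  refine hp (‖z‖⁻¹ • z) ?_ (CL_smul p w _ (inv_pos.2 hn) z hz')
  rw [mem_sphere_zero_iff_norm, norm_smul, norm_inv, norm_norm, inv_mul_cancel₀ hn.ne']

theorem WC_usc (p₀ : ℝ × ℝ) (n : ℕ) : ∀ᶠ p in 𝓝 p₀, WC p n ⊆ WC p₀ n := by
  have h1 : ∀ w ∈ words n, ∀ᶠ p in 𝓝 p₀, (w ∈ WC p n → w ∈ WC p₀ n) := by
    intro w hw
    by_cases h : ∃ z : ℝ × ℝ, z ≠ 0 ∧ CL p₀ w z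
    · exact Filter.Eventually.of_forall fun p hp => ⟨hp.1, hp.2.1, h⟩
    · filter_upwards [WC_eventually p₀ w h] with p hp hw'
      exact absurd hw'.2.2 hp
  have h2 := (words_finite n).eventually_all.2 h1
  filter_upwards [h2] with p hp w hw
  exact hp w hw.1 hw

end Pool.Agent.ABcf
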