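import Mathlib
import Pool.Agent.ABcf.Closed

set_option autoImplicit false
set_option linter.unusedSectionVars false

/-!
Counting the legal closed words which start at a given point.
-/

namespace Pool.Agent.ABcf

open Set Lt

/-- the bounding sequence -/
def mu : ℕ → ℕ
  | 0 => 64
  | 1 => 64
  | 2 => 64
  | 3 => 64
  | (n + 4) => mu (n + 2) + mu n

theorem mu_ge (n : ℕ) : 64 ≤ mu n := by
  induction n using Nat.strong_induction_on with
  | _ n ih =>
    match n with
    | 0 => exact le_rfl
    | 1 => exact le_rfl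
    | 2 => exact le_rfl
    | 3 => exact le_rfl
    | (n + 4) =>
      have := ih n (by omega)
      simp only [mu]
      omega

theorem mu_succ (n : ℕ) : mu n ≤ mu (n + 1) := by
  induction n using Nat.strong_induction_on with
  | _ n ih =>
    match n with
    | 0 => exact le_rfl
    | 1 => exact le_rfl
    | 2 => exact le_rfl
    | 3 => simp [mu]
    | (n + 4) =>
      have h1 := ih n (by omega)
      have h2 := ih (n + 2) (by omega)
      change mu (n + 2) + mu n ≤ mu (n + 1 + 2) + mu (n + 1)
      have h3 : n + 2 + 1 = n + 1 + 2 := by ring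
      rw [h3] at h2
      omega

theorem mu_mono : Monotone mu := monotone_nat_of_le_succ mu_succ

theorem mu_growth (n : ℕ) : (mu n : ℝ) ≤ 64 * (13 / 10 : ℝ) ^ n := by
  induction n using Nat.strong_induction_on with
  | _ n ih =>
    match n with
    | 0 => norm_num [mu]
    | 1 => norm_num [mu]
    | 2 => norm_num [mu]
    | 3 => norm_num [mu]
    | (n + 4) =>
      have h1 := ih n (by omega)
      have h2 := ih (n + 2) (by omega)
      simp only [mu]
      push_cast
      have h3 : (0 : ℝ) < (13 / 10 : ℝ) ^ n := by positivity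
      rw [pow_add] at h2 ⊢
      nlinarith

/-- the legal closed words of length `n` from the point `z` -/
def SC (p z : ℝ × ℝ) (n : ℕ) : Set (List Lt) := {w | w.length = n ∧ legal w ∧ CL p w z}

theorem SC_finite (p z : ℝ × ℝ) (n : ℕ) : (SC p z n).Finite :=
  (words_finite n).subset fun _ hw => hw.1

noncomputable def qc (p z : ℝ × ℝ) (n : ℕ) : ℕ := (SC p z n).ncard

/-- those with a given first letter -/
def SCs (p z : ℝ × ℝ) (n : ℕ) (s : Lt) : Set (List Lt) := {w | w ∈ SC p z n ∧ w.head? = some s}

theorem SCs_finite (p z : ℝ × ℝ) (n : ℕ) (s : Lt) : (SCs p z n s).Finite :=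
  (SC_finite p z n).subset fun _ hw => hw.1

theorem qc_le_sum (p z : ℝ × ℝ) (n : ℕ) : qc p z (n + 1) ≤ (SCs p z (n + 1) T).ncard +
    (SCs p z (n + 1) M).ncard + (SCs p z (n + 1) Q).ncard + (SCs p z (n + 1) D).ncard := by
  have h : SC p z (n + 1) ⊆ SCs p z (n + 1) T ∪ SCs p z (n + 1) M ∪ SCs p z (n + 1) Q ∪
      SCs p z (n + 1) D := by
    intro w hw
    cases w with
    | nil => exact absurd hw.1 (by simp)
    | cons s w =>
      cases s
      · exact Or.inl (Or.inl (Or.inl ⟨hw, rfl⟩))
      · exact Or.inl (Or.inl (Or.inr ⟨hw, rfl⟩))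
      · exact Or.inl (Or.inr ⟨hw, rfl⟩)
      · exact Or.inr ⟨hw, rfl⟩
  have hf := fun s => SCs_finite p z (n + 1) s
  refine (ncard_le_ncard h ((((hf T).union (hf M)).union (hf Q)).union (hf D))).trans ?_
  refine (ncard_union_le _ _).trans (add_le_add ?_ le_rfl)
  refine (ncard_union_le _ _).trans (add_le_add ?_ le_rfl)
  exact ncard_union_le _ _

theorem count_prefix (p z' : ℝ × ℝ) (v : List Lt) (n : ℕ) (S : Set (List Lt))
    (hS : ∀ w ∈ S, ∃ w', w = v ++ w' ∧ w' ∈ SC p z' n) : S.ncard ≤ qc p z' n := by
  have h : S ⊆ (fun w' => v ++ w') '' SC p z' n := by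
    intro w hw
    obtain ⟨w', h1, h2⟩ := hS w hw
    exact ⟨w', h2, h1.symm⟩
  exact (ncard_le_ncard h ((SC_finite p z' n).image _)).trans (ncard_image_le (SC_finite p z' n))

theorem SCs_empty (p z : ℝ × ℝ) (n : ℕ) (s : Lt) (h : ¬ CC p s z) :
    (SCs p z (n + 1) s).ncard = 0 := by
  have : SCs p z (n + 1) s = ∅ := by
    ext w
    simp only [mem_empty_iff_false, iff_false]
    rintro ⟨⟨h1, h2, h3⟩, h4⟩
    cases w with
    | nil => simp at h1
    | cons t w =>
      simp only [List.head?_cons, Option.some.injEq] at h4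
      subst h4
      exact h h3.1
  rw [this, ncard_empty]

theorem SCs_le (p z : ℝ × ℝ) (n : ℕ) (s : Lt) :
    (SCs p z (n + 1) s).ncard ≤ qc p (lin s z) n := by
  refine count_prefix p (lin s z) [s] n _ ?_
  rintro w ⟨⟨h1, h2, h3⟩, h4⟩
  cases w with
  | nil => simp at h1
  | cons t w =>
    simp only [List.head?_cons, Option.some.injEq] at h4
    subst h4
    exact ⟨w, rfl, by simpa using h1, legal_tail _ _ h2, h3.2⟩

theorem lin_ne_zero (s : Lt) {z : ℝ × ℝ} (hz : z ≠ 0) : lin s z ≠ 0 := by
  intro h
  apply hz
  have h1 := congrArg Prod.fst h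
  have h2 := congrArg Prod.snd h
  cases s <;> simp only [lin, Prod.fst_zero, Prod.snd_zero] at h1 h2 <;> ext <;>
    simp only [Prod.fst_zero, Prod.snd_zero] <;> linarith

/-- From infinity there is only one word. -/
theorem qc_inf (p : ℝ × ℝ) (u : ℝ) (hu : u ≠ 0) (n : ℕ) : qc p (u, 0) n ≤ 1 := by
  have key : ∀ w, CL p w (u, 0) → w = List.replicate w.length (if 0 < u then D else T) := by
    intro w hw
    induction w with
    | nil => rfl
    | cons s w ih =>
      obtain ⟨h1, h2⟩ := hw
      rcases lt_or_gt_of_ne hu with h | h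
      · cases s <;> simp only [CC, mul_zero] at h1
        · simp only [lin, add_zero] at h2
          rw [List.length_cons, List.replicate_succ, ← ih h2, if_neg (by linarith)]
        · exact absurd h1.2.1 (by linarith)
        · exact absurd h1.2.1 (by linarith)
        · exact absurd h1.2 (by linarith)
      · cases s <;> simp only [CC, mul_zero] at h1
        · exact absurd h1.2 (by linarith)
        · exact absurd h1.2.2 (by linarith)
        · exact absurd h1.2.2 (by linarith)
        · simp only [lin, sub_zero] at h2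
          rw [List.length_cons, List.replicate_succ, ← ih h2, if_pos h]
  have h : SC p (u, 0) n ⊆ {List.replicate n (if 0 < u then D else T)} := by
    rintro w ⟨h1, _, h3⟩
    rw [mem_singleton_iff, key w h3, h1]
  have h2 := ncard_le_ncard h (finite_singleton _)
  rwa [ncard_singleton] at h2

/-- The critical point `a < 0`. -/
theorem qc_a {p : ℝ × ℝ} (hp : InP p) (ha : p.1 < 0) (v : ℝ) (hv : 0 < v) (n : ℕ)
    (ih : ∀ m < n + 4, ∀ z : ℝ × ℝ, z ≠ 0 → qc p z m ≤ mu m) :
    qc p (p.1 * v, v) (n + 4) ≤ mu (n + 4) := by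
  obtain ⟨p1, p2, p3, p4⟩ := hp
  set a := p.1 with hadef
  set b := p.2 with hbdef
  have hmu := mu_ge n
  have hm1 := mu_mono (show n + 1 ≤ n + 2 by omega)
  have hav : a * v < 0 := mul_neg_of_neg_of_pos ha hv
  have hQ : (SCs p (a * v, v) (n + 4) Q).ncard = 0 := by
    refine SCs_empty p _ (n + 3) Q ?_
    rintro ⟨_, h, _⟩
    exact absurd h (not_le.2 hav)
  have hD : (SCs p (a * v, v) (n + 4) D).ncard = 0 := by
    refine SCs_empty p _ (n + 3) D ?_
    rintro ⟨_, h⟩
    simp only [] at h
    nlinarith [mul_nonneg p2 hv.le]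
  have hsum := qc_le_sum p (a * v, v) (n + 3)
  change _ ≤ mu (n + 2) + mu n
  rcases lt_trichotomy a (-1) with h | h | h
  · -- a < -1
    have hT : (SCs p (a * v, v) (n + 4) T).ncard ≤ mu (n + 1) := by
      have hz : ((v + (a * v + v), -(a * v + v)) : ℝ × ℝ) ≠ 0 := by
        intro h0
        have := congrArg Prod.snd h0
        simp only [Prod.snd_zero] at this
        nlinarith
      refine le_trans (count_prefix p _ [T, M, D] (n + 1) _ ?_) (ih (n + 1) (by omega) _ hz)
      rintro w ⟨⟨h1, h2, h3⟩, h4⟩
      rcases w with _ | ⟨s1, _ | ⟨s2, _ | ⟨s3, w⟩⟩⟩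
      · simp at h1
      · simp at h1
      · simp at h1
      simp only [List.head?_cons, Option.some.injEq] at h4
      subst h4
      obtain ⟨c1, c2, c3, c4⟩ := h3
      obtain ⟨o1, o2, o3⟩ := (show ok T s2 ∧ ok s2 s3 ∧ legal (s3 :: w) from h2)
      have e2 : s2 = M := by
        rcases o1 with rfl | rfl | rfl
        · simp only [CC, lin] at c2
          nlinarith [c2.2]
        · rfl
        · simp only [CC, lin] at c2
          nlinarith [c2.2.1]
      subst e2
      have e3 : s3 = D := o2
      subst e3
      refine ⟨w, rfl, by simpa using h1, legal_tail _ _ o3, ?_⟩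
      simpa only [lin, sub_neg_eq_add] using c4
    have hM : (SCs p (a * v, v) (n + 4) M).ncard ≤ mu n := by
      have hz : ((v, -(v + a * v)) : ℝ × ℝ) ≠ 0 := by
        intro h0
        have := congrArg Prod.fst h0
        simp only [Prod.fst_zero] at this
        linarith
      refine le_trans (count_prefix p _ [M, D, M, D] n _ ?_) (ih n (by omega) _ hz)
      rintro w ⟨⟨h1, h2, h3⟩, h4⟩
      rcases w with _ | ⟨s1, _ | ⟨s2, _ | ⟨s3, _ | ⟨s4, w⟩⟩⟩⟩
      · simp at h1
      · simp at h1
      · simp at h1
      · simp at h1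
      simp only [List.head?_cons, Option.some.injEq] at h4
      subst h4
      obtain ⟨c1, c2, c3, c4, c5⟩ := h3
      obtain ⟨o1, o2, o3, o4⟩ :=
        (show ok M s2 ∧ ok s2 s3 ∧ ok s3 s4 ∧ legal (s4 :: w) from h2)
      have e2 : s2 = D := o1
      subst e2
      have e3 : s3 = M := by
        rcases o2 with rfl | rfl | rfl
        · simp only [CC, lin] at c3
          nlinarith [c3.2, mul_nonneg p2 (neg_pos.2 hav).le]
        · rfl
        · simp only [CC, lin] at c3
          nlinarith [c3.2.1]
      subst e3
      have e4 : s4 = D := o3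
      subst e4
      refine ⟨w, rfl, by simpa using h1, legal_tail _ _ o4, ?_⟩
      simp only [lin] at c5
      convert c5 using 2 <;> ring
    simp only [Nat.add_assoc, Nat.reduceAdd] at hsum
    omega
  · -- a = -1
    have hT : (SCs p (a * v, v) (n + 4) T).ncard ≤ 2 := by
      have hsub : SCs p (a * v, v) (n + 4) T ⊆
          ((fun w => T :: M :: w) '' SC p (v, 0) (n + 2)) ∪
          ((fun w => T :: Q :: w) '' SC p (-v, 0) (n + 2)) := by
        rintro w ⟨⟨h1, h2, h3⟩, h4⟩
        rcases w with _ | ⟨s1, _ | ⟨s2, w⟩⟩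
        · simp at h1
        · simp at h1
        simp only [List.head?_cons, Option.some.injEq] at h4
        subst h4
        obtain ⟨c1, c2, c3⟩ := h3
        obtain ⟨o1, o2⟩ := (show ok T s2 ∧ legal (s2 :: w) from h2)
        have hz : a * v + v = 0 := by rw [h]; ring
        rcases o1 with rfl | rfl | rfl
        · simp only [CC, lin] at c2
          nlinarith [c2.2]
        · left
          refine ⟨w, ⟨by simpa using h1, legal_tail _ _ o2, ?_⟩, rfl⟩
          simpa only [lin, hz, neg_zero] using c3
        · right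
          refine ⟨w, ⟨by simpa using h1, legal_tail _ _ o2, ?_⟩, rfl⟩
          simpa only [lin, hz] using c3
      refine (ncard_le_ncard hsub (((SC_finite p _ _).image _).union
        ((SC_finite p _ _).image _))).trans ?_
      refine (ncard_union_le _ _).trans ?_
      have e1 := (ncard_image_le (f := fun w => T :: M :: w) (SC_finite p (v, 0) (n + 2))).trans
        (qc_inf p v hv.ne' (n + 2))
      have e2 := (ncard_image_le (f := fun w => T :: Q :: w) (SC_finite p (-v, 0) (n + 2))).trans
        (qc_inf p (-v) (by linarith) (n + 2))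
      omega
    have hM : (SCs p (a * v, v) (n + 4) M).ncard ≤ mu (n + 2) := by
      have hz : ((v + a * v, -(a * v)) : ℝ × ℝ) ≠ 0 := by
        intro h0
        have := congrArg Prod.snd h0
        simp only [Prod.snd_zero] at this
        linarith
      refine le_trans (count_prefix p _ [M, D] (n + 2) _ ?_) (ih (n + 2) (by omega) _ hz)
      rintro w ⟨⟨h1, h2, h3⟩, h4⟩
      rcases w with _ | ⟨s1, _ | ⟨s2, w⟩⟩
      · simp at h1
      · simp at h1
      simp only [List.head?_cons, Option.some.injEq] at h4
      subst h4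
      obtain ⟨c1, c2, c3⟩ := h3
      obtain ⟨o1, o2⟩ := (show ok M s2 ∧ legal (s2 :: w) from h2)
      have e2 : s2 = D := o1
      subst e2
      refine ⟨w, rfl, by simpa using h1, legal_tail _ _ o2, ?_⟩
      simpa only [lin, sub_neg_eq_add] using c3
    simp only [Nat.add_assoc, Nat.reduceAdd] at hsum
    omega
  · -- -1 < a
    have hT : (SCs p (a * v, v) (n + 4) T).ncard ≤ mu n := by
      have hz : ((a * v + (a * v + v), a * v + v) : ℝ × ℝ) ≠ 0 := by
        intro h0
        have := congrArg Prod.snd h0
        simp only [Prod.snd_zero] at this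
        nlinarith
      refine le_trans (count_prefix p _ [T, Q, T, T] n _ ?_) (ih n (by omega) _ hz)
      rintro w ⟨⟨h1, h2, h3⟩, h4⟩
      rcases w with _ | ⟨s1, _ | ⟨s2, _ | ⟨s3, _ | ⟨s4, w⟩⟩⟩⟩
      · simp at h1
      · simp at h1
      · simp at h1
      · simp at h1
      simp only [List.head?_cons, Option.some.injEq] at h4
      subst h4
      obtain ⟨c1, c2, c3, c4, c5⟩ := h3
      obtain ⟨o1, o2, o3, o4⟩ :=
        (show ok T s2 ∧ ok s2 s3 ∧ ok s3 s4 ∧ legal (s4 :: w) from h2)
      have hpos : 0 < a * v + v := by nlinarith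
      have e2 : s2 = Q := by
        rcases o1 with rfl | rfl | rfl
        · simp only [CC, lin] at c2
          linarith [c2.2]
        · simp only [CC, lin] at c2
          linarith [c2.2.2]
        · rfl
      subst e2
      have e3 : s3 = T := o2
      subst e3
      have e4 : s4 = T := by
        rcases o3 with rfl | rfl | rfl
        · rfl
        · simp only [CC, lin] at c4
          nlinarith [c4.2.1, mul_pos (neg_pos.2 ha) (neg_pos.2 hav)]
        · simp only [CC, lin] at c4
          linarith [c4.2.1]
      subst e4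
      refine ⟨w, rfl, by simpa using h1, legal_tail _ _ o4, ?_⟩
      simp only [lin] at c5
      convert c5 using 2
      ring
    have hM : (SCs p (a * v, v) (n + 4) M).ncard ≤ mu (n + 2) := by
      have hz : ((v + a * v, -(a * v)) : ℝ × ℝ) ≠ 0 := by
        intro h0
        have := congrArg Prod.snd h0
        simp only [Prod.snd_zero] at this
        linarith
      refine le_trans (count_prefix p _ [M, D] (n + 2) _ ?_) (ih (n + 2) (by omega) _ hz)
      rintro w ⟨⟨h1, h2, h3⟩, h4⟩
      rcases w with _ | ⟨s1, _ | ⟨s2, w⟩⟩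
      · simp at h1
      · simp at h1
      simp only [List.head?_cons, Option.some.injEq] at h4
      subst h4
      obtain ⟨c1, c2, c3⟩ := h3
      obtain ⟨o1, o2⟩ := (show ok M s2 ∧ legal (s2 :: w) from h2)
      have e2 : s2 = D := o1
      subst e2
      refine ⟨w, rfl, by simpa using h1, legal_tail _ _ o2, ?_⟩
      simpa only [lin, sub_neg_eq_add] using c3
    simp only [Nat.add_assoc, Nat.reduceAdd] at hsum
    omega

/-! ### Symmetry -/

theorem ok_fl (s t : Lt) (h : ok s t) : ok (fl s) (fl t) := by
  cases s <;> simp only [ok, fl] at h ⊢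
  · rcases h with rfl | rfl | rfl <;> simp
  · subst h; rfl
  · subst h; rfl
  · rcases h with rfl | rfl | rfl <;> simp

theorem legal_fl (w : List Lt) (h : legal w) : legal (w.map fl) := by
  induction w with
  | nil => trivial
  | cons s w ih =>
    cases w with
    | nil => trivial
    | cons t w => exact ⟨ok_fl s t h.1, ih h.2⟩

theorem CL_fl (p : ℝ × ℝ) (w : List Lt) (z : ℝ × ℝ) (h : CL p w z) :
    CL (fp p) (w.map fl) (-z.1, z.2) := by
  induction w generalizing z with
  | nil => trivial
  | cons s w ih =>
    obtain ⟨h1, h2⟩ := h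
    have h3 := ih _ h2
    cases s
    · refine ⟨⟨h1.1, ?_⟩, ?_⟩
      · simp only [fp]; linarith [h1.2]
      · simp only [lin, fl] at h3 ⊢
        rwa [show -(z.1 + z.2) = -z.1 - z.2 by ring] at h3
    · refine ⟨⟨h1.1, ?_, ?_⟩, ?_⟩
      · simp only []; linarith [h1.2.2]
      · simp only [fp]; linarith [h1.2.1]
      · simpa only [lin, fl] using h3
    · refine ⟨⟨h1.1, ?_, ?_⟩, ?_⟩
      · simp only [fp]; linarith [h1.2.2]
      · simp only []; linarith [h1.2.1]
      · simp only [lin, fl, neg_neg] at h3 ⊢
        exact h3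
    · refine ⟨⟨h1.1, ?_⟩, ?_⟩
      · simp only [fp]; linarith [h1.2]
      · simp only [lin, fl] at h3 ⊢
        rwa [show -(z.1 - z.2) = -z.1 + z.2 by ring] at h3

theorem qc_fl (p z : ℝ × ℝ) (n : ℕ) : qc p z n ≤ qc (fp p) (-z.1, z.2) n := by
  have hinj : InjOn (fun w : List Lt => w.map fl) (SC p z n) := fun w _ w' _ h =>
    (List.map_injective_iff.2 fl_inj) h
  have hsub : (fun w : List Lt => w.map fl) '' SC p z n ⊆ SC (fp p) (-z.1, z.2) n := by
    rintro _ ⟨w, ⟨h1, h2, h3⟩, rfl⟩
    exact ⟨by simp [h1], legal_fl w h2, CL_fl p w z h3⟩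
  calc qc p z n = ((fun w : List Lt => w.map fl) '' SC p z n).ncard := hinj.ncard_image.symm
    _ ≤ _ := ncard_le_ncard hsub (SC_finite _ _ n)

/-- The critical point `b > 0`. -/
theorem qc_b {p : ℝ × ℝ} (hp : InP p) (hb : 0 < p.2) (v : ℝ) (hv : 0 < v) (n : ℕ)
    (ih : ∀ m < n + 4, ∀ z : ℝ × ℝ, z ≠ 0 → qc p z m ≤ mu m) :
    qc p (p.2 * v, v) (n + 4) ≤ mu (n + 4) := by
  have ih' : ∀ m < n + 4, ∀ z : ℝ × ℝ, z ≠ 0 → qc (fp p) z m ≤ mu m := by
    intro m hm z hz
    have h1 := qc_fl (fp p) z m
    rw [fp_fp] at h1
    refine h1.trans (ih m hm _ ?_)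
    intro h0
    apply hz
    have e1 := congrArg Prod.fst h0
    have e2 := congrArg Prod.snd h0
    simp only [Prod.fst_zero, Prod.snd_zero, neg_eq_zero] at e1 e2
    exact Prod.ext e1 e2
  have h1 := qc_a (InP_fp hp) (by simp only [fp]; linarith) v hv n ih'
  refine (qc_fl p _ (n + 4)).trans ?_
  have : ((-(p.2 * v, v).1, (p.2 * v, v).2) : ℝ × ℝ) = ((fp p).1 * v, v) := by
    simp only [fp]; ext <;> simp
  rw [this]
  exact h1

/-- The critical point `0`, when `b > 0`. -/
theorem qc_zero {p : ℝ × ℝ} (hp : InP p) (hb : 0 < p.2) (v : ℝ) (hv : 0 < v) (n : ℕ)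
    (ih : ∀ m < n + 4, ∀ z : ℝ × ℝ, z ≠ 0 → qc p z m ≤ mu m) :
    qc p (0, v) (n + 4) ≤ mu (n + 4) := by
  obtain ⟨p1, p2, p3, p4⟩ := hp
  have hmu := mu_ge n
  have hm1 := mu_mono (show n + 1 ≤ n + 2 by omega)
  have hD : (SCs p (0, v) (n + 4) D).ncard = 0 := by
    refine SCs_empty p _ (n + 3) D ?_
    rintro ⟨_, h⟩
    simp only [] at h
    nlinarith [mul_pos hb hv]
  have hM : (SCs p (0, v) (n + 4) M).ncard ≤ 1 := by
    refine (SCs_le p (0, v) (n + 3) M).trans ?_
    simp only [lin, neg_zero]
    exact qc_inf p v hv.ne' _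
  have hQ : (SCs p (0, v) (n + 4) Q).ncard ≤ 1 := by
    refine (SCs_le p (0, v) (n + 3) Q).trans ?_
    simp only [lin]
    exact qc_inf p (-v) (by linarith) _
  have hT : (SCs p (0, v) (n + 4) T).ncard ≤ mu (n + 1) := by
    rcases p1.eq_or_lt with ha | ha
    · have hz : ((0, v) : ℝ × ℝ) ≠ 0 := by
        intro h0
        have := congrArg Prod.snd h0
        simp only [Prod.snd_zero] at this
        linarith
      refine le_trans (count_prefix p _ [T, Q, T] (n + 1) _ ?_) (ih (n + 1) (by omega) _ hz)
      rintro w ⟨⟨h1, h2, h3⟩, h4⟩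
      rcases w with _ | ⟨s1, _ | ⟨s2, _ | ⟨s3, w⟩⟩⟩
      · simp at h1
      · simp at h1
      · simp at h1
      simp only [List.head?_cons, Option.some.injEq] at h4
      subst h4
      obtain ⟨c1, c2, c3, c4⟩ := h3
      obtain ⟨o1, o2, o3⟩ := (show ok T s2 ∧ ok s2 s3 ∧ legal (s3 :: w) from h2)
      have e2 : s2 = Q := by
        rcases o1 with rfl | rfl | rfl
        · simp only [CC, lin, ha, zero_mul] at c2
          linarith [c2.2]
        · simp only [CC, lin] at c2
          linarith [c2.2.2]
        · rfl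
      subst e2
      have e3 : s3 = T := o2
      subst e3
      refine ⟨w, rfl, by simpa using h1, legal_tail _ _ o3, ?_⟩
      simp only [lin] at c4
      convert c4 using 2 <;> ring
    · rw [SCs_empty p _ (n + 3) T]
      · exact Nat.zero_le _
      · rintro ⟨_, h⟩
        simp only [] at h
        nlinarith [mul_pos (neg_pos.2 ha) hv]
  have hsum := qc_le_sum p (0, v) (n + 3)
  simp only [Nat.add_assoc, Nat.reduceAdd] at hsum
  change _ ≤ mu (n + 2) + mu n
  omega

theorem qc_zero' {p : ℝ × ℝ} (hp : InP p) (v : ℝ) (hv : 0 < v) (n : ℕ)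
    (ih : ∀ m < n + 4, ∀ z : ℝ × ℝ, z ≠ 0 → qc p z m ≤ mu m) :
    qc p (0, v) (n + 4) ≤ mu (n + 4) := by
  by_cases hb : 0 < p.2
  · exact qc_zero hp hb v hv n ih
  have ih' : ∀ m < n + 4, ∀ z : ℝ × ℝ, z ≠ 0 → qc (fp p) z m ≤ mu m := by
    intro m hm z hz
    have h1 := qc_fl (fp p) z m
    rw [fp_fp] at h1
    refine h1.trans (ih m hm _ ?_)
    intro h0
    apply hz
    have e1 := congrArg Prod.fst h0
    have e2 := congrArg Prod.snd h0
    simp only [Prod.fst_zero, Prod.snd_zero, neg_eq_zero] at e1 e2
    exact Prod.ext e1 e2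
  have h1 := qc_zero (InP_fp hp) (by simp only [fp]; linarith [hp.2.2.1]) v hv n ih'
  refine (qc_fl p _ (n + 4)).trans ?_
  simpa using h1

theorem words_ncard (n : ℕ) : (words n).ncard = 4 ^ n := by
  induction n with
  | zero =>
    have : words 0 = {[]} := by
      ext w; simp [words]
    rw [this, ncard_singleton, pow_zero]
  | succ n ih =>
    have h : words (n + 1) = (fun q : Lt × List Lt => q.1 :: q.2) '' (univ ×ˢ words n) := by
      ext w
      constructor
      · intro hw
        cases w with
        | nil => simp [words] at hw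
        | cons s w => exact ⟨(s, w), ⟨mem_univ _, by simpa [words] using hw⟩, rfl⟩
      · rintro ⟨⟨s, w⟩, ⟨_, hw⟩, rfl⟩
        have : w.length = n := hw
        simp [words, this]
    rw [h, InjOn.ncard_image]
    · rw [ncard_prod, ih, ncard_univ, Nat.card_eq_fintype_card, Lt.card]
      ring
    · rintro ⟨s, w⟩ _ ⟨t, v⟩ _ h
      simp only [List.cons.injEq] at h
      exact Prod.ext h.1 h.2

theorem qc_le_pow (p z : ℝ × ℝ) (n : ℕ) : qc p z n ≤ 4 ^ n := by
  rw [← words_ncard n]
  exact ncard_le_ncard (fun _ hw => hw.1) (words_finite n)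

/-- The bound from an arbitrary point. -/
theorem qc_le {p : ℝ × ℝ} (hp : InP p) (n : ℕ) : ∀ z : ℝ × ℝ, z ≠ 0 → qc p z n ≤ mu n := by
  induction n using Nat.strong_induction_on with
  | _ n ih =>
    intro z hz
    match n with
    | 0 => exact (qc_le_pow p z 0).trans (by norm_num [mu])
    | 1 => exact (qc_le_pow p z 1).trans (by norm_num [mu])
    | 2 => exact (qc_le_pow p z 2).trans (by norm_num [mu])
    | 3 => exact (qc_le_pow p z 3).trans (by norm_num [mu])
    | (n + 4) =>
      obtain ⟨u, v⟩ := z
      have p1 := hp.1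
      have p2 := hp.2.1
      have hsum := qc_le_sum p (u, v) (n + 3)
      have hs : ∀ s, (SCs p (u, v) (n + 4) s).ncard ≤ mu (n + 4) := by
        intro s
        refine (SCs_le p (u, v) (n + 3) s).trans ?_
        exact (ih (n + 3) (by omega) _ (lin_ne_zero s hz)).trans (mu_mono (by omega))
      simp only [Nat.add_assoc, Nat.reduceAdd] at hsum
      -- only one letter possible
      have hone : ∀ s : Lt, (∀ t, t ≠ s → ¬ CC p t (u, v)) → qc p (u, v) (n + 4) ≤ mu (n + 4) := by
        intro s hst
        have h0 : ∀ t, t ≠ s → (SCs p (u, v) (n + 4) t).ncard = 0 := fun t ht =>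
          SCs_empty p _ (n + 3) t (hst t ht)
        have h1 := hs s
        cases s
        · have e1 := h0 M (by decide)
          have e2 := h0 Q (by decide)
          have e3 := h0 D (by decide)
          omega
        · have e1 := h0 T (by decide)
          have e2 := h0 Q (by decide)
          have e3 := h0 D (by decide)
          omega
        · have e1 := h0 T (by decide)
          have e2 := h0 M (by decide)
          have e3 := h0 D (by decide)
          omega
        · have e1 := h0 T (by decide)
          have e2 := h0 M (by decide)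
          have e3 := h0 Q (by decide)
          omega
      rcases lt_trichotomy v 0 with hv | hv | hv
      · refine hone T fun t _ h => ?_
        cases t
        · exact absurd h.1 (not_le.2 hv)
        · exact absurd h.1 (not_le.2 hv)
        · exact absurd h.1 (not_le.2 hv)
        · exact absurd h.1 (not_le.2 hv)
      · subst hv
        have hu : u ≠ 0 := by
          intro h
          exact hz (by rw [h]; rfl)
        exact (qc_inf p u hu _).trans ((by norm_num : 1 ≤ 64).trans (mu_ge _))
      · have hav : p.1 * v ≤ 0 := mul_nonpos_of_nonpos_of_nonneg p1 hv.le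
        have hbv : 0 ≤ p.2 * v := mul_nonneg p2 hv.le
        rcases eq_or_ne u 0 with hu0 | hu0
        · subst hu0
          exact qc_zero' hp v hv n ih
        by_cases hua : u = p.1 * v
        · subst hua
          refine qc_a hp ?_ v hv n ih
          rcases p1.eq_or_lt with h | h
          · exact absurd (by rw [h, zero_mul]) hu0
          · exact h
        by_cases hub : u = p.2 * v
        · subst hub
          refine qc_b hp ?_ v hv n ih
          rcases p2.eq_or_lt with h | h
          · exact absurd (by rw [← h, zero_mul]) hu0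
          · exact h
        rcases lt_or_gt_of_ne hua with h1 | h1
        · refine hone T fun t ht h => ?_
          cases t
          · exact ht rfl
          · exact absurd h.2.1 (not_le.2 h1)
          · exact absurd h.2.1 (not_le.2 (h1.trans_le hav))
          · exact absurd h.2 (not_le.2 (h1.trans_le (hav.trans hbv)))
        · rcases lt_or_gt_of_ne hu0 with h2 | h2
          · refine hone M fun t ht h => ?_
            cases t
            · exact absurd h.2 (not_le.2 h1)
            · exact ht rfl
            · exact absurd h.2.1 (not_le.2 h2)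
            · exact absurd h.2 (not_le.2 (h2.trans_le hbv))
          · rcases lt_or_gt_of_ne hub with h3 | h3
            · refine hone Q fun t ht h => ?_
              cases t
              · exact absurd h.2 (not_le.2 h1)
              · exact absurd h.2.2 (not_le.2 h2)
              · exact ht rfl
              · exact absurd h.2 (not_le.2 h3)
            · refine hone D fun t ht h => ?_
              cases t
              · exact absurd h.2 (not_le.2 h1)
              · exact absurd h.2.2 (not_le.2 h2)
              · exact absurd h.2.2 (not_le.2 h3)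
              · exact ht rfl

end Pool.Agent.ABcf
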