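import Mathlib
import Pool.Agent.ABcf.Count

set_option autoImplicit false
set_option linter.unusedSectionVars false

/-!
Closed words decompose into a genuine word and a word starting at a critical point; this gives the
upper semicontinuity of the growth rate.
-/

namespace Pool.Agent.ABcf

open Set Lt Filter Topology

/-- The point with homogeneous coordinates `z` is adherent to `X` (in the two-point
compactification of the line). -/
def Adh (X : Set ℝ) (z : ℝ × ℝ) : Prop :=
  (0 < z.2 ∧ z.1 / z.2 ∈ closure X) ∨ (z.2 = 0 ∧ 0 < z.1 ∧ ¬ BddAbove X) ∨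
    (z.2 = 0 ∧ z.1 < 0 ∧ ¬ BddBelow X)

theorem Adh.nonempty {X : Set ℝ} {z : ℝ × ℝ} (h : Adh X z) : X.Nonempty := by
  rcases h with ⟨_, h⟩ | ⟨_, _, h⟩ | ⟨_, _, h⟩
  · exact closure_nonempty_iff.1 ⟨_, h⟩
  · by_contra h'
    rw [not_nonempty_iff_eq_empty] at h'
    exact h (h' ▸ bddAbove_empty)
  · by_contra h'
    rw [not_nonempty_iff_eq_empty] at h'
    exact h (h' ▸ bddBelow_empty)

theorem step_adh (p : ℝ × ℝ) (s : Lt) (X : Set ℝ) (x : ℝ) (hx : x ∈ lap p s)
    (hX : x ∈ closure X) : g s x ∈ closure (step p s X) := by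
  have h1 : x ∈ closure (lap p s ∩ X) := (lap_open p s).inter_closure ⟨hx, hX⟩
  have h2 : ContinuousWithinAt (g s) (lap p s ∩ X) x :=
    ((g_cont p s) x hx).mono inter_subset_left
  exact h2.mem_closure_image h1

theorem Adh.step {p : ℝ × ℝ} {s : Lt} {X : Set ℝ} {z : ℝ × ℝ} (h : Adh X z) (hc : CC p s z) :
    (∃ c v : ℝ, (c = p.1 ∨ c = 0 ∨ c = p.2) ∧ 0 < v ∧ z = (c * v, v)) ∨
      Adh (step p s X) (lin s z) := by
  obtain ⟨u, v⟩ := z
  rcases h with ⟨hv, hx⟩ | ⟨hv, hu, hX⟩ | ⟨hv, hu, hX⟩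
  · simp only [] at hv hx
    have hne := hv.ne'
    have huv : u = u / v * v := by field_simp
    set x := u / v with hxdef
    cases s
    · obtain ⟨-, h2⟩ := hc
      simp only [] at h2
      have h3 : x ≤ p.1 := by rw [hxdef, div_le_iff₀ hv]; exact h2
      rcases h3.eq_or_lt with h4 | h4
      · left
        exact ⟨p.1, v, Or.inl rfl, hv, by rw [← h4, ← huv]⟩
      · right; left
        refine ⟨hv, ?_⟩
        have := step_adh p T X x h4 hx
        have e : (lin T (u, v)).1 / (lin T (u, v)).2 = g T x := by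
          simp only [lin, g]
          rw [add_div, div_self hne]
        rw [e]; exact this
    · obtain ⟨-, h2, h2'⟩ := hc
      simp only [] at h2 h2'
      have h3 : p.1 ≤ x := by rw [hxdef, le_div_iff₀ hv]; exact h2
      have h3' : x ≤ 0 := by rw [hxdef]; exact div_nonpos_of_nonpos_of_nonneg h2' hv.le
      rcases h3.eq_or_lt with h4 | h4
      · left
        exact ⟨p.1, v, Or.inl rfl, hv, by rw [h4, ← huv]⟩
      rcases h3'.eq_or_lt with h5 | h5
      · left
        refine ⟨0, v, Or.inr (Or.inl rfl), hv, ?_⟩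
        rw [← h5, ← huv]
      · right; left
        have hu0 : u < 0 := by
          rw [huv]; exact mul_neg_of_neg_of_pos h5 hv
        refine ⟨by simp only [lin]; linarith, ?_⟩
        have := step_adh p M X x ⟨h4, h5⟩ hx
        have e : (lin M (u, v)).1 / (lin M (u, v)).2 = g M x := by
          simp only [lin, g, hxdef]
          rw [inv_div, div_neg]
        rw [e]; exact this
    · obtain ⟨-, h2, h2'⟩ := hc
      simp only [] at h2 h2'
      have h3 : x ≤ p.2 := by rw [hxdef, div_le_iff₀ hv]; exact h2'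
      have h3' : 0 ≤ x := by rw [hxdef]; exact div_nonneg h2 hv.le
      rcases h3.eq_or_lt with h4 | h4
      · left
        exact ⟨p.2, v, Or.inr (Or.inr rfl), hv, by rw [← h4, ← huv]⟩
      rcases h3'.eq_or_lt with h5 | h5
      · left
        refine ⟨0, v, Or.inr (Or.inl rfl), hv, ?_⟩
        rw [h5, ← huv]
      · right; left
        have hu0 : 0 < u := by
          rw [huv]; exact mul_pos h5 hv
        refine ⟨by simp only [lin]; linarith, ?_⟩
        have := step_adh p Q X x ⟨h5, h4⟩ hx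
        have e : (lin Q (u, v)).1 / (lin Q (u, v)).2 = g Q x := by
          simp only [lin, g, hxdef]
          rw [inv_div, neg_div]
        rw [e]; exact this
    · obtain ⟨-, h2⟩ := hc
      simp only [] at h2
      have h3 : p.2 ≤ x := by rw [hxdef, le_div_iff₀ hv]; exact h2
      rcases h3.eq_or_lt with h4 | h4
      · left
        exact ⟨p.2, v, Or.inr (Or.inr rfl), hv, by rw [h4, ← huv]⟩
      · right; left
        refine ⟨hv, ?_⟩
        have := step_adh p D X x h4 hx
        have e : (lin D (u, v)).1 / (lin D (u, v)).2 = g D x := by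
          simp only [lin, g]
          rw [sub_div, div_self hne]
        rw [e]; exact this
  · simp only [] at hv hu
    subst hv
    right
    cases s
    · exact absurd hc.2 (by simp only [mul_zero]; linarith)
    · exact absurd hc.2.2 (by simp only []; linarith)
    · exact absurd hc.2.2 (by simp only [mul_zero]; linarith)
    · right; left
      refine ⟨rfl, by simp only [lin, sub_zero]; exact hu, ?_⟩
      intro hB
      obtain ⟨B, hB⟩ := hB
      apply hX
      refine ⟨max (B + 1) p.2, fun x hx => ?_⟩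
      by_contra hlt
      push Not at hlt
      have h1 : p.2 < x := (le_max_right _ _).trans_lt hlt
      have h2 : B + 1 < x := (le_max_left _ _).trans_lt hlt
      have h3 : x - 1 ∈ ABcf.step p D X := ⟨x, ⟨h1, hx⟩, rfl⟩
      have := hB h3
      linarith
  · simp only [] at hv hu
    subst hv
    right
    cases s
    · right; right
      refine ⟨rfl, by simp only [lin, add_zero]; exact hu, ?_⟩
      intro hB
      obtain ⟨B, hB⟩ := hB
      apply hX
      refine ⟨min (B - 1) p.1, fun x hx => ?_⟩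
      by_contra hlt
      push Not at hlt
      have h1 : x < p.1 := hlt.trans_le (min_le_right _ _)
      have h2 : x < B - 1 := hlt.trans_le (min_le_left _ _)
      have h3 : x + 1 ∈ ABcf.step p T X := ⟨x, ⟨h1, hx⟩, rfl⟩
      have := hB h3
      linarith
    · exact absurd hc.2.1 (by simp only [mul_zero]; linarith)
    · exact absurd hc.2.1 (by simp only []; linarith)
    · exact absurd hc.2 (by simp only [mul_zero]; linarith)

theorem decomp (p : ℝ × ℝ) (w : List Lt) : ∀ (X : Set ℝ) (z : ℝ × ℝ), Adh X z → CL p w z →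
    (img p w X).Nonempty ∨ ∃ (w₁ w₂ : List Lt) (c v : ℝ), w = w₁ ++ w₂ ∧
      (img p w₁ X).Nonempty ∧ (c = p.1 ∨ c = 0 ∨ c = p.2) ∧ 0 < v ∧ CL p w₂ (c * v, v) ∧
      w₂ ≠ [] := by
  induction w with
  | nil =>
    intro X z h _
    exact Or.inl h.nonempty
  | cons s w ih =>
    intro X z h hcl
    rcases h.step hcl.1 with ⟨c, v, hc, hv, hz⟩ | h1
    · right
      refine ⟨[], s :: w, c, v, rfl, h.nonempty, hc, hv, ?_, by simp⟩
      rw [← hz]; exact hcl
    · rcases ih _ _ h1 hcl.2 with h2 | ⟨w₁, w₂, c, v, rfl, h3, hc, hv, h4, h5⟩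
      · exact Or.inl h2
      · exact Or.inr ⟨s :: w₁, w₂, c, v, rfl, h3, hc, hv, h4, h5⟩

theorem adh_univ {z : ℝ × ℝ} (hz : z ≠ 0) (hv : 0 ≤ z.2) : Adh univ z := by
  rcases hv.eq_or_lt with h | h
  · have hu : z.1 ≠ 0 := by
      intro h'
      exact hz (Prod.ext h' h.symm)
    rcases lt_or_gt_of_ne hu with h1 | h1
    · exact Or.inr (Or.inr ⟨h.symm, h1, not_bddBelow_univ⟩)
    · exact Or.inr (Or.inl ⟨h.symm, h1, not_bddAbove_univ⟩)
  · exact Or.inl ⟨h, by simp⟩

theorem WC_count {p : ℝ × ℝ} (hp : InP p) (n : ℕ) : (WC p n).ncard ≤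
    NX p univ n + ∑ j ∈ Finset.range n, NX p univ j * (3 * mu (n - j)) := by
  set S : ℕ → Set (List Lt) := fun i => SC p (p.1, 1) i ∪ SC p (0, 1) i ∪ SC p (p.2, 1) i with hS
  have hSfin : ∀ i, (S i).Finite := fun i =>
    ((SC_finite p _ i).union (SC_finite p _ i)).union (SC_finite p _ i)
  have hScard : ∀ i, (S i).ncard ≤ 3 * mu i := by
    intro i
    have hne : ∀ c : ℝ, ((c, 1) : ℝ × ℝ) ≠ 0 := by
      intro c h0
      have := congrArg Prod.snd h0
      simp at this
    have e1 := qc_le hp i (p.1, 1) (hne _)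
    have e2 := qc_le hp i (0, 1) (hne _)
    have e3 := qc_le hp i (p.2, 1) (hne _)
    have e4 := ncard_union_le (SC p (p.1, 1) i ∪ SC p (0, 1) i) (SC p (p.2, 1) i)
    have e5 := ncard_union_le (SC p (p.1, 1) i) (SC p (0, 1) i)
    unfold qc at e1 e2 e3
    change (SC p (p.1, 1) i ∪ SC p (0, 1) i ∪ SC p (p.2, 1) i).ncard ≤ _
    omega
  have hsub : WC p n ⊆ WX p univ n ∪ ⋃ j ∈ Finset.range n,
      (fun q : List Lt × List Lt => q.1 ++ q.2) '' (WX p univ j ×ˢ S (n - j)) := by
    rintro w ⟨h1, h2, z, hz, h3⟩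
    by_cases hn : w = []
    · left
      refine ⟨h1, ?_⟩
      rw [hn, img_nil]; exact univ_nonempty
    have hv : 0 ≤ z.2 := by
      cases w with
      | nil => exact absurd rfl hn
      | cons s w =>
        have := h3.1
        cases s
        · exact this.1
        · exact this.1
        · exact this.1
        · exact this.1
    rcases decomp p w univ z (adh_univ hz hv) h3 with h4 | ⟨w₁, w₂, c, v, rfl, h5, hc, hv', h6, h7⟩
    · exact Or.inl ⟨h1, h4⟩
    · right
      rw [List.length_append] at h1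
      have hpos : 0 < w₂.length := List.length_pos_of_ne_nil h7
      refine mem_biUnion (x := w₁.length) (by simp; omega) ?_
      refine ⟨(w₁, w₂), ⟨⟨rfl, h5⟩, ?_⟩, rfl⟩
      have h8 : CL p w₂ (c, 1) := by
        have := CL_smul p w₂ v⁻¹ (inv_pos.2 hv') _ h6
        have e : v⁻¹ • ((c * v, v) : ℝ × ℝ) = (c, 1) := by
          ext
          · simp only [Prod.smul_fst, smul_eq_mul]; field_simp
          · simp only [Prod.smul_snd, smul_eq_mul]; field_simp
        rwa [e] at this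
      have h9 : w₂.length = n - w₁.length := by omega
      have h10 := legal_append_right w₁ w₂ h2
      rcases hc with rfl | rfl | rfl
      · exact Or.inl (Or.inl ⟨h9, h10, h8⟩)
      · exact Or.inl (Or.inr ⟨h9, h10, h8⟩)
      · exact Or.inr ⟨h9, h10, h8⟩
  have hfin : ∀ j, ((fun q : List Lt × List Lt => q.1 ++ q.2) ''
      (WX p univ j ×ˢ S (n - j))).Finite := fun j =>
    ((WX_finite p univ j).prod (hSfin _)).image _
  have hfin2 : (⋃ j ∈ Finset.range n,
      (fun q : List Lt × List Lt => q.1 ++ q.2) '' (WX p univ j ×ˢ S (n - j))).Finite := by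
    refine Set.Finite.biUnion (Finset.finite_toSet _) fun j _ => hfin j
  refine (ncard_le_ncard hsub ((WX_finite p univ n).union hfin2)).trans ?_
  refine (ncard_union_le _ _).trans (add_le_add le_rfl ?_)
  refine (Finset.set_ncard_biUnion_le _ _).trans ?_
  refine Finset.sum_le_sum fun j _ => ?_
  refine (ncard_image_le ((WX_finite p univ j).prod (hSfin _))).trans ?_
  rw [ncard_prod]
  exact Nat.mul_le_mul_left _ (hScard _)

/-! ### The growth rate of the number of words -/

theorem NX_pos (p : ℝ × ℝ) (n : ℕ) : 1 ≤ NX p univ n := by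
  have h : ∀ n : ℕ, ∀ c : ℝ, ∃ c' : ℝ, Iio c' ⊆ img p (List.replicate n T) (Iio c) := by
    intro n
    induction n with
    | zero => intro c; exact ⟨c, Subset.refl _⟩
    | succ n ih =>
      intro c
      obtain ⟨c', hc'⟩ := ih (min p.1 c + 1)
      refine ⟨c', ?_⟩
      rw [List.replicate_succ, img_cons]
      refine hc'.trans (img_mono p _ ?_)
      intro y hy
      have hy' : y < min p.1 c + 1 := hy
      rw [mem_stepT]
      have h1 := min_le_left p.1 c
      have h2 := min_le_right p.1 c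
      exact ⟨by linarith, show y - 1 < c by linarith⟩
  obtain ⟨c', hc'⟩ := h n 0
  have h1 : List.replicate n T ∈ WX p univ n := by
    refine ⟨List.length_replicate, c' - 1, ?_⟩
    exact img_mono p _ (subset_univ _) (hc' (show c' - 1 < c' by linarith))
  exact Nat.one_le_iff_ne_zero.2 (ncard_ne_zero_of_mem h1 (WX_finite p univ n))

theorem NX_le_pow (p : ℝ × ℝ) (X : Set ℝ) (n : ℕ) : NX p X n ≤ 4 ^ n := by
  rw [← words_ncard n]
  exact ncard_le_ncard (fun _ hw => hw.1) (words_finite n)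

theorem subadd (p : ℝ × ℝ) : Subadditive fun n => Real.log (NX p univ n) := by
  intro m n
  have h1 : (1 : ℝ) ≤ NX p univ m := by exact_mod_cast NX_pos p m
  have h2 : (1 : ℝ) ≤ NX p univ n := by exact_mod_cast NX_pos p n
  have h3 : (1 : ℝ) ≤ NX p univ (m + n) := by exact_mod_cast NX_pos p (m + n)
  rw [← Real.log_mul (by linarith) (by linarith)]
  refine Real.log_le_log (by linarith) ?_
  exact_mod_cast NX_submul p m n

/-- the exponential growth rate of the number of words -/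
noncomputable def ent (p : ℝ × ℝ) : ℝ := (subadd p).lim

theorem ent_bdd (p : ℝ × ℝ) : BddBelow (range fun n : ℕ => Real.log (NX p univ n) / n) := by
  refine ⟨0, ?_⟩
  rintro _ ⟨n, rfl⟩
  have h1 : (1 : ℝ) ≤ NX p univ n := by exact_mod_cast NX_pos p n
  have := Real.log_nonneg h1
  positivity

theorem ent_tendsto (p : ℝ × ℝ) :
    Tendsto (fun n : ℕ => Real.log (NX p univ n) / n) atTop (𝓝 (ent p)) :=
  (subadd p).tendsto_lim (ent_bdd p)

theorem ent_le (p : ℝ × ℝ) (n : ℕ) (hn : n ≠ 0) : ent p ≤ Real.log (NX p univ n) / n :=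
  (subadd p).lim_le_div (ent_bdd p) hn

theorem pow_le_NX (p : ℝ × ℝ) (n : ℕ) : Real.exp (ent p) ^ n ≤ NX p univ n := by
  rcases Nat.eq_zero_or_pos n with rfl | hn
  · rw [pow_zero]; exact_mod_cast NX_pos p 0
  have h1 := ent_le p n hn.ne'
  have hn' : (0 : ℝ) < n := by exact_mod_cast hn
  rw [le_div_iff₀ hn'] at h1
  have h2 : (0 : ℝ) < NX p univ n := by exact_mod_cast NX_pos p n
  calc Real.exp (ent p) ^ n = Real.exp (ent p * n) := by
        rw [mul_comm, Real.exp_nat_mul]
    _ ≤ Real.exp (Real.log (NX p univ n)) := Real.exp_le_exp.2 h1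
    _ = _ := Real.exp_log h2

theorem NX_le_of_gt (p : ℝ × ℝ) (ρ : ℝ) (hρ : Real.exp (ent p) < ρ) :
    ∃ C : ℝ, 0 < C ∧ ∀ n, (NX p univ n : ℝ) ≤ C * ρ ^ n := by
  have hρ0 : 0 < ρ := (Real.exp_pos _).trans hρ
  have h1 : ent p < Real.log ρ := by
    rw [Real.lt_log_iff_exp_lt hρ0]; exact hρ
  have h2 := (ent_tendsto p).eventually_lt_const h1
  obtain ⟨N, hN⟩ := eventually_atTop.1 h2
  set N' := max N 1 with hN'
  have h3 : ∀ n ≥ N', (NX p univ n : ℝ) ≤ ρ ^ n := by
    intro n hn
    have hn1 : 1 ≤ n := (le_max_right _ _).trans hn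
    have hn' : (0 : ℝ) < n := by exact_mod_cast hn1
    have h4 := (hN n ((le_max_left _ _).trans hn)).le
    rw [div_le_iff₀ hn'] at h4
    have h5 : (0 : ℝ) < NX p univ n := by exact_mod_cast NX_pos p n
    calc (NX p univ n : ℝ) = Real.exp (Real.log (NX p univ n)) := (Real.exp_log h5).symm
      _ ≤ Real.exp (Real.log ρ * n) := Real.exp_le_exp.2 h4
      _ = ρ ^ n := by
          rw [mul_comm, Real.exp_nat_mul, Real.exp_log hρ0]
  refine ⟨1 + ∑ n ∈ Finset.range N', (NX p univ n : ℝ) / ρ ^ n, by positivity, fun n => ?_⟩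
  rcases Nat.lt_or_ge n N' with hn | hn
  · have h4 : (NX p univ n : ℝ) / ρ ^ n ≤ ∑ n ∈ Finset.range N', (NX p univ n : ℝ) / ρ ^ n :=
      Finset.single_le_sum (f := fun n => (NX p univ n : ℝ) / ρ ^ n)
        (fun i _ => by positivity) (Finset.mem_range.2 hn)
    have h5 : (0 : ℝ) < ρ ^ n := by positivity
    calc (NX p univ n : ℝ) = (NX p univ n : ℝ) / ρ ^ n * ρ ^ n := by field_simp
      _ ≤ (1 + ∑ n ∈ Finset.range N', (NX p univ n : ℝ) / ρ ^ n) * ρ ^ n :=
          mul_le_mul_of_nonneg_right (by linarith) h5.le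
  · refine (h3 n hn).trans ?_
    have h4 : (0 : ℝ) ≤ ∑ n ∈ Finset.range N', (NX p univ n : ℝ) / ρ ^ n := by positivity
    have h5 : (0 : ℝ) < ρ ^ n := by positivity
    nlinarith

theorem ent_lower {p : ℝ × ℝ} (hp : InP p) : (13 / 10 : ℝ) ≤ Real.exp (ent p) := by
  by_contra hlt
  push Not at hlt
  -- choose an intermediate rate
  set ρ := (Real.exp (ent p) + 13 / 10) / 2 with hρ
  have h1 : Real.exp (ent p) < ρ := by rw [hρ]; linarith
  have h2 : ρ < 13 / 10 := by rw [hρ]; linarith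
  have hρ0 : 0 < ρ := (Real.exp_pos _).trans h1
  obtain ⟨C, hC, hN⟩ := NX_le_of_gt p ρ h1
  have h3 : ∀ n : ℕ, ((13 / 10 : ℝ) / ρ) ^ n ≤ C * (13 / 10 : ℝ) ^ 5 := by
    intro n
    have e1 := (universal hp n).trans (hN n)
    rw [inv_mul_le_iff₀ (by positivity)] at e1
    rw [div_pow, div_le_iff₀ (by positivity)]
    linarith
  have h4 : 1 < (13 / 10 : ℝ) / ρ := by rw [lt_div_iff₀ hρ0]; linarith
  obtain ⟨n, hn⟩ := pow_unbounded_of_one_lt (C * (13 / 10 : ℝ) ^ 5) h4
  exact absurd (h3 n) (not_le.2 hn)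

/-- Upper semicontinuity. -/
theorem ent_usc {p₀ : ℝ × ℝ} (hp₀ : InP p₀) (ρ : ℝ) (hρ : Real.exp (ent p₀) < ρ) :
    ∀ᶠ p in 𝓝 p₀, InP p → Real.exp (ent p) < ρ := by
  set ρ₁ := (Real.exp (ent p₀) + ρ) / 2 with hρ₁
  have h1 : Real.exp (ent p₀) < ρ₁ := by rw [hρ₁]; linarith
  have h2 : ρ₁ < ρ := by rw [hρ₁]; linarith
  have hρ₁0 : 0 < ρ₁ := (Real.exp_pos _).trans h1
  have h13 : (13 / 10 : ℝ) ≤ ρ₁ := (ent_lower hp₀).trans h1.le
  obtain ⟨C, hC, hN⟩ := NX_le_of_gt p₀ ρ₁ h1
  -- bound on the number of closed words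
  have hW : ∀ n, ((WC p₀ n).ncard : ℝ) ≤ C * (1 + 192 * n) * ρ₁ ^ n := by
    intro n
    have e1 : ((WC p₀ n).ncard : ℝ) ≤
        NX p₀ univ n + ∑ j ∈ Finset.range n, (NX p₀ univ j : ℝ) * (3 * mu (n - j)) := by
      exact_mod_cast WC_count hp₀ n
    have e2 : ∑ j ∈ Finset.range n, (NX p₀ univ j : ℝ) * (3 * mu (n - j)) ≤
        ∑ _j ∈ Finset.range n, C * 192 * ρ₁ ^ n := by
      refine Finset.sum_le_sum fun j hj => ?_
      have hj' := Finset.mem_range.1 hj
      have e3 := hN j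
      have e4 : (mu (n - j) : ℝ) ≤ 64 * ρ₁ ^ (n - j) :=
        (mu_growth (n - j)).trans (mul_le_mul_of_nonneg_left
          (pow_le_pow_left₀ (by norm_num) h13 _) (by norm_num))
      have e5 : ρ₁ ^ n = ρ₁ ^ j * ρ₁ ^ (n - j) := by
        rw [← pow_add]; congr 1; omega
      calc (NX p₀ univ j : ℝ) * (3 * mu (n - j)) ≤
          (C * ρ₁ ^ j) * (3 * (64 * ρ₁ ^ (n - j))) := by
            refine mul_le_mul e3 (mul_le_mul_of_nonneg_left e4 (by norm_num)) (by positivity)
              (by positivity)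
        _ = C * 192 * ρ₁ ^ n := by rw [e5]; ring
    rw [Finset.sum_const, Finset.card_range, nsmul_eq_mul] at e2
    have e6 := hN n
    linarith
  -- choose `n`
  obtain ⟨n, hn0, hn⟩ : ∃ n : ℕ, n ≠ 0 ∧ C * (1 + 192 * n) * ρ₁ ^ n < ρ ^ n := by
    have hρ0 : 0 < ρ := by linarith
    have hq : |ρ₁ / ρ| < 1 := by
      rw [abs_of_pos (div_pos hρ₁0 hρ0), div_lt_one hρ0]
      exact h2
    have hq' : ‖ρ₁ / ρ‖ < 1 := hq
    have t1 : Tendsto (fun n : ℕ => (n : ℝ) ^ 1 * (ρ₁ / ρ) ^ n) atTop (𝓝 0) :=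
      tendsto_pow_const_mul_const_pow_of_abs_lt_one 1 hq
    have t2 : Tendsto (fun n : ℕ => (ρ₁ / ρ) ^ n) atTop (𝓝 0) :=
      tendsto_pow_atTop_nhds_zero_of_abs_lt_one hq
    have t3 : Tendsto (fun n : ℕ => C * ((ρ₁ / ρ) ^ n + 192 * ((n : ℝ) ^ 1 * (ρ₁ / ρ) ^ n)))
        atTop (𝓝 (C * (0 + 192 * 0))) := (t2.add (t1.const_mul 192)).const_mul C
    have t4 := t3.eventually_lt_const (u := 1) (by simp)
    obtain ⟨n, h3, h4⟩ := (t4.and (eventually_ge_atTop 1)).exists
    refine ⟨n, by omega, ?_⟩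
    have hρn : (0 : ℝ) < ρ ^ n := by
      have : 0 < ρ := by linarith
      positivity
    rw [pow_one, div_pow] at h3
    have h5 : C * (1 + 192 * n) * ρ₁ ^ n =
        (C * (ρ₁ ^ n / ρ ^ n + 192 * (n * (ρ₁ ^ n / ρ ^ n)))) * ρ ^ n := by
      field_simp
    rw [h5]
    nlinarith
  filter_upwards [WC_usc p₀ n] with p hp hInP
  have h3 : NX p univ n ≤ (WC p₀ n).ncard :=
    ncard_le_ncard ((WX_sub_WC hInP n).trans hp) (WC_finite p₀ n)
  have h4 : Real.exp (ent p) ^ n < ρ ^ n := by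
    calc Real.exp (ent p) ^ n ≤ NX p univ n := pow_le_NX p n
      _ ≤ ((WC p₀ n).ncard : ℝ) := by exact_mod_cast h3
      _ ≤ C * (1 + 192 * n) * ρ₁ ^ n := hW n
      _ < ρ ^ n := hn
  exact lt_of_pow_lt_pow_left₀ n (by linarith) h4

end Pool.Agent.ABcf
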