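import Mathlib
import Pool.Agent.ABcf.Usc

set_option autoImplicit false
set_option linter.unusedSectionVars false

/-!
Many words have a large image.
-/

namespace Pool.Agent.ABcf

open Set Lt Filter Topology

theorem lap_disj {p : ℝ × ℝ} (h1 : p.1 ≤ 0) (h2 : 0 ≤ p.2) {s t : Lt} {x : ℝ}
    (hs : x ∈ lap p s) (ht : x ∈ lap p t) : s = t := by
  cases s <;> cases t <;> simp only [lap, mem_Iio, mem_Ioo, mem_Ioi] at hs ht <;>
    first | rfl | (exfalso; linarith)

theorem cyl_disj {p : ℝ × ℝ} (h1 : p.1 ≤ 0) (h2 : 0 ≤ p.2) {w v : List Lt} {x : ℝ}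
    (hl : w.length = v.length) (hw : x ∈ cyl p w) (hv : x ∈ cyl p v) : w = v := by
  induction w generalizing v x with
  | nil =>
    cases v with
    | nil => rfl
    | cons t v => simp at hl
  | cons s w ih =>
    cases v with
    | nil => simp at hl
    | cons t v =>
      have h3 := lap_disj h1 h2 hw.1 hv.1
      subst h3
      rw [ih (by simpa using hl) hw.2 hv.2]

/-- words whose image contains a critical point -/
def BX (p : ℝ × ℝ) (X : Set ℝ) (n : ℕ) : Set (List Lt) :=
  {w | w ∈ WX p X n ∧ ∃ c, (c = p.1 ∨ c = 0 ∨ c = p.2) ∧ c ∈ img p w X}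

theorem BX_finite (p : ℝ × ℝ) (X : Set ℝ) (n : ℕ) : (BX p X n).Finite :=
  (WX_finite p X n).subset fun _ hw => hw.1

/-- words whose image contains a one-sided neighbourhood of size `δ` of a critical point -/
def GX (p : ℝ × ℝ) (X : Set ℝ) (δ : ℝ) (n : ℕ) : Set (List Lt) :=
  {w | w ∈ WX p X n ∧ ∃ c, (c = p.1 ∨ c = 0 ∨ c = p.2) ∧
    (Ioo (c - δ) c ⊆ img p w X ∨ Ioo c (c + δ) ⊆ img p w X)}

theorem GX_finite (p : ℝ × ℝ) (X : Set ℝ) (δ : ℝ) (n : ℕ) : (GX p X δ n).Finite :=
  (WX_finite p X n).subset fun _ hw => hw.1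

/-- words which can be extended by `s` -/
def EX (p : ℝ × ℝ) (X : Set ℝ) (n : ℕ) (s : Lt) : Set (List Lt) :=
  {w | w ∈ WX p X n ∧ (step p s (img p w X)).Nonempty}

theorem EX_finite (p : ℝ × ℝ) (X : Set ℝ) (n : ℕ) (s : Lt) : (EX p X n s).Finite :=
  (WX_finite p X n).subset fun _ hw => hw.1

theorem crit_between {p : ℝ × ℝ} (h1 : p.1 ≤ 0) (h2 : 0 ≤ p.2) {s t : Lt} (hst : s ≠ t) {x y : ℝ}
    (hs : x ∈ lap p s) (ht : y ∈ lap p t) :
    ∃ c, (c = p.1 ∨ c = 0 ∨ c = p.2) ∧ ((x < c ∧ c < y) ∨ (y < c ∧ c < x)) := by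
  cases s <;> cases t <;> simp only [lap, mem_Iio, mem_Ioo, mem_Ioi] at hs ht
  · exact absurd rfl hst
  · exact ⟨p.1, Or.inl rfl, Or.inl ⟨hs, ht.1⟩⟩
  · exact ⟨p.1, Or.inl rfl, Or.inl ⟨hs, by linarith [ht.1]⟩⟩
  · exact ⟨p.1, Or.inl rfl, Or.inl ⟨hs, by linarith⟩⟩
  · exact ⟨p.1, Or.inl rfl, Or.inr ⟨ht, hs.1⟩⟩
  · exact absurd rfl hst
  · exact ⟨0, Or.inr (Or.inl rfl), Or.inl ⟨hs.2, ht.1⟩⟩
  · exact ⟨0, Or.inr (Or.inl rfl), Or.inl ⟨hs.2, by linarith⟩⟩
  · exact ⟨p.1, Or.inl rfl, Or.inr ⟨ht, by linarith [hs.1]⟩⟩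
  · exact ⟨0, Or.inr (Or.inl rfl), Or.inr ⟨ht.2, hs.1⟩⟩
  · exact absurd rfl hst
  · exact ⟨p.2, Or.inr (Or.inr rfl), Or.inl ⟨hs.2, ht⟩⟩
  · exact ⟨p.1, Or.inl rfl, Or.inr ⟨ht, by linarith⟩⟩
  · exact ⟨0, Or.inr (Or.inl rfl), Or.inr ⟨ht.2, by linarith⟩⟩
  · exact ⟨p.2, Or.inr (Or.inr rfl), Or.inr ⟨ht.2, hs⟩⟩
  · exact absurd rfl hst

theorem branch {p : ℝ × ℝ} (h1 : p.1 ≤ 0) (h2 : 0 ≤ p.2) {X : Set ℝ} (hX : OrdConnected X)
    (n : ℕ) : NX p X (n + 1) ≤ NX p X n + 3 * (BX p X n).ncard := by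
  have hsub : WX p X (n + 1) ⊆ ((fun w => w ++ [T]) '' EX p X n T ∪
      (fun w => w ++ [M]) '' EX p X n M) ∪ (fun w => w ++ [Q]) '' EX p X n Q ∪
      (fun w => w ++ [D]) '' EX p X n D := by
    rintro w ⟨hl, hne⟩
    obtain ⟨w', s, rfl⟩ : ∃ w' s, w = w' ++ [s] := by
      rcases List.eq_nil_or_concat w with h | ⟨w', s, h⟩
      · rw [h] at hl; simp at hl
      · exact ⟨w', s, by simpa using h⟩
    rw [img_append, img_cons, img_nil] at hne
    have hl' : w'.length = n := by simpa using hl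
    have hne' : (img p w' X).Nonempty := by
      obtain ⟨y, x, hx, _⟩ := hne
      exact ⟨x, hx.2⟩
    have hE : w' ∈ EX p X n s := ⟨⟨hl', hne'⟩, hne⟩
    cases s
    · exact Or.inl (Or.inl (Or.inl ⟨w', hE, rfl⟩))
    · exact Or.inl (Or.inl (Or.inr ⟨w', hE, rfl⟩))
    · exact Or.inl (Or.inr ⟨w', hE, rfl⟩)
    · exact Or.inr ⟨w', hE, rfl⟩
  have hf : ∀ s : Lt, ((fun w => w ++ [s]) '' EX p X n s).Finite := fun s =>
    (EX_finite p X n s).image _
  have hc : ∀ s : Lt, ((fun w => w ++ [s]) '' EX p X n s).ncard ≤ (EX p X n s).ncard :=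
    fun s => ncard_image_le (EX_finite p X n s)
  have e1 : NX p X (n + 1) ≤ (EX p X n T).ncard + (EX p X n M).ncard + (EX p X n Q).ncard +
      (EX p X n D).ncard := by
    refine (ncard_le_ncard hsub ((((hf T).union (hf M)).union (hf Q)).union (hf D))).trans ?_
    refine (ncard_union_le _ _).trans (add_le_add ?_ (hc D))
    refine (ncard_union_le _ _).trans (add_le_add ?_ (hc Q))
    exact (ncard_union_le _ _).trans (add_le_add (hc T) (hc M))
  -- outside `BX` at most one extension is possible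
  have hdisj : ∀ s t : Lt, s ≠ t → Disjoint (EX p X n s \ BX p X n) (EX p X n t \ BX p X n) := by
    intro s t hst
    rw [Set.disjoint_left]
    rintro w ⟨⟨hw1, hs⟩, hw2⟩ ⟨⟨_, ht⟩, _⟩
    obtain ⟨_, x, ⟨hx1, hx2⟩, _⟩ := hs
    obtain ⟨_, y, ⟨hy1, hy2⟩, _⟩ := ht
    obtain ⟨c, hc, hc'⟩ := crit_between h1 h2 hst hx1 hy1
    apply hw2
    refine ⟨hw1, c, hc, ?_⟩
    have hord := img_ord p w hX
    rcases hc' with h | h
    · exact hord.out hx2 hy2 ⟨h.1.le, h.2.le⟩
    · exact hord.out hy2 hx2 ⟨h.1.le, h.2.le⟩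
  have hEs : ∀ s, (EX p X n s).ncard ≤ (BX p X n).ncard + (EX p X n s \ BX p X n).ncard := by
    intro s
    have h3 : EX p X n s ⊆ BX p X n ∪ (EX p X n s \ BX p X n) := by
      intro w hw
      by_cases hB : w ∈ BX p X n
      · exact Or.inl hB
      · exact Or.inr ⟨hw, hB⟩
    exact (ncard_le_ncard h3 ((BX_finite p X n).union ((EX_finite p X n s).sdiff))).trans
      (ncard_union_le _ _)
  have hfd : ∀ s, (EX p X n s \ BX p X n).Finite := fun s => (EX_finite p X n s).sdiff
  have hunion : (EX p X n T \ BX p X n).ncard + (EX p X n M \ BX p X n).ncard +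
      (EX p X n Q \ BX p X n).ncard + (EX p X n D \ BX p X n).ncard + (BX p X n).ncard ≤
      NX p X n := by
    have e2 := ncard_union_eq (hdisj T M (by decide)) (hfd T) (hfd M)
    have d3 : Disjoint ((EX p X n T \ BX p X n) ∪ (EX p X n M \ BX p X n))
        (EX p X n Q \ BX p X n) :=
      (hdisj T Q (by decide)).union_left (hdisj M Q (by decide))
    have e3 := ncard_union_eq d3 ((hfd T).union (hfd M)) (hfd Q)
    have d4 : Disjoint ((EX p X n T \ BX p X n) ∪ (EX p X n M \ BX p X n) ∪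
        (EX p X n Q \ BX p X n)) (EX p X n D \ BX p X n) :=
      ((hdisj T D (by decide)).union_left (hdisj M D (by decide))).union_left
        (hdisj Q D (by decide))
    have e4 := ncard_union_eq d4 (((hfd T).union (hfd M)).union (hfd Q)) (hfd D)
    have d5 : Disjoint ((EX p X n T \ BX p X n) ∪ (EX p X n M \ BX p X n) ∪
        (EX p X n Q \ BX p X n) ∪ (EX p X n D \ BX p X n)) (BX p X n) := by
      rw [Set.disjoint_left]
      rintro w (((hw | hw) | hw) | hw) hB
      · exact hw.2 hB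
      · exact hw.2 hB
      · exact hw.2 hB
      · exact hw.2 hB
    have e5 := ncard_union_eq d5 ((((hfd T).union (hfd M)).union (hfd Q)).union (hfd D))
      (BX_finite p X n)
    have h4 : ((EX p X n T \ BX p X n) ∪ (EX p X n M \ BX p X n) ∪
        (EX p X n Q \ BX p X n) ∪ (EX p X n D \ BX p X n)) ∪ (BX p X n) ⊆ WX p X n := by
      rintro w ((((hw | hw) | hw) | hw) | hw)
      · exact hw.1.1
      · exact hw.1.1
      · exact hw.1.1
      · exact hw.1.1
      · exact hw.1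
    have h5 := ncard_le_ncard h4 (WX_finite p X n)
    unfold NX
    omega
  have t1 := hEs T
  have t2 := hEs M
  have t3 := hEs Q
  have t4 := hEs D
  omega

/-- uniform size of the images of words of length `k` -/
theorem exists_margin (p : ℝ × ℝ) (k : ℕ) : ∃ δ > 0, ∀ v ∈ words k, ∀ c,
    (c = p.1 ∨ c = 0 ∨ c = p.2) → c ∈ img p v univ → Ioo (c - δ) (c + δ) ⊆ img p v univ := by
  have h1 : ∀ v ∈ words k, ∀ᶠ δ in 𝓝[>] (0 : ℝ), ∀ c,
      (c = p.1 ∨ c = 0 ∨ c = p.2) → c ∈ img p v univ → Ioo (c - δ) (c + δ) ⊆ img p v univ := by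
    intro v _
    have h2 : ∀ c : ℝ, ∀ᶠ δ in 𝓝[>] (0 : ℝ), c ∈ img p v univ →
        Ioo (c - δ) (c + δ) ⊆ img p v univ := by
      intro c
      by_cases hc : c ∈ img p v univ
      · obtain ⟨ε, hε, h3⟩ := Metric.isOpen_iff.1 (img_open p v isOpen_univ) c hc
        have h4 : ∀ᶠ δ in 𝓝[>] (0 : ℝ), δ < ε :=
          (eventually_lt_nhds hε).filter_mono nhdsWithin_le_nhds
        filter_upwards [h4] with δ hδ _ x hx
        apply h3
        rw [Metric.mem_ball, Real.dist_eq, abs_lt]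
        constructor <;> linarith [hx.1, hx.2]
      · exact Filter.Eventually.of_forall fun δ h => absurd h hc
    filter_upwards [h2 p.1, h2 0, h2 p.2] with δ e1 e2 e3 c hc
    rcases hc with rfl | rfl | rfl
    · exact e1
    · exact e2
    · exact e3
  have h2 := (words_finite k).eventually_all.2 h1
  obtain ⟨δ, h3, h4⟩ := (h2.and self_mem_nhdsWithin).exists
  exact ⟨δ, h4, h3⟩

/-- Recursive inequality. -/
theorem recursion {p : ℝ × ℝ} (h1 : p.1 ≤ 0) (h2 : 0 ≤ p.2) (k : ℕ) :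
    ∃ δ > 0, ∀ X : Set ℝ, OrdConnected X → ∀ n : ℕ,
      NX p X (n + k + 1) ≤ NX p X (n + k) + 3 * (GX p X δ (n + k)).ncard + 3 * NX p X n := by
  obtain ⟨δ, hδ, hm⟩ := exists_margin p k
  refine ⟨δ, hδ, fun X hX n => ?_⟩
  have e1 := branch h1 h2 hX (n + k)
  have e2 : (BX p X (n + k)).ncard ≤ (GX p X δ (n + k)).ncard + NX p X n := by
    have h3 : BX p X (n + k) ⊆ GX p X δ (n + k) ∪ (BX p X (n + k) \ GX p X δ (n + k)) := by
      intro w hw
      by_cases hB : w ∈ GX p X δ (n + k)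
      · exact Or.inl hB
      · exact Or.inr ⟨hw, hB⟩
    refine (ncard_le_ncard h3 ((GX_finite p X δ _).union ((BX_finite p X _).sdiff))).trans ?_
    refine (ncard_union_le _ _).trans (add_le_add le_rfl ?_)
    -- the words in the difference are determined by their beginning
    have key : ∀ w ∈ BX p X (n + k) \ GX p X δ (n + k),
        img p (w.take n) X ⊆ cyl p (w.drop n) := by
      rintro w ⟨⟨⟨hl, hne⟩, c, hc, hcw⟩, hG⟩ z hz
      by_contra hzc
      set v := w.drop n with hv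
      have hvl : v ∈ words k := by
        change (w.drop n).length = k
        rw [List.length_drop, hl]; omega
      have hw : w = w.take n ++ v := (List.take_append_drop n w).symm
      have himg : img p w X = img p v (img p (w.take n) X) := by
        conv_lhs => rw [hw]
        rw [img_append]
      set K := img p (w.take n) X with hK
      have hKord : OrdConnected K := img_ord p _ hX
      rw [himg, img_eq] at hcw
      obtain ⟨x, ⟨hx1, hx2⟩, hx3⟩ := hcw
      have hcv : c ∈ img p v univ := by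
        rw [img_eq]; exact ⟨x, ⟨hx1, mem_univ _⟩, hx3⟩
      have hmar := hm v hvl c hc hcv
      apply hG
      refine ⟨⟨hl, hne⟩, c, hc, ?_⟩
      have hord := cyl_ord p v
      rcases lt_trichotomy z x with hzx | hzx | hzx
      · left
        intro t ht
        have ht' : t ∈ img p v univ := hmar ⟨ht.1, by linarith [ht.2]⟩
        rw [img_eq] at ht'
        obtain ⟨y, ⟨hy1, _⟩, hy2⟩ := ht'
        have hyx : y < x := by
          by_contra hle
          push Not at hle
          have := (act_mono p v).monotoneOn hx1 hy1 hle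
          rw [hx3, hy2] at this
          exact absurd ht.2 (not_lt.2 this)
        have hzy : z < y := by
          by_contra hle
          push Not at hle
          exact hzc (hord.out hy1 hx1 ⟨hle, hzx.le⟩)
        have hyK : y ∈ K := hKord.out hz hx2 ⟨hzy.le, hyx.le⟩
        rw [himg, img_eq]
        exact ⟨y, ⟨hy1, hyK⟩, hy2⟩
      · exact absurd (hzx ▸ hx1) hzc
      · right
        intro t ht
        have ht' : t ∈ img p v univ := hmar ⟨by linarith [ht.1], ht.2⟩
        rw [img_eq] at ht'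
        obtain ⟨y, ⟨hy1, _⟩, hy2⟩ := ht'
        have hyx : x < y := by
          by_contra hle
          push Not at hle
          have := (act_mono p v).monotoneOn hy1 hx1 hle
          rw [hx3, hy2] at this
          exact absurd ht.1 (not_lt.2 this)
        have hzy : y < z := by
          by_contra hle
          push Not at hle
          exact hzc (hord.out hx1 hy1 ⟨hzx.le, hle⟩)
        have hyK : y ∈ K := hKord.out hx2 hz ⟨hyx.le, hzy.le⟩
        rw [himg, img_eq]
        exact ⟨y, ⟨hy1, hyK⟩, hy2⟩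
    refine ncard_le_ncard_of_injOn (fun w => w.take n) ?_ ?_ (WX_finite p X n)
    · rintro w ⟨⟨⟨hl, hne⟩, _⟩, _⟩
      refine ⟨by rw [List.length_take, hl]; omega, ?_⟩
      have hw : w = w.take n ++ w.drop n := (List.take_append_drop n w).symm
      rw [hw, img_append, img_eq] at hne
      obtain ⟨_, x, ⟨_, hx⟩, _⟩ := hne
      exact ⟨x, hx⟩
    · intro w hw w' hw' htake
      simp only [] at htake
      have k1 := key w hw
      have k2 := key w' hw'
      have hl := hw.1.1.1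
      have hl' := hw'.1.1.1
      have hne : (img p (w.take n) X).Nonempty := by
        have hne := hw.1.1.2
        have hw2 : w = w.take n ++ w.drop n := (List.take_append_drop n w).symm
        rw [hw2, img_append, img_eq] at hne
        obtain ⟨_, x, ⟨_, hx⟩, _⟩ := hne
        exact ⟨x, hx⟩
      obtain ⟨x, hx⟩ := hne
      have hd : w.drop n = w'.drop n := by
        refine cyl_disj h1 h2 ?_ (k1 hx) (k2 (htake ▸ hx))
        rw [List.length_drop, List.length_drop, hl, hl']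
      rw [← List.take_append_drop n w, ← List.take_append_drop n w', htake, hd]
  omega

/-- Growth lemma. -/
theorem growth_bound (u : ℕ → ℝ) (hu : ∀ n, 0 ≤ u n) (ρ : ℝ) (hρ : 1 < ρ) (k n₀ : ℕ)
    (hk : 3 ≤ (ρ - 1) / 2 * ρ ^ k)
    (h : ∀ n ≥ n₀, u (n + k + 1) ≤ u (n + k) + 3 * ρ ^ (n + k) + 3 * u n) :
    ∃ C > 0, ∀ n, u n ≤ C * ρ ^ n := by
  have hρ0 : 0 < ρ := by linarith
  set C : ℝ := 6 / (ρ - 1) + ∑ n ∈ Finset.range (n₀ + k + 1), u n with hC
  have hC1 : 6 / (ρ - 1) ≤ C := by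
    rw [hC]
    have : 0 ≤ ∑ n ∈ Finset.range (n₀ + k + 1), u n := Finset.sum_nonneg fun i _ => hu i
    linarith
  have hpos : 0 < 6 / (ρ - 1) := div_pos (by norm_num) (by linarith)
  have hC0 : 0 < C := hpos.trans_le hC1
  have hC6 : 6 ≤ C * (ρ - 1) := by
    rwa [div_le_iff₀ (by linarith)] at hC1
  refine ⟨C, hC0, fun n => ?_⟩
  induction n using Nat.strong_induction_on with
  | _ n ih =>
    rcases Nat.lt_or_ge n (n₀ + k + 1) with hn | hn
    · have h1 : u n ≤ ∑ n ∈ Finset.range (n₀ + k + 1), u n :=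
        Finset.single_le_sum (fun i _ => hu i) (Finset.mem_range.2 hn)
      have h2 : u n ≤ C := by rw [hC]; linarith
      have h3 : (1 : ℝ) ≤ ρ ^ n := one_le_pow₀ hρ.le
      nlinarith
    · obtain ⟨m, rfl⟩ : ∃ m, n = m + k + 1 := ⟨n - (k + 1), by omega⟩
      have h1 := h m (by omega)
      have h2 := ih (m + k) (by omega)
      have h3 := ih m (by omega)
      have hm : (0 : ℝ) < ρ ^ m := by positivity
      have hmk : (0 : ℝ) < ρ ^ (m + k) := by positivity
      have h4 : 3 * (C * ρ ^ m) ≤ C * ((ρ - 1) / 2) * ρ ^ (m + k) := by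
        rw [pow_add]
        have : 3 * ρ ^ m ≤ (ρ - 1) / 2 * ρ ^ k * ρ ^ m := mul_le_mul_of_nonneg_right hk hm.le
        nlinarith
      have h5 : 3 * ρ ^ (m + k) ≤ C * ((ρ - 1) / 2) * ρ ^ (m + k) := by
        refine mul_le_mul_of_nonneg_right ?_ hmk.le
        linarith
      have h6 : ρ ^ (m + k + 1) = ρ * ρ ^ (m + k) := by rw [pow_succ]; ring
      rw [h6]
      nlinarith

/-- the far regions see all the words -/
theorem far_sees {p : ℝ × ℝ} (hp : InP p) (m : ℝ) :
    ∃ s : ℕ, ∀ n, NX p univ (n + 1) ≤ 2 * NX p (Iio (-m)) (n + s) + 2 * NX p (Ioi m) (n + s) := by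
  obtain ⟨p1, p2, p3, p4⟩ := id hp
  obtain ⟨s, hs⟩ := exists_nat_ge (|m| + 2 + |p.1| + |p.2|)
  have hm := neg_abs_le m
  have hm' := le_abs_self m
  have ha := neg_abs_le p.1
  have hb := le_abs_self p.2
  have ha0 := abs_nonneg p.1
  have hb0 := abs_nonneg p.2
  -- reach from the far left
  have hT : ∀ j : ℕ, ∀ c : ℝ, c ≤ p.1 + 1 → Iio (min (c + j) (p.1 + 1)) ⊆
      img p (List.replicate j T) (Iio c) := by
    intro j
    induction j with
    | zero =>
      intro c hc
      rw [List.replicate_zero, img_nil]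
      exact Iio_subset_Iio ((min_le_left _ _).trans (by simp))
    | succ j ih =>
      intro c hc
      rw [List.replicate_succ, img_cons]
      have h1 : Iio (min (c + 1) (p.1 + 1)) ⊆ step p T (Iio c) := by
        intro y hy
        have hy' : y < min (c + 1) (p.1 + 1) := hy
        have h2 := min_le_left (c + 1) (p.1 + 1)
        have h3 := min_le_right (c + 1) (p.1 + 1)
        rw [mem_stepT]
        exact ⟨by linarith, show y - 1 < c by linarith⟩
      refine Subset.trans ?_ (img_mono p _ h1)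
      refine Subset.trans ?_ (ih _ (min_le_right _ _))
      refine Iio_subset_Iio ?_
      push_cast
      refine le_min ?_ (min_le_right _ _)
      rcases le_total (c + 1) (p.1 + 1) with h2 | h2
      · rw [min_eq_left h2]
        exact (min_le_left _ _).trans (by linarith)
      · rw [min_eq_right h2]
        refine (min_le_right _ _).trans ?_
        have : (0 : ℝ) ≤ j := Nat.cast_nonneg j
        linarith
  have hleft : Iio (p.1 + 1) ⊆ img p (List.replicate s T) (Iio (-m)) := by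
    refine Subset.trans ?_ (img_mono p _ (Iio_subset_Iio (min_le_left (-m) (p.1 + 1))))
    refine Subset.trans ?_ (hT s (min (-m) (p.1 + 1)) (min_le_right _ _))
    refine Iio_subset_Iio ?_
    refine le_min ?_ le_rfl
    rcases le_total (-m) (p.1 + 1) with h2 | h2
    · rw [min_eq_left h2]; linarith
    · rw [min_eq_right h2]
      have : (0 : ℝ) ≤ s := Nat.cast_nonneg s
      linarith
  have hD : ∀ j : ℕ, ∀ c : ℝ, p.2 - 1 ≤ c → Ioi (max (c - j) (p.2 - 1)) ⊆
      img p (List.replicate j D) (Ioi c) := by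
    intro j
    induction j with
    | zero =>
      intro c hc
      rw [List.replicate_zero, img_nil]
      exact Ioi_subset_Ioi (le_trans (by simp) (le_max_left _ _))
    | succ j ih =>
      intro c hc
      rw [List.replicate_succ, img_cons]
      have h1 : Ioi (max (c - 1) (p.2 - 1)) ⊆ step p D (Ioi c) := by
        intro y hy
        have hy' : max (c - 1) (p.2 - 1) < y := hy
        have h2 := le_max_left (c - 1) (p.2 - 1)
        have h3 := le_max_right (c - 1) (p.2 - 1)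
        rw [mem_stepD]
        exact ⟨by linarith, show c < y + 1 by linarith⟩
      refine Subset.trans ?_ (img_mono p _ h1)
      refine Subset.trans ?_ (ih _ (le_max_right _ _))
      refine Ioi_subset_Ioi ?_
      push_cast
      refine max_le ?_ (le_max_right _ _)
      rcases le_total (c - 1) (p.2 - 1) with h2 | h2
      · rw [max_eq_right h2]
        refine le_trans ?_ (le_max_right _ _)
        have : (0 : ℝ) ≤ j := Nat.cast_nonneg j
        linarith
      · rw [max_eq_left h2]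
        exact le_trans (by linarith) (le_max_left _ _)
  have hright : Ioi (p.2 - 1) ⊆ img p (List.replicate s D) (Ioi m) := by
    refine Subset.trans ?_ (img_mono p _ (Ioi_subset_Ioi (le_max_left m (p.2 - 1))))
    refine Subset.trans ?_ (hD s (max m (p.2 - 1)) (le_max_right _ _))
    refine Ioi_subset_Ioi ?_
    refine max_le ?_ le_rfl
    rcases le_total m (p.2 - 1) with h2 | h2
    · rw [max_eq_right h2]
      have : (0 : ℝ) ≤ s := Nat.cast_nonneg s
      linarith
    · rw [max_eq_left h2]; linarith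
  refine ⟨s, fun n => ?_⟩
  have e := NX_succ_le p univ n
  have eT : step p T univ ⊆ Iio (p.1 + 1) := by
    intro y hy
    rw [mem_stepT] at hy
    exact show y < p.1 + 1 by linarith [hy.1]
  have eD : step p D univ ⊆ Ioi (p.2 - 1) := by
    intro y hy
    rw [mem_stepD] at hy
    exact show p.2 - 1 < y by linarith [hy.1]
  have eM : step p M univ ⊆ Ioi (p.2 - 1) := by
    rintro y ⟨x, ⟨hx, _⟩, rfl⟩
    have := M_image hp hx.1 hx.2
    exact show p.2 - 1 < -x⁻¹ by linarith
  have eQ : step p Q univ ⊆ Iio (p.1 + 1) := by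
    rintro y ⟨x, ⟨hx, _⟩, rfl⟩
    have := Q_image hp hx.1 hx.2
    exact show -x⁻¹ < p.1 + 1 by linarith
  have l1 := NX_prepend' p _ _ _ hleft (n + s) n (by simp)
  have l2 := NX_prepend' p _ _ _ hright (n + s) n (by simp)
  have k1 := NX_mono p eT n
  have k2 := NX_mono p eM n
  have k3 := NX_mono p eQ n
  have k4 := NX_mono p eD n
  omega

/-- There are many good words from one of the two far regions. -/
theorem good_inf {p : ℝ × ℝ} (hp : InP p) (m ρ : ℝ) (hρ1 : 1 < ρ) (hρ : ρ < Real.exp (ent p)) :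
    ∃ δ > 0, (∀ N : ℕ, ∃ n ≥ N, ρ ^ n < (GX p (Iio (-m)) δ n).ncard) ∨
      (∀ N : ℕ, ∃ n ≥ N, ρ ^ n < (GX p (Ioi m) δ n).ncard) := by
  obtain ⟨k, hk⟩ : ∃ k : ℕ, 3 ≤ (ρ - 1) / 2 * ρ ^ k := by
    obtain ⟨k, hk⟩ := pow_unbounded_of_one_lt (3 / ((ρ - 1) / 2)) hρ1
    refine ⟨k, ?_⟩
    rw [div_lt_iff₀ (by linarith)] at hk
    linarith
  obtain ⟨δ, hδ, hrec⟩ := recursion hp.1 hp.2.1 k
  refine ⟨δ, hδ, ?_⟩
  by_contra hcon
  push Not at hcon
  obtain ⟨⟨N₁, hN₁⟩, ⟨N₂, hN₂⟩⟩ := hcon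
  have hρ0 : 0 < ρ := by linarith
  have main : ∀ X : Set ℝ, OrdConnected X → (∃ N₁ : ℕ, ∀ n ≥ N₁, ((GX p X δ n).ncard : ℝ) ≤ ρ ^ n) →
      ∃ C > 0, ∀ n, (NX p X n : ℝ) ≤ C * ρ ^ n := by
    rintro X hX ⟨N₁, hN₁⟩
    refine growth_bound (fun n => (NX p X n : ℝ)) (fun n => Nat.cast_nonneg _) ρ hρ1 k N₁ hk ?_
    intro n hn
    have e1 : (NX p X (n + k + 1) : ℝ) ≤ NX p X (n + k) + 3 * (GX p X δ (n + k)).ncard +
        3 * NX p X n := by exact_mod_cast hrec X hX n
    have e2 := hN₁ (n + k) (by omega)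
    linarith
  obtain ⟨C₁, hC₁, h1⟩ := main (Iio (-m)) ordConnected_Iio ⟨N₁, hN₁⟩
  obtain ⟨C₂, hC₂, h2⟩ := main (Ioi m) ordConnected_Ioi ⟨N₂, hN₂⟩
  obtain ⟨s, hs⟩ := far_sees hp m
  -- contradiction with the growth rate
  have h3 : ∀ n : ℕ, (Real.exp (ent p) / ρ) ^ n ≤ 2 * (C₁ + C₂) * ρ ^ s := by
    intro n
    have e1 := pow_le_NX p (n + 1)
    have e2 : (NX p univ (n + 1) : ℝ) ≤ 2 * NX p (Iio (-m)) (n + s) + 2 * NX p (Ioi m) (n + s) := by
      exact_mod_cast hs n
    have e3 := h1 (n + s)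
    have e4 := h2 (n + s)
    have e5 : Real.exp (ent p) ^ (n + 1) ≤ 2 * (C₁ + C₂) * ρ ^ (n + s) := by linarith
    have e6 : Real.exp (ent p) ^ n ≤ Real.exp (ent p) ^ (n + 1) :=
      pow_le_pow_right₀ (by linarith) (by omega)
    rw [div_pow, div_le_iff₀ (by positivity)]
    calc Real.exp (ent p) ^ n ≤ _ := e6
      _ ≤ _ := e5
      _ = _ := by rw [pow_add]; ring
  have h4 : 1 < Real.exp (ent p) / ρ := by rwa [one_lt_div hρ0]
  obtain ⟨n, hn⟩ := pow_unbounded_of_one_lt (2 * (C₁ + C₂) * ρ ^ s) h4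
  exact absurd (h3 n) (not_le.2 hn)

end Pool.Agent.ABcf
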