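import Mathlib
import Pool.Agent.ABcf.Good

set_option autoImplicit false
set_option linter.unusedSectionVars false

/-!
From every interval one reaches a neighbourhood of `-∞`.
-/

namespace Pool.Agent.ABcf

open Set Lt Filter Topology

/-- right neighbourhoods of `x` are eventually mapped onto right neighbourhoods of `0` -/
def RR (p : ℝ × ℝ) (x : ℝ) : Prop :=
  ∀ η > 0, ∃ v : List Lt, ∃ η' > 0, Ioo 0 η' ⊆ img p v (Ioo x (x + η))

theorem RR_zero (p : ℝ × ℝ) : RR p 0 := fun η hη => ⟨[], η, hη, by rw [img_nil, zero_add]⟩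

theorem RR_T {p : ℝ × ℝ} {x : ℝ} (hx : x < p.1) (h : RR p (x + 1)) : RR p x := by
  intro η hη
  obtain ⟨v, η', hη', hv⟩ := h (min η (p.1 - x)) (lt_min hη (by linarith))
  refine ⟨T :: v, η', hη', ?_⟩
  rw [img_cons]
  refine hv.trans (img_mono p v ?_)
  intro y hy
  rw [mem_stepT]
  have h1 := min_le_left η (p.1 - x)
  have h2 := min_le_right η (p.1 - x)
  exact ⟨by linarith [hy.2], by linarith [hy.1], by linarith [hy.2]⟩

theorem RR_D {p : ℝ × ℝ} {x : ℝ} (hx : p.2 ≤ x) (h : RR p (x - 1)) : RR p x := by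
  intro η hη
  obtain ⟨v, η', hη', hv⟩ := h η hη
  refine ⟨D :: v, η', hη', ?_⟩
  rw [img_cons]
  refine hv.trans (img_mono p v ?_)
  intro y hy
  rw [mem_stepD]
  exact ⟨by linarith [hy.1], by linarith [hy.1], by linarith [hy.2]⟩

theorem RR_M {p : ℝ × ℝ} {x : ℝ} (hx : p.1 ≤ x) (hx' : x < 0) (h : RR p (-x⁻¹)) : RR p x := by
  intro η hη
  set x' := min (x + η) (x / 2) with hx'def
  have hxx' : x < x' := lt_min (by linarith) (by linarith)
  have hx'0 : x' < 0 := (min_le_right _ _).trans_lt (by linarith)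
  have hlt := neg_inv_lt_neg_inv_of_neg hx'0 hxx'
  obtain ⟨v, η', hη', hv⟩ := h (-x'⁻¹ - -x⁻¹) (by linarith)
  refine ⟨M :: v, η', hη', ?_⟩
  rw [img_cons]
  refine hv.trans (img_mono p v ?_)
  intro y hy
  rw [mem_stepM]
  have hy1 : -x⁻¹ < y := hy.1
  have hy2 : y < -x'⁻¹ := by linarith [hy.2]
  have hpos : 0 < -x⁻¹ := by have := inv_lt_zero.2 hx'; linarith
  have hy0 : 0 < y := hpos.trans hy1
  have e1 := neg_inv_lt_neg_inv_of_pos hpos hy1
  have e2 := neg_inv_lt_neg_inv_of_pos hy0 hy2
  have e3 : -(-x⁻¹)⁻¹ = x := by simp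
  have e4 : -(-x'⁻¹)⁻¹ = x' := by simp
  rw [e3] at e1
  rw [e4] at e2
  have e5 : x' ≤ x + η := min_le_left _ _
  exact ⟨hy0, by linarith, e1, by linarith⟩

theorem RR_Q {p : ℝ × ℝ} {x : ℝ} (hx : 0 < x) (hx' : x < p.2) (h : RR p (-x⁻¹)) : RR p x := by
  intro η hη
  set x' := min (x + η) p.2 with hx'def
  have hxx' : x < x' := lt_min (by linarith) (by linarith)
  have hlt := neg_inv_lt_neg_inv_of_pos hx hxx'
  obtain ⟨v, η', hη', hv⟩ := h (-x'⁻¹ - -x⁻¹) (by linarith)
  refine ⟨Q :: v, η', hη', ?_⟩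
  rw [img_cons]
  refine hv.trans (img_mono p v ?_)
  intro y hy
  rw [mem_stepQ]
  have hy1 : -x⁻¹ < y := hy.1
  have hy2 : y < -x'⁻¹ := by linarith [hy.2]
  have hneg : -x'⁻¹ < 0 := by have := inv_pos.2 (hx.trans hxx'); linarith
  have hy0 : y < 0 := hy2.trans hneg
  have e1 := neg_inv_lt_neg_inv_of_neg hy0 hy1
  have e2 := neg_inv_lt_neg_inv_of_neg hneg hy2
  have e3 : -(-x⁻¹)⁻¹ = x := by simp
  have e4 : -(-x'⁻¹)⁻¹ = x' := by simp
  rw [e3] at e1
  rw [e4] at e2
  have e5 : x' ≤ x + η := min_le_left _ _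
  have e6 : x' ≤ p.2 := min_le_right _ _
  exact ⟨hy0, by linarith, e1, by linarith⟩

/-- all rational points have the property -/
theorem RR_rat {p : ℝ × ℝ} (hp : InP p) (ha : p.1 < 0) (hb : 0 < p.2) (s : ℕ) (hs : 1 ≤ s)
    (r : ℤ) : RR p ((r : ℝ) / (s : ℝ)) := by
  induction s using Nat.strong_induction_on generalizing r with
  | _ s ih =>
    obtain ⟨p1, p2, p3, p4⟩ := id hp
    have hs0 : (0 : ℝ) < s := by exact_mod_cast hs
    -- positive points of the middle part
    have E : ∀ N : ℕ, ∀ r : ℕ, r ≤ N → 0 < r → (r : ℝ) / s < p.2 → RR p (-((r : ℝ) / s)⁻¹) := by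
      intro N
      induction N with
      | zero => intro r h1 h2; omega
      | succ N ihN =>
        intro r hrN hr hrb
        have hr0 : (0 : ℝ) < r := by exact_mod_cast hr
        have hq := Q_image hp (div_pos hr0 hs0) hrb
        rcases lt_trichotomy r s with h | h | h
        · have := ih r h hr (-(s : ℤ))
          have e : ((-(s : ℤ) : ℤ) : ℝ) / (r : ℝ) = -((r : ℝ) / s)⁻¹ := by
            push_cast
            rw [inv_div, neg_div]
          rwa [e] at this
        · have e : (r : ℝ) / s = 1 := by rw [h]; exact div_self hs0.ne'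
          rw [e] at hq hrb ⊢
          refine RR_T hq ?_
          have : -(1 : ℝ)⁻¹ + 1 = 0 := by norm_num
          rw [this]
          exact RR_zero p
        · have hsr : (s : ℝ) < r := by exact_mod_cast h
          have hb1 : 1 < p.2 := lt_trans ((one_lt_div hs0).2 hsr) hrb
          have ha1 : -1 < p.1 := by nlinarith
          refine RR_T hq ?_
          have e1 : -((r : ℝ) / s)⁻¹ + 1 = ((r : ℝ) - s) / r := by
            field_simp
            ring
          rw [e1]
          have hpos : 0 < ((r : ℝ) - s) / r := div_pos (by linarith) hr0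
          have hlt1 : ((r : ℝ) - s) / r < 1 := (div_lt_one hr0).2 (by linarith)
          refine RR_Q hpos (hlt1.trans hb1) ?_
          have hrs : (0 : ℝ) < (r : ℝ) - s := by linarith
          have hlt2 : -(((r : ℝ) - s) / r)⁻¹ < p.1 := by
            have : 1 < (((r : ℝ) - s) / r)⁻¹ := (one_lt_inv₀ hpos).2 hlt1
            linarith
          refine RR_T hlt2 ?_
          have e2 : -(((r : ℝ) - s) / r)⁻¹ + 1 = -(((r - s : ℕ) : ℝ) / s)⁻¹ := by
            rw [Nat.cast_sub h.le]
            field_simp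
            ring
          rw [e2]
          refine ihN (r - s) (by omega) (by omega) ?_
          rw [Nat.cast_sub h.le]
          refine lt_trans ?_ hrb
          exact div_lt_div_of_pos_right (by linarith) hs0
    -- negative points of the middle part
    have E' : ∀ N : ℕ, ∀ r : ℕ, r ≤ N → 0 < r → p.1 ≤ -((r : ℝ) / s) →
        RR p (((r : ℝ) / s)⁻¹) := by
      intro N
      induction N with
      | zero => intro r h1 h2; omega
      | succ N ihN =>
        intro r hrN hr hra
        have hr0 : (0 : ℝ) < r := by exact_mod_cast hr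
        have hy0 : 0 < (r : ℝ) / s := div_pos hr0 hs0
        have hD : p.2 ≤ ((r : ℝ) / s)⁻¹ := by
          rw [le_inv_comm₀ hb hy0, ← one_div, le_div_iff₀ hb]
          nlinarith
        rcases lt_trichotomy r s with h | h | h
        · have := ih r h hr (s : ℤ)
          have e : (((s : ℤ) : ℤ) : ℝ) / (r : ℝ) = ((r : ℝ) / s)⁻¹ := by
            push_cast
            rw [inv_div]
          rwa [e] at this
        · have e : (r : ℝ) / s = 1 := by rw [h]; exact div_self hs0.ne'
          rw [e] at hD ⊢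
          refine RR_D hD ?_
          have : (1 : ℝ)⁻¹ - 1 = 0 := by norm_num
          rw [this]
          exact RR_zero p
        · have hsr : (s : ℝ) < r := by exact_mod_cast h
          have ha1 : p.1 < -1 := by
            have := (one_lt_div hs0).2 hsr
            linarith
          have hb1 : p.2 < 1 := by nlinarith
          refine RR_D hD ?_
          have hrs : (0 : ℝ) < (r : ℝ) - s := by linarith
          have e1 : ((r : ℝ) / s)⁻¹ - 1 = -(((r : ℝ) - s) / r) := by
            field_simp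
            ring
          rw [e1]
          have hpos : 0 < ((r : ℝ) - s) / r := div_pos (by linarith) hr0
          have hlt1 : ((r : ℝ) - s) / r < 1 := (div_lt_one hr0).2 (by linarith)
          refine RR_M (by linarith) (by linarith) ?_
          have e0 : -(-(((r : ℝ) - s) / r))⁻¹ = (((r : ℝ) - s) / r)⁻¹ := by
            rw [inv_neg, neg_neg]
          rw [e0]
          have hlt2 : p.2 ≤ (((r : ℝ) - s) / r)⁻¹ := by
            have : 1 < (((r : ℝ) - s) / r)⁻¹ := (one_lt_inv₀ hpos).2 hlt1
            linarith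
          refine RR_D hlt2 ?_
          have e2 : (((r : ℝ) - s) / r)⁻¹ - 1 = (((r - s : ℕ) : ℝ) / s)⁻¹ := by
            rw [Nat.cast_sub h.le]
            field_simp
            ring
          rw [e2]
          refine ihN (r - s) (by omega) (by omega) ?_
          rw [Nat.cast_sub h.le]
          refine hra.trans ?_
          apply neg_le_neg
          exact div_le_div_of_nonneg_right (by linarith) hs0.le
    -- the middle part
    have mid : ∀ r : ℤ, p.1 ≤ (r : ℝ) / s → (r : ℝ) / s < p.2 → RR p ((r : ℝ) / s) := by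
      intro r h1 h2
      rcases lt_trichotomy r 0 with h | h | h
      · obtain ⟨r', rfl⟩ : ∃ r' : ℕ, r = -(r' : ℤ) := ⟨r.natAbs, by omega⟩
        have hr' : 0 < r' := by omega
        have hr0 : (0 : ℝ) < r' := by exact_mod_cast hr'
        have e : ((-(r' : ℤ) : ℤ) : ℝ) / s = -((r' : ℝ) / s) := by push_cast; rw [neg_div]
        rw [e] at h1 ⊢
        have hpos : 0 < (r' : ℝ) / s := div_pos hr0 hs0
        refine RR_M h1 (by linarith) ?_
        rw [inv_neg, neg_neg]
        exact E' r' r' le_rfl hr' h1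
      · subst h
        simp only [Int.cast_zero, zero_div]
        exact RR_zero p
      · obtain ⟨r', rfl⟩ : ∃ r' : ℕ, r = (r' : ℤ) := ⟨r.natAbs, by omega⟩
        have hr' : 0 < r' := by omega
        have hr0 : (0 : ℝ) < r' := by exact_mod_cast hr'
        simp only [Int.cast_natCast] at h1 h2 ⊢
        exact RR_Q (div_pos hr0 hs0) h2 (E r' r' le_rfl hr' h2)
    have low : ∀ N : ℕ, ∀ r : ℤ, p.1 - N ≤ (r : ℝ) / s → (r : ℝ) / s < p.2 →
        RR p ((r : ℝ) / s) := by
      intro N
      induction N with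
      | zero => intro r h1 h2; exact mid r (by simpa using h1) h2
      | succ N ihN =>
        intro r h1 h2
        by_cases h3 : p.1 ≤ (r : ℝ) / s
        · exact mid r h3 h2
        push Not at h3
        refine RR_T h3 ?_
        have e : (r : ℝ) / s + 1 = ((r + s : ℤ) : ℝ) / s := by
          push_cast; field_simp
        rw [e]
        refine ihN (r + s) ?_ ?_
        · rw [← e]; push_cast at h1; linarith
        · rw [← e]; linarith
    have high : ∀ N : ℕ, ∀ r : ℤ, p.1 ≤ (r : ℝ) / s → (r : ℝ) / s < p.2 + N →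
        RR p ((r : ℝ) / s) := by
      intro N
      induction N with
      | zero => intro r h1 h2; exact mid r h1 (by simpa using h2)
      | succ N ihN =>
        intro r h1 h2
        by_cases h3 : (r : ℝ) / s < p.2
        · exact mid r h1 h3
        push Not at h3
        refine RR_D h3 ?_
        have e : (r : ℝ) / s - 1 = ((r - s : ℤ) : ℝ) / s := by
          push_cast; field_simp
        rw [e]
        refine ihN (r - s) ?_ ?_
        · rw [← e]; linarith
        · rw [← e]; push_cast at h2; linarith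
    by_cases h3 : p.1 ≤ (r : ℝ) / s
    · obtain ⟨N, hN⟩ := exists_nat_gt ((r : ℝ) / s - p.2)
      exact high N r h3 (by linarith)
    · push Not at h3
      obtain ⟨N, hN⟩ := exists_nat_gt (p.1 - (r : ℝ) / s)
      exact low N r (by linarith) (by linarith)

theorem reach_zero {p : ℝ × ℝ} (hp : InP p) (ha : p.1 < 0) (hb : 0 < p.2) {x₁ x₂ : ℝ}
    (h : x₁ < x₂) : ∃ v : List Lt, ∃ η > 0, Ioo 0 η ⊆ img p v (Ioo x₁ x₂) := by
  obtain ⟨q, h1, h2⟩ := exists_rat_btwn h
  have h3 := RR_rat hp ha hb q.den q.pos q.num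
  have h4 : ((q.num : ℝ) / (q.den : ℝ)) = (q : ℝ) := by
    exact_mod_cast congrArg (fun t : ℚ => (t : ℝ)) (Rat.num_div_den q)
  rw [h4] at h3
  obtain ⟨v, η, hη, h5⟩ := h3 (x₂ - q) (by linarith)
  refine ⟨v, η, hη, h5.trans (img_mono p v ?_)⟩
  intro y hy
  exact ⟨h1.trans hy.1, by linarith [hy.2]⟩

theorem reach_T (p : ℝ × ℝ) : ∀ j : ℕ, ∀ c : ℝ, c ≤ p.1 + 1 → Iio (min (c + j) (p.1 + 1)) ⊆
      img p (List.replicate j T) (Iio c) := by
  intro j
  induction j with
  | zero =>
    intro c hc
    rw [List.replicate_zero, img_nil]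
    exact Iio_subset_Iio ((min_le_left _ _).trans (by simp))
  | succ j ih =>
    intro c hc
    rw [List.replicate_succ, img_cons]
    have h1 : Iio (min (c + 1) (p.1 + 1)) ⊆ step p T (Iio c) := by
      intro y hy
      have hy' : y < min (c + 1) (p.1 + 1) := hy
      have h2 := min_le_left (c + 1) (p.1 + 1)
      have h3 := min_le_right (c + 1) (p.1 + 1)
      rw [mem_stepT]
      exact ⟨by linarith, show y - 1 < c by linarith⟩
    refine Subset.trans ?_ (img_mono p _ h1)
    refine Subset.trans ?_ (ih _ (min_le_right _ _))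
    refine Iio_subset_Iio ?_
    push_cast
    refine le_min ?_ (min_le_right _ _)
    rcases le_total (c + 1) (p.1 + 1) with h2 | h2
    · rw [min_eq_left h2]
      exact (min_le_left _ _).trans (by linarith)
    · rw [min_eq_right h2]
      refine (min_le_right _ _).trans ?_
      have : (0 : ℝ) ≤ j := Nat.cast_nonneg j
      linarith

/-- The bridge: from any interval one reaches `(-∞, -m+1]`, by a word which contains `Q`. -/
theorem bridge {p : ℝ × ℝ} (hp : InP p) (ha : p.1 < 0) (hb : 0 < p.2) {x₁ x₂ : ℝ}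
    (h : x₁ < x₂) (m : ℝ) (hm : -m < p.1) :
    ∃ v : List Lt, Q ∈ v ∧ Iic (-m + 1) ⊆ img p v (Ioo x₁ x₂) := by
  obtain ⟨v, η, hη, h1⟩ := reach_zero hp ha hb h
  set η' := min η (min p.2 1) with hη'
  have hη'0 : 0 < η' := lt_min hη (lt_min hb one_pos)
  have hη'1 : η' ≤ 1 := (min_le_right _ _).trans (min_le_right _ _)
  have hη'b : η' ≤ p.2 := (min_le_right _ _).trans (min_le_left _ _)
  have hη'η : η' ≤ η := min_le_left _ _
  set c : ℝ := min (-η'⁻¹) (p.1 + 1) with hc
  obtain ⟨j, hj⟩ := exists_nat_gt (-m + 1 - c)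
  refine ⟨v ++ Q :: List.replicate j T, by simp, ?_⟩
  rw [img_append, img_cons]
  have h2 : Iio c ⊆ step p Q (img p v (Ioo x₁ x₂)) := by
    intro y hy
    have hy' : y < c := hy
    have hy1 : y < -η'⁻¹ := hy'.trans_le (min_le_left _ _)
    have hinv : 0 < η'⁻¹ := inv_pos.2 hη'0
    have hy0 : y < 0 := by linarith
    rw [mem_stepQ]
    have e1 := neg_inv_lt_neg_inv_of_neg (by linarith : -η'⁻¹ < 0) hy1
    have e2 : -(-η'⁻¹)⁻¹ = η' := by simp
    rw [e2] at e1
    have e3 : 0 < -y⁻¹ := by have := inv_lt_zero.2 hy0; linarith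
    exact ⟨hy0, by linarith, h1 ⟨e3, by linarith⟩⟩
  refine Subset.trans ?_ (img_mono p _ h2)
  refine Subset.trans ?_ (reach_T p j c (min_le_right _ _))
  intro y hy
  have hy' : y ≤ -m + 1 := hy
  have g1 : y < c + j := by linarith
  have g2 : y < p.1 + 1 := by linarith
  exact lt_min g1 g2

end Pool.Agent.ABcf
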