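import Mathlib
import Pool.Agent.ABcf.Bridge

set_option autoImplicit false
set_option linter.unusedSectionVars false

/-!
Lower semicontinuity at the parameters with `a < 0 < b`.
-/

namespace Pool.Agent.ABcf

open Set Lt Filter Topology

/-- Lower bound `c ρ^n` for the number of words whose images have two common points, near `p₀`. -/
def LB (p₀ : ℝ × ℝ) (ρ : ℝ) : Prop :=
  ∃ c > 0, ∀ᶠ p in 𝓝 p₀, InP p → ∀ n : ℕ, ∃ y y' : ℝ, y < y' ∧
    c * ρ ^ n ≤ NH p univ {y, y'} n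

theorem LB.mono {p₀ : ℝ × ℝ} {ρ ρ' : ℝ} (h : LB p₀ ρ') (h0 : 0 ≤ ρ) (hρ : ρ ≤ ρ') : LB p₀ ρ := by
  obtain ⟨c, hc, h1⟩ := h
  refine ⟨c, hc, ?_⟩
  filter_upwards [h1] with p hp hInP n
  obtain ⟨y, y', h2, h3⟩ := hp hInP n
  refine ⟨y, y', h2, le_trans ?_ h3⟩
  exact mul_le_mul_of_nonneg_left (pow_le_pow_left₀ h0 hρ n) hc.le

theorem fp_cont : Continuous fp := by unfold fp; fun_prop

theorem LB.flip {p₀ : ℝ × ℝ} {ρ : ℝ} (h : LB (fp p₀) ρ) : LB p₀ ρ := by
  obtain ⟨c, hc, h1⟩ := h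
  refine ⟨c, hc, ?_⟩
  have h2 : Tendsto fp (𝓝 p₀) (𝓝 (fp p₀)) := fp_cont.tendsto p₀
  filter_upwards [h2.eventually h1] with p hp hInP n
  obtain ⟨y, y', h3, h4⟩ := hp (InP_fp hInP) n
  refine ⟨-y', -y, by linarith, ?_⟩
  have h5 := NH_fl (fp p) univ {y, y'} n
  rw [fp_fp, fs_univ] at h5
  have h6 : fs {y, y'} = {-y', -y} := by
    ext x
    simp only [mem_fs, mem_insert_iff, mem_singleton_iff]
    constructor
    · rintro (h | h)
      · right; linarith
      · left; linarith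
    · rintro (h | h)
      · right; linarith
      · left; linarith
  rw [h6] at h5
  rw [h5]
  exact h4

theorem cyl_persist {p₀ : ℝ × ℝ} {w : List Lt} {x : ℝ} (h : x ∈ cyl p₀ w) :
    ∀ᶠ p in 𝓝 p₀, x ∈ cyl p w := by
  induction w generalizing x with
  | nil => exact Filter.Eventually.of_forall fun p => mem_univ _
  | cons s w ih =>
    have h1 : ∀ᶠ p in 𝓝 p₀, x ∈ lap p s := by
      have c1 : Tendsto (fun p : ℝ × ℝ => p.1) (𝓝 p₀) (𝓝 p₀.1) := continuous_fst.tendsto p₀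
      have c2 : Tendsto (fun p : ℝ × ℝ => p.2) (𝓝 p₀) (𝓝 p₀.2) := continuous_snd.tendsto p₀
      have h2 := h.1
      cases s
      · exact c1.eventually_const_lt h2
      · filter_upwards [c1.eventually_lt_const h2.1] with p hp
        exact ⟨hp, h2.2⟩
      · filter_upwards [c2.eventually_const_lt h2.2] with p hp
        exact ⟨h2.1, hp⟩
      · exact c2.eventually_lt_const h2
    filter_upwards [h1, ih h.2] with p hp1 hp2
    exact ⟨hp1, hp2⟩

theorem cyl_lower {p : ℝ × ℝ} (h1 : p.1 ≤ 0) (h2 : 0 ≤ p.2) {u : List Lt} {x : ℝ} (hQ : Q ∈ u)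
    (hx : x ∈ cyl p u) : p.1 - u.length ≤ x := by
  induction u generalizing x with
  | nil => simp at hQ
  | cons s u ih =>
    have hlen : ((s :: u).length : ℝ) = u.length + 1 := by simp
    have hnn : (0 : ℝ) ≤ u.length := Nat.cast_nonneg _
    have hx1 := hx.1
    cases s
    · have h3 : Q ∈ u := by
        rcases List.mem_cons.1 hQ with h | h
        · exact absurd h (by decide)
        · exact h
      have h4 : p.1 - u.length ≤ x + 1 := ih h3 hx.2
      rw [hlen]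
      linarith
    · have h4 : p.1 < x := hx1.1
      rw [hlen]; linarith
    · have h4 : 0 < x := hx1.1
      rw [hlen]; linarith
    · have h4 : p.2 < x := hx1
      rw [hlen]; linarith

theorem horseshoe_persist {p₀ : ℝ × ℝ} (h1 : p₀.1 ≤ 0) (h2 : 0 ≤ p₀.2) {u : List Lt}
    (hQ : Q ∈ u) (m R : ℝ) (hR : m ≤ R) (hR' : -R ≤ p₀.1 - u.length)
    (h : Iic (-m + 1) ⊆ img p₀ u (Iio (-m))) :
    ∀ᶠ p in 𝓝 p₀, Icc (-R) (-m) ⊆ img p u (Icc (-R) (-m)) := by
  rw [img_eq] at h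
  obtain ⟨xl, ⟨hl1, hl2⟩, hl3⟩ := h (show -R ≤ -m + 1 by linarith)
  obtain ⟨xh, ⟨hh1, hh2⟩, hh3⟩ := h (show -m ≤ -m + 1 by linarith)
  have hle : xl ≤ xh := by
    by_contra hlt
    push Not at hlt
    have := act_mono p₀ u hh1 hl1 hlt
    rw [hl3, hh3] at this
    linarith
  have hlow := cyl_lower h1 h2 hQ hl1
  filter_upwards [cyl_persist hl1, cyl_persist hh1] with p hpl hph
  have hsub : Icc xl xh ⊆ cyl p u := (cyl_ord p u).out hpl hph
  have hcont : ContinuousOn (act u) (Icc xl xh) := (act_cont p u).mono hsub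
  have hivt := intermediate_value_Icc hle hcont
  rw [hl3, hh3] at hivt
  intro y hy
  obtain ⟨x, hx, hxy⟩ := hivt hy
  rw [img_eq]
  refine ⟨x, ⟨hsub hx, ?_, ?_⟩, hxy⟩
  · linarith [hx.1]
  · exact hx.2.trans (le_of_lt hh2)

theorem NH_iterate (p : ℝ × ℝ) (Y Z : Set ℝ) (L : ℕ) (U : Set (List Lt)) (hU : U ⊆ words L)
    (hY : ∀ u ∈ U, Y ⊆ img p u Y) (r q : ℕ) :
    U.ncard ^ q * NH p Y Z r ≤ NH p Y Z (q * L + r) := by
  have hUfin : U.Finite := (words_finite L).subset hU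
  induction q with
  | zero => simp
  | succ q ih =>
    have hsub : (fun t : List Lt × List Lt => t.1 ++ t.2) '' (U ×ˢ HX p Y Z (q * L + r)) ⊆
        HX p Y Z ((q + 1) * L + r) := by
      rintro _ ⟨⟨u, w⟩, ⟨hu, hw1, hw2⟩, rfl⟩
      have hul : u.length = L := hU hu
      refine ⟨?_, ?_⟩
      · simp only [List.length_append, hul, hw1]; ring
      · simp only [img_append]
        exact hw2.trans (img_mono p w (hY u hu))
    have hinj : InjOn (fun t : List Lt × List Lt => t.1 ++ t.2) (U ×ˢ HX p Y Z (q * L + r)) := by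
      rintro ⟨u, w⟩ ⟨hu, _⟩ ⟨u', w'⟩ ⟨hu', _⟩ h
      have hul : u.length = L := hU hu
      have hul' : u'.length = L := hU hu'
      obtain ⟨e1, e2⟩ := List.append_inj h (by simp only [hul, hul'])
      simp only at e1 e2
      rw [e1, e2]
    have h1 := ncard_le_ncard hsub (HX_finite p Y Z _)
    rw [hinj.ncard_image, ncard_prod] at h1
    calc U.ncard ^ (q + 1) * NH p Y Z r = U.ncard * (U.ncard ^ q * NH p Y Z r) := by ring
      _ ≤ U.ncard * NH p Y Z (q * L + r) := Nat.mul_le_mul_left _ ih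
      _ ≤ _ := h1

theorem shift_mem (p : ℝ × ℝ) (r : ℕ) (X : Set ℝ) (x : ℝ) (hx : x ∈ X) (h : x + r ≤ p.1) :
    x + r ∈ img p (List.replicate r T) X := by
  induction r generalizing x X with
  | zero => simpa [img_nil] using hx
  | succ r ih =>
    rw [List.replicate_succ, img_cons]
    push_cast at h ⊢
    have hnn : (0 : ℝ) ≤ r := Nat.cast_nonneg r
    have h1 : x + 1 ∈ step p T X := by
      rw [mem_stepT, add_sub_cancel_right]
      exact ⟨by linarith, hx⟩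
    have := ih _ (x + 1) h1 (by linarith)
    rwa [show x + 1 + (r : ℝ) = x + (r + 1) by ring] at this

theorem lsc_A {p₀ : ℝ × ℝ} (hp₀ : InP p₀) (ha : p₀.1 < 0) (hb : 0 < p₀.2) (m : ℝ)
    (hm : -m < p₀.1) (δ : ℝ) (hδ : 0 < δ) (ρ ρ' : ℝ) (hρ1 : 1 ≤ ρ) (hρρ' : ρ < ρ')
    (hG : ∀ N : ℕ, ∃ n ≥ N, ρ' ^ n < (GX p₀ (Iio (-m)) δ n).ncard) : LB p₀ ρ := by
  -- the six intervals
  let lo : Fin 6 → ℝ := ![p₀.1 - δ, p₀.1, 0 - δ, 0, p₀.2 - δ, p₀.2]
  let hi : Fin 6 → ℝ := ![p₀.1, p₀.1 + δ, 0, 0 + δ, p₀.2, p₀.2 + δ]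
  have hlohi : ∀ i, lo i < hi i := by
    intro i
    fin_cases i <;> simp [lo, hi, hδ]
  have hbr : ∀ i, ∃ v : List Lt, Q ∈ v ∧ Iic (-m + 1) ⊆ img p₀ v (Ioo (lo i) (hi i)) :=
    fun i => bridge hp₀ ha hb (hlohi i) m hm
  choose v hvQ hv using hbr
  set V0 : ℕ := ∑ i, (v i).length with hV0
  have hvV : ∀ i, (v i).length ≤ V0 := fun i =>
    Finset.single_le_sum (f := fun i => (v i).length) (fun _ _ => Nat.zero_le _)
      (Finset.mem_univ i)
  have hρ0 : 0 < ρ := by linarith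
  -- choice of `n`
  obtain ⟨N, hN⟩ : ∃ N : ℕ, ∀ n ≥ N, 6 * ρ ^ (n + V0) ≤ ρ' ^ n := by
    have h1 : 1 < ρ' / ρ := (one_lt_div hρ0).2 hρρ'
    obtain ⟨N, hN⟩ := pow_unbounded_of_one_lt (6 * ρ ^ V0) h1
    refine ⟨N, fun n hn => ?_⟩
    have h2 : (ρ' / ρ) ^ N ≤ (ρ' / ρ) ^ n := pow_le_pow_right₀ h1.le hn
    have h3 : 6 * ρ ^ V0 ≤ (ρ' / ρ) ^ n := (hN.le).trans h2
    rw [div_pow, le_div_iff₀ (by positivity)] at h3
    rw [pow_add]
    linarith
  obtain ⟨n, hnN, hGn⟩ := hG N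
  have h6 := hN n hnN
  -- pigeonhole
  set Gi : Fin 6 → Set (List Lt) := fun i =>
    {w | w ∈ WX p₀ (Iio (-m)) n ∧ Ioo (lo i) (hi i) ⊆ img p₀ w (Iio (-m))} with hGi
  have hGifin : ∀ i, (Gi i).Finite := fun i => (WX_finite p₀ _ n).subset fun _ hw => hw.1
  have hcover : GX p₀ (Iio (-m)) δ n ⊆ ⋃ i ∈ (Finset.univ : Finset (Fin 6)), Gi i := by
    rintro w ⟨hw, c, hc, h⟩
    simp only [Finset.mem_univ, iUnion_true, mem_iUnion]
    rcases hc with rfl | rfl | rfl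
    · rcases h with h | h
      · exact ⟨0, hw, h⟩
      · exact ⟨1, hw, h⟩
    · rcases h with h | h
      · exact ⟨2, hw, h⟩
      · exact ⟨3, hw, h⟩
    · rcases h with h | h
      · exact ⟨4, hw, h⟩
      · exact ⟨5, hw, h⟩
  obtain ⟨i, hi6⟩ : ∃ i, (GX p₀ (Iio (-m)) δ n).ncard ≤ 6 * (Gi i).ncard := by
    have h1 : (GX p₀ (Iio (-m)) δ n).ncard ≤ ∑ i, (Gi i).ncard := by
      refine (ncard_le_ncard hcover ?_).trans (Finset.set_ncard_biUnion_le _ _)
      exact Set.Finite.biUnion (Finset.finite_toSet _) fun i _ => hGifin i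
    by_contra hcon
    push Not at hcon
    have h2 : ∑ i : Fin 6, 6 * (Gi i).ncard < ∑ _i : Fin 6, (GX p₀ (Iio (-m)) δ n).ncard :=
      Finset.sum_lt_sum_of_nonempty Finset.univ_nonempty fun i _ => hcon i
    rw [← Finset.mul_sum, Finset.sum_const, Finset.card_univ, Fintype.card_fin,
      smul_eq_mul] at h2
    omega
  -- the horseshoe
  set L : ℕ := n + (v i).length with hL
  set U : Set (List Lt) := (fun w => w ++ v i) '' Gi i with hU
  have hUw : U ⊆ words L := by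
    rintro _ ⟨w, hw, rfl⟩
    have : w.length = n := hw.1.1
    simp [words, this, hL]
  have hUfin : U.Finite := (words_finite L).subset hUw
  have hUcard : U.ncard = (Gi i).ncard := by
    refine InjOn.ncard_image fun w _ w' _ h => ?_
    exact List.append_cancel_right h
  have hLpos : 1 ≤ L := by
    have : 0 < (v i).length := List.length_pos_of_mem (hvQ i)
    omega
  have hUbig : ρ ^ L ≤ (U.ncard : ℝ) := by
    have e1 : ρ' ^ n < 6 * (U.ncard : ℝ) := by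
      rw [hUcard]
      refine hGn.trans_le ?_
      exact_mod_cast hi6
    have e2 : ρ ^ L ≤ ρ ^ (n + V0) := by
      refine pow_le_pow_right₀ hρ1 ?_
      have := hvV i
      omega
    linarith
  -- the interval
  obtain ⟨R, hR1, hR2⟩ : ∃ R : ℝ, m + 1 ≤ R ∧ L + 3 - p₀.1 ≤ R :=
    ⟨max (m + 1) (L + 3 - p₀.1), le_max_left _ _, le_max_right _ _⟩
  have hpers : ∀ u ∈ U, ∀ᶠ p in 𝓝 p₀, Icc (-R) (-m) ⊆ img p u (Icc (-R) (-m)) := by
    rintro _ ⟨w, hw, rfl⟩
    refine horseshoe_persist ha.le hb.le (by simp [hvQ i]) m R (by linarith) ?_ ?_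
    · have : ((w ++ v i).length : ℝ) = L := by
        have := hw.1.1
        rw [List.length_append, this]
      rw [this]
      linarith
    · rw [img_append]
      exact (hv i).trans (img_mono p₀ _ hw.2)
  have hpers' := hUfin.eventually_all.2 hpers
  have hnear : ∀ᶠ p : ℝ × ℝ in 𝓝 p₀, p₀.1 - 1 < p.1 :=
    (continuous_fst.tendsto p₀).eventually_const_lt (by linarith)
  refine ⟨(ρ ^ L)⁻¹, by positivity, ?_⟩
  filter_upwards [hpers', hnear] with p hp hpn _ k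
  set q := k / L with hq
  set r := k % L with hr
  have hk : q * L + r = k := by rw [hq, hr, mul_comm]; exact Nat.div_add_mod k L
  have hrL : r < L := Nat.mod_lt _ hLpos
  have hrL' : (r : ℝ) < L := by exact_mod_cast hrL
  refine ⟨-R + r, -R + 1 / 2 + r, by linarith, ?_⟩
  have h1 : 1 ≤ NH p (Icc (-R) (-m)) {-R + (r : ℝ), -R + 1 / 2 + r} r := by
    have hmem : List.replicate r T ∈ HX p (Icc (-R) (-m)) {-R + (r : ℝ), -R + 1 / 2 + r} r := by
      refine ⟨List.length_replicate, ?_⟩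
      rintro y (rfl | rfl)
      · exact shift_mem p r _ (-R) ⟨le_rfl, by linarith⟩ (by linarith)
      · exact shift_mem p r _ (-R + 1 / 2) ⟨by linarith, by linarith⟩ (by linarith)
    exact Nat.one_le_iff_ne_zero.2 (ncard_ne_zero_of_mem hmem (HX_finite _ _ _ _))
  have h2 := NH_iterate p (Icc (-R) (-m)) {-R + (r : ℝ), -R + 1 / 2 + r} L U hUw hp r q
  rw [hk] at h2
  have h3 : U.ncard ^ q ≤ NH p univ {-R + (r : ℝ), -R + 1 / 2 + r} k := by
    calc U.ncard ^ q = U.ncard ^ q * 1 := (mul_one _).symm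
      _ ≤ _ := Nat.mul_le_mul_left _ h1
      _ ≤ _ := h2
      _ ≤ _ := NH_mono p (subset_univ _) k
  have h4 : ((U.ncard : ℝ)) ^ q ≤ NH p univ {-R + (r : ℝ), -R + 1 / 2 + r} k := by
    exact_mod_cast h3
  refine le_trans ?_ h4
  have h5 : (ρ ^ L) ^ q ≤ (U.ncard : ℝ) ^ q := pow_le_pow_left₀ (by positivity) hUbig q
  refine le_trans ?_ h5
  rw [inv_mul_le_iff₀ (by positivity), ← pow_mul, ← pow_add]
  refine pow_le_pow_right₀ hρ1 ?_
  rw [← hk]
  nlinarith

theorem GX_flip (p : ℝ × ℝ) (m δ : ℝ) (n : ℕ) :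
    (GX p (Ioi m) δ n).ncard ≤ (GX (fp p) (Iio (-m)) δ n).ncard := by
  have hfs : fs (Ioi m) = Iio (-m) := by
    ext x
    simp only [mem_fs, mem_Ioi, mem_Iio]
    constructor <;> intro h <;> linarith
  have hinj : InjOn (fun w : List Lt => w.map fl) (GX p (Ioi m) δ n) := fun w _ w' _ h =>
    (List.map_injective_iff.2 fl_inj) h
  have hsub : (fun w : List Lt => w.map fl) '' GX p (Ioi m) δ n ⊆
      GX (fp p) (Iio (-m)) δ n := by
    rintro _ ⟨w, ⟨⟨h1, ⟨y, h2⟩⟩, c, hc, h⟩, rfl⟩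
    have himg : img (fp p) (w.map fl) (Iio (-m)) = fs (img p w (Ioi m)) := by
      rw [← hfs, img_fl]
    refine ⟨⟨by simp [h1], -y, ?_⟩, -c, ?_, ?_⟩
    · rw [himg, mem_fs, neg_neg]; exact h2
    · rcases hc with rfl | rfl | rfl
      · exact Or.inr (Or.inr rfl)
      · exact Or.inr (Or.inl (by simp))
      · exact Or.inl rfl
    · rcases h with h | h
      · right
        intro x hx
        rw [himg, mem_fs]
        exact h ⟨by linarith [hx.2], by linarith [hx.1]⟩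
      · left
        intro x hx
        rw [himg, mem_fs]
        exact h ⟨by linarith [hx.2], by linarith [hx.1]⟩
  calc (GX p (Ioi m) δ n).ncard = ((fun w : List Lt => w.map fl) '' GX p (Ioi m) δ n).ncard :=
        hinj.ncard_image.symm
    _ ≤ _ := ncard_le_ncard hsub (GX_finite _ _ _ _)

/-- Lower semicontinuity when `a < 0 < b`. -/
theorem lsc_interior {p₀ : ℝ × ℝ} (hp₀ : InP p₀) (ha : p₀.1 < 0) (hb : 0 < p₀.2) (ρ : ℝ)
    (hρ0 : 0 ≤ ρ) (hρ : ρ < Real.exp (ent p₀)) : LB p₀ ρ := by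
  have h13 := ent_lower hp₀
  set ρ₁ := max ρ 1 with hρ₁
  have h1 : ρ₁ < Real.exp (ent p₀) := max_lt hρ (by linarith)
  have h2 : 1 ≤ ρ₁ := le_max_right _ _
  set ρ₂ := (ρ₁ + Real.exp (ent p₀)) / 2 with hρ₂
  have h3 : ρ₁ < ρ₂ := by rw [hρ₂]; linarith
  have h4 : ρ₂ < Real.exp (ent p₀) := by rw [hρ₂]; linarith
  refine LB.mono ?_ hρ0 (le_max_left ρ 1)
  set m : ℝ := p₀.2 - p₀.1 + 1 with hm
  obtain ⟨δ, hδ, h5⟩ := good_inf hp₀ m ρ₂ (by linarith) h4
  rcases h5 with h5 | h5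
  · exact lsc_A hp₀ ha hb m (by rw [hm]; linarith) δ hδ ρ₁ ρ₂ h2 h3 h5
  · refine LB.flip ?_
    refine lsc_A (InP_fp hp₀) (by simp only [fp]; linarith) (by simp only [fp]; linarith) m
      (by simp only [fp]; rw [hm]; linarith) δ hδ ρ₁ ρ₂ h2 h3 ?_
    intro N
    obtain ⟨n, hn, h6⟩ := h5 N
    refine ⟨n, hn, h6.trans_le ?_⟩
    exact_mod_cast GX_flip p₀ m δ n

end Pool.Agent.ABcf
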