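import Mathlib
import Pool.Agent.ABcf.Lsc

set_option autoImplicit false
set_option linter.unusedSectionVars false

/-!
Lower semicontinuity at the parameters with `a = 0` or `b = 0`, and in general.
-/

namespace Pool.Agent.ABcf

open Set Lt Filter Topology

/-! ### Upper count at `a = 0` -/

theorem NX_of_empty (p : ℝ × ℝ) (X : Set ℝ) (h : X ⊆ ∅) (n : ℕ) : NX p X n = 0 := by
  rw [subset_empty_iff.1 h, NX_empty]

theorem z_stepM {p : ℝ × ℝ} (ha : p.1 = 0) (X : Set ℝ) : step p M X ⊆ ∅ := by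
  intro y hy
  rw [mem_stepM, ha] at hy
  have := inv_pos.2 hy.1
  linarith [hy.2.1]

theorem z1 {p : ℝ × ℝ} (ha : p.1 = 0) (hb : 1 ≤ p.2) (n : ℕ) :
    NX p (Iio 1) (n + 1) ≤ NX p (Iio 1) n + NX p (Iio (-1)) n := by
  have hT : step p T (Iio 1) ⊆ Iio 1 := by
    intro y hy
    rw [mem_stepT, ha] at hy
    have := hy.1
    show y < 1
    linarith
  have hQ : step p Q (Iio 1) ⊆ Iio (-1) := by
    intro y hy
    rw [mem_stepQ] at hy
    obtain ⟨h1, _, h3⟩ := hy
    have h4 : -y⁻¹ < 1 := h3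
    show y < -1
    rw [← inv_neg, inv_lt_one₀ (by linarith)] at h4
    linarith
  have hD : step p D (Iio 1) ⊆ ∅ := by
    intro y hy
    rw [mem_stepD] at hy
    have h2 : y + 1 < 1 := hy.2
    linarith [hy.1]
  have h := NX_succ_le p (Iio 1) n
  rw [NX_of_empty p _ (z_stepM ha _), NX_of_empty p _ hD] at h
  have h1 := NX_mono p hT n
  have h2 := NX_mono p hQ n
  omega

theorem z2 {p : ℝ × ℝ} (ha : p.1 = 0) (hb : 1 ≤ p.2) (n : ℕ) :
    NX p (Iio (-1)) (n + 1) ≤ NX p (Iio 0) n := by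
  have hT : step p T (Iio (-1)) ⊆ Iio 0 := by
    intro y hy
    rw [mem_stepT, ha] at hy
    have : y - 1 < -1 := hy.2
    show y < 0
    linarith
  have hQ : step p Q (Iio (-1)) ⊆ ∅ := by
    intro y hy
    rw [mem_stepQ] at hy
    obtain ⟨h1, _, h3⟩ := hy
    have h4 : -y⁻¹ < -1 := h3
    have := inv_lt_zero.2 h1
    linarith
  have hD : step p D (Iio (-1)) ⊆ ∅ := by
    intro y hy
    rw [mem_stepD] at hy
    have h2 : y + 1 < -1 := hy.2
    linarith [hy.1]
  have h := NX_succ_le p (Iio (-1)) n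
  rw [NX_of_empty p _ (z_stepM ha _), NX_of_empty p _ hD, NX_of_empty p _ hQ] at h
  have h1 := NX_mono p hT n
  omega

theorem z3 {p : ℝ × ℝ} (ha : p.1 = 0) (hb : 1 ≤ p.2) (n : ℕ) :
    NX p (Iio 0) (n + 1) ≤ NX p (Iio 1) n := by
  have hT : step p T (Iio 0) ⊆ Iio 1 := by
    intro y hy
    rw [mem_stepT, ha] at hy
    have : y - 1 < 0 := hy.2
    show y < 1
    linarith
  have hQ : step p Q (Iio 0) ⊆ ∅ := by
    intro y hy
    rw [mem_stepQ] at hy
    obtain ⟨h1, _, h3⟩ := hy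
    have h4 : -y⁻¹ < 0 := h3
    have := inv_lt_zero.2 h1
    linarith
  have hD : step p D (Iio 0) ⊆ ∅ := by
    intro y hy
    rw [mem_stepD] at hy
    have h2 : y + 1 < 0 := hy.2
    linarith [hy.1]
  have h := NX_succ_le p (Iio 0) n
  rw [NX_of_empty p _ (z_stepM ha _), NX_of_empty p _ hD, NX_of_empty p _ hQ] at h
  have h1 := NX_mono p hT n
  omega

theorem z4 {p : ℝ × ℝ} (ha : p.1 = 0) (hb : 1 ≤ p.2) (n : ℕ) :
    NX p (Ioi (p.2 - 1)) (n + 1) ≤ NX p (Iio 1) n + NX p (Ioi (p.2 - 1)) n := by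
  have hT : step p T (Ioi (p.2 - 1)) ⊆ ∅ := by
    intro y hy
    rw [mem_stepT, ha] at hy
    have h2 : p.2 - 1 < y - 1 := hy.2
    linarith [hy.1]
  have hQ : step p Q (Ioi (p.2 - 1)) ⊆ Iio 1 := by
    intro y hy
    rw [mem_stepQ] at hy
    show y < 1
    linarith [hy.1]
  have hD : step p D (Ioi (p.2 - 1)) ⊆ Ioi (p.2 - 1) := by
    intro y hy
    rw [mem_stepD] at hy
    show p.2 - 1 < y
    linarith [hy.1]
  have h := NX_succ_le p (Ioi (p.2 - 1)) n
  rw [NX_of_empty p _ (z_stepM ha _), NX_of_empty p _ hT] at h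
  have h1 := NX_mono p hQ n
  have h2 := NX_mono p hD n
  omega

theorem z5 {p : ℝ × ℝ} (ha : p.1 = 0) (n : ℕ) :
    NX p univ (n + 1) ≤ 2 * NX p (Iio 1) n + NX p (Ioi (p.2 - 1)) n := by
  have hT : step p T univ ⊆ Iio 1 := by
    intro y hy
    rw [mem_stepT, ha] at hy
    show y < 1
    linarith [hy.1]
  have hQ : step p Q univ ⊆ Iio 1 := by
    intro y hy
    rw [mem_stepQ] at hy
    show y < 1
    linarith [hy.1]
  have hD : step p D univ ⊆ Ioi (p.2 - 1) := by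
    intro y hy
    rw [mem_stepD] at hy
    show p.2 - 1 < y
    linarith [hy.1]
  have h := NX_succ_le p univ n
  rw [NX_of_empty p _ (z_stepM ha _)] at h
  have h1 := NX_mono p hQ n
  have h2 := NX_mono p hD n
  have h3 := NX_mono p hT n
  omega

theorem z_upper {p : ℝ × ℝ} (ha : p.1 = 0) (hb : 1 ≤ p.2) (ρ : ℝ) (h1 : 1 ≤ ρ)
    (hρ : ρ ^ 2 + 1 ≤ ρ ^ 3) : Real.exp (ent p) ≤ ρ := by
  have hρ0 : 0 < ρ := by linarith
  -- bound for `NX p (Iio 1)`
  have hy : ∀ n, (NX p (Iio 1) n : ℝ) ≤ 3 * ρ ^ n := by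
    intro n
    induction n using Nat.strong_induction_on with
    | _ n ih =>
      have g0 := NX_zero_le p (Iio 1)
      have g0' := NX_zero_le p (Iio (-1))
      have g0'' := NX_zero_le p (Iio 0)
      have g1 := z1 ha hb 0
      have g2 := z1 ha hb 1
      have g3 := z2 ha hb 0
      rcases n with _ | _ | _ | n
      · have : (NX p (Iio 1) 0 : ℝ) ≤ 1 := by exact_mod_cast g0
        simp only [pow_zero]; linarith
      · have e : NX p (Iio 1) (0 + 1) ≤ 3 := by omega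
        have e' : (NX p (Iio 1) (0 + 1) : ℝ) ≤ 3 := by exact_mod_cast e
        have : 1 ≤ ρ ^ (0 + 1) := one_le_pow₀ h1
        linarith
      · have e : NX p (Iio 1) (0 + 1 + 1) ≤ 3 := by
          have : (0 + 1 + 1) = 1 + 1 := rfl
          have : (0 + 1) = 1 := rfl
          simp only [zero_add] at *
          omega
        have e' : (NX p (Iio 1) (0 + 1 + 1) : ℝ) ≤ 3 := by exact_mod_cast e
        have : 1 ≤ ρ ^ (0 + 1 + 1) := one_le_pow₀ h1
        linarith
      · have e1 := z1 ha hb (n + 2)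
        have e2 := z2 ha hb (n + 1)
        have e3 := z3 ha hb n
        have e4 : NX p (Iio 1) (n + 3) ≤ NX p (Iio 1) (n + 2) + NX p (Iio 1) n := by
          have a1 : n + 2 + 1 = n + 3 := rfl
          have a2 : n + 1 + 1 = n + 2 := rfl
          rw [a1] at e1
          rw [a2] at e2
          omega
        have e5 : (NX p (Iio 1) (n + 3) : ℝ) ≤ NX p (Iio 1) (n + 2) + NX p (Iio 1) n := by
          exact_mod_cast e4
        have i1 := ih (n + 2) (by omega)
        have i2 := ih n (by omega)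
        have e6 : (NX p (Iio 1) (n + 3) : ℝ) ≤ 3 * (ρ ^ n * (ρ ^ 2 + 1)) := by
          refine e5.trans ((add_le_add i1 i2).trans (le_of_eq ?_))
          ring
        refine e6.trans ?_
        have e7 : ρ ^ n * (ρ ^ 2 + 1) ≤ ρ ^ n * ρ ^ 3 :=
          mul_le_mul_of_nonneg_left hρ (by positivity)
        calc 3 * (ρ ^ n * (ρ ^ 2 + 1)) ≤ 3 * (ρ ^ n * ρ ^ 3) := by linarith
          _ = 3 * ρ ^ (n + 3) := by ring
  -- bound for `NX p (Ioi (b - 1))`
  have hz : ∀ n, (NX p (Ioi (p.2 - 1)) n : ℝ) ≤ (1 + 3 * n) * ρ ^ n := by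
    intro n
    induction n with
    | zero =>
      have : (NX p (Ioi (p.2 - 1)) 0 : ℝ) ≤ 1 := by exact_mod_cast NX_zero_le p _
      simpa using this
    | succ n ih =>
      have e1 : (NX p (Ioi (p.2 - 1)) (n + 1) : ℝ) ≤
          NX p (Iio 1) n + NX p (Ioi (p.2 - 1)) n := by exact_mod_cast z4 ha hb n
      have e2 := hy n
      have e3 : ρ ^ n ≤ ρ ^ (n + 1) := pow_le_pow_right₀ h1 (Nat.le_succ n)
      have e4 : (0 : ℝ) ≤ n := Nat.cast_nonneg n
      push_cast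
      calc (NX p (Ioi (p.2 - 1)) (n + 1) : ℝ) ≤ (1 + 3 * ((n : ℝ) + 1)) * ρ ^ n := by
            linarith
        _ ≤ _ := mul_le_mul_of_nonneg_left e3 (by positivity)
  -- bound for everything
  have hall : ∀ n : ℕ, Real.exp (ent p) ^ (n + 1) ≤ (7 + 3 * n) * ρ ^ (n + 1) := by
    intro n
    have e1 : (NX p univ (n + 1) : ℝ) ≤
        2 * NX p (Iio 1) n + NX p (Ioi (p.2 - 1)) n := by exact_mod_cast z5 ha n
    have e2 := hy n
    have e3 := hz n
    have e4 : ρ ^ n ≤ ρ ^ (n + 1) := pow_le_pow_right₀ h1 (Nat.le_succ n)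
    have e5 : (0 : ℝ) ≤ n := Nat.cast_nonneg n
    refine (pow_le_NX p (n + 1)).trans ?_
    calc (NX p univ (n + 1) : ℝ) ≤ (7 + 3 * (n : ℝ)) * ρ ^ n := by linarith
      _ ≤ _ := mul_le_mul_of_nonneg_left e4 (by positivity)
  by_contra hlt
  push Not at hlt
  have hE : 0 < Real.exp (ent p) := Real.exp_pos _
  have hq : |ρ / Real.exp (ent p)| < 1 := by
    rw [abs_of_pos (div_pos hρ0 hE), div_lt_one hE]
    exact hlt
  have t1 : Tendsto (fun n : ℕ => (n : ℝ) ^ 1 * (ρ / Real.exp (ent p)) ^ n) atTop (𝓝 0) :=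
    tendsto_pow_const_mul_const_pow_of_abs_lt_one 1 hq
  have hq' : |ρ / Real.exp (ent p)| < 1 := hq
  have t2 : Tendsto (fun n : ℕ => (ρ / Real.exp (ent p)) ^ n) atTop (𝓝 0) :=
    tendsto_pow_atTop_nhds_zero_of_abs_lt_one hq'
  have t3 : Tendsto (fun n : ℕ => 4 * (ρ / Real.exp (ent p)) ^ n +
      3 * ((n : ℝ) ^ 1 * (ρ / Real.exp (ent p)) ^ n)) atTop (𝓝 (4 * 0 + 3 * 0)) :=
    (t2.const_mul 4).add (t1.const_mul 3)
  have t4 := t3.eventually_lt_const (u := 1) (by simp)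
  obtain ⟨n, h3, h4⟩ := (t4.and (eventually_ge_atTop 1)).exists
  obtain ⟨m, rfl⟩ : ∃ m, n = m + 1 := ⟨n - 1, by omega⟩
  have h5 := hall m
  rw [pow_one, div_pow] at h3
  have hEn : 0 < Real.exp (ent p) ^ (m + 1) := by positivity
  have h6 : (4 + 3 * ((m : ℝ) + 1)) * ρ ^ (m + 1) < Real.exp (ent p) ^ (m + 1) := by
    have e : 4 * (ρ ^ (m + 1) / Real.exp (ent p) ^ (m + 1)) +
        3 * (((m + 1 : ℕ) : ℝ) * (ρ ^ (m + 1) / Real.exp (ent p) ^ (m + 1))) =
        ((4 + 3 * ((m : ℝ) + 1)) * ρ ^ (m + 1)) / Real.exp (ent p) ^ (m + 1) := by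
      push_cast
      field_simp
    rw [e, div_lt_one hEn] at h3
    exact h3
  have h7 : (7 + 3 * (m : ℝ)) = 4 + 3 * ((m : ℝ) + 1) := by ring
  rw [h7] at h5
  linarith

/-! ### Horseshoes near `a = 0` -/

/-- the sequence of weights -/
noncomputable def we (x : ℝ) : ℕ → ℝ
  | 0 => x
  | i + 1 => x + x ^ 3 * we x i

theorem we_pos {x : ℝ} (hx : 0 < x) (i : ℕ) : 0 < we x i := by
  induction i with
  | zero => exact hx
  | succ i ih => unfold we; positivity

theorem we_big {x : ℝ} (hx : 0 < x) (hx1 : x ≤ 1) (h : 1 < x + x ^ 3) : ∃ i, 1 ≤ we x i := by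
  by_contra hcon
  push Not at hcon
  have hstep : ∀ i : ℕ, (i : ℝ) * (x + x ^ 3 - 1) ≤ we x i := by
    intro i
    induction i with
    | zero => simpa using (we_pos hx 0).le
    | succ i ih =>
      have h1 := hcon i
      have h3 : x ^ 3 ≤ 1 := pow_le_one₀ hx.le hx1
      unfold we
      push_cast
      nlinarith
  obtain ⟨n, hn⟩ := exists_nat_gt (1 / (x + x ^ 3 - 1))
  have h2 := hstep n
  have h4 := hcon n
  rw [div_lt_iff₀ (by linarith)] at hn
  linarith

theorem LB_zero {p₀ : ℝ × ℝ} (ha : p₀.1 = 0) (ρ : ℝ) (h1 : 1 ≤ ρ) (hρ : ρ ^ 3 < ρ ^ 2 + 1) :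
    LB p₀ ρ := by
  have hρ0 : 0 < ρ := by linarith
  set x := ρ⁻¹ with hx
  have hx0 : 0 < x := inv_pos.2 hρ0
  have hx1 : x ≤ 1 := inv_le_one_of_one_le₀ h1
  have hxρ : x * ρ = 1 := inv_mul_cancel₀ hρ0.ne'
  have hxx : 1 < x + x ^ 3 := by
    have e : (x + x ^ 3) * ρ ^ 3 = ρ ^ 2 + 1 := by
      calc (x + x ^ 3) * ρ ^ 3 = (x * ρ) * ρ ^ 2 + (x * ρ) ^ 3 := by ring
        _ = ρ ^ 2 + 1 := by rw [hxρ]; ring
    have h2 : 1 * ρ ^ 3 < (x + x ^ 3) * ρ ^ 3 := by rw [e]; linarith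
    exact lt_of_mul_lt_mul_right h2 (by positivity)
  obtain ⟨J, hJ⟩ := we_big hx0 hx1 hxx
  set S : ℝ := 1 + ∑ i ∈ Finset.range (J + 1), we x i with hS
  have hSpos : 0 < S := by
    have : 0 ≤ ∑ i ∈ Finset.range (J + 1), we x i :=
      Finset.sum_nonneg fun i _ => (we_pos hx0 i).le
    linarith
  have hSi : ∀ i ≤ J, we x i ≤ S := by
    intro i hi
    have : we x i ≤ ∑ i ∈ Finset.range (J + 1), we x i :=
      Finset.single_le_sum (f := fun i => we x i) (fun i _ => (we_pos hx0 i).le)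
        (Finset.mem_range.2 (by omega))
    linarith
  have hnear : ∀ᶠ p : ℝ × ℝ in 𝓝 p₀, -(1 / ((J : ℝ) + 1)) < p.1 := by
    refine (continuous_fst.tendsto p₀).eventually_const_lt ?_
    rw [ha]
    have : (0 : ℝ) < 1 / ((J : ℝ) + 1) := by positivity
    linarith
  refine ⟨(S * ρ ^ 3)⁻¹ * we x J, mul_pos (by positivity) (we_pos hx0 J), ?_⟩
  filter_upwards [hnear] with p hp hInP n
  refine ⟨-2, -1, by norm_num, ?_⟩
  obtain ⟨p1, p2, p3, p4⟩ := hInP
  let V : ℕ → Set ℝ := fun i => Iio (1 - 1 / ((i : ℝ) + 1))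
  have hVT : ∀ i, V J ⊆ img p [T] (V i) := by
    intro i y hy
    have hy' : y < 1 - 1 / ((J : ℝ) + 1) := hy
    have hi : (0 : ℝ) ≤ 1 - 1 / ((i : ℝ) + 1) := by
      have : 1 / ((i : ℝ) + 1) ≤ 1 := by
        rw [div_le_one (by positivity)]
        have : (0 : ℝ) ≤ i := Nat.cast_nonneg i
        linarith
      linarith
    have hJpos : (0 : ℝ) < 1 / ((J : ℝ) + 1) := by positivity
    rw [img_cons, img_nil, mem_stepT]
    refine ⟨by linarith, ?_⟩
    show y - 1 < 1 - 1 / ((i : ℝ) + 1)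
    linarith
  have hVQ : ∀ i, i + 1 ≤ J → V i ⊆ img p [Q, T, T] (V (i + 1)) := by
    intro i hiJ y hy
    have hy' : y < 1 - 1 / ((i : ℝ) + 1) := hy
    have hipos : (0 : ℝ) < (i : ℝ) + 1 := by positivity
    have h2 : 1 / ((J : ℝ) + 1) ≤ 1 / ((i : ℝ) + 1) := by
      apply one_div_le_one_div_of_le hipos
      have : (i : ℝ) + 1 ≤ J := by exact_mod_cast hiJ
      linarith
    have h2' : 1 / ((J : ℝ) + 1) ≤ 1 / ((i : ℝ) + 1 + 1) := by
      apply one_div_le_one_div_of_le (by positivity)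
      have : (i : ℝ) + 1 ≤ J := by exact_mod_cast hiJ
      linarith
    have h3 : 0 < 1 / ((i : ℝ) + 1) := by positivity
    have key : -(y - 1 - 1)⁻¹ < 1 - 1 / ((i : ℝ) + 1 + 1) := by
      rw [← inv_neg]
      have e1 : 1 - 1 / ((i : ℝ) + 1 + 1) = (1 + 1 / ((i : ℝ) + 1))⁻¹ := by
        field_simp
        ring
      rw [e1]
      exact (inv_lt_inv₀ (by linarith) (by positivity)).2 (by linarith)
    simp only [img_cons, img_nil, mem_stepT, mem_stepQ]
    refine ⟨by linarith, by linarith, by linarith, by linarith, ?_⟩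
    show -(y - 1 - 1)⁻¹ < 1 - 1 / (((i + 1 : ℕ) : ℝ) + 1)
    push_cast
    exact key
  have htgt : ∀ i, ({-2, -1} : Set ℝ) ⊆ V i := by
    intro i y hy
    have hi : (0 : ℝ) ≤ 1 - 1 / ((i : ℝ) + 1) := by
      have : 1 / ((i : ℝ) + 1) ≤ 1 := by
        rw [div_le_one (by positivity)]
        have : (0 : ℝ) ≤ i := Nat.cast_nonneg i
        linarith
      linarith
    show y < 1 - 1 / ((i : ℝ) + 1)
    rcases hy with rfl | hy
    · linarith
    · rw [mem_singleton_iff.1 hy]; linarith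
  have hone : ∀ n i, 1 ≤ NH p (V i) {-2, -1} n := by
    intro n
    induction n with
    | zero => intro i; exact NH_zero p _ _ (htgt i)
    | succ n ih =>
      intro i
      exact (ih J).trans (NH_prepend p (V i) (V J) _ [T] (hVT i) (n + 1) n rfl)
  have hmain : ∀ n, ∀ i ≤ J, (S * ρ ^ 3)⁻¹ * (we x i * ρ ^ n) ≤ NH p (V i) {-2, -1} n := by
    intro n
    induction n using Nat.strong_induction_on with
    | _ n ih =>
      intro i hi
      rcases Nat.lt_or_ge n 3 with hn | hn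
      · have e1 : (1 : ℝ) ≤ NH p (V i) {-2, -1} n := by exact_mod_cast hone n i
        refine le_trans ?_ e1
        rw [inv_mul_le_iff₀ (by positivity), mul_one]
        exact mul_le_mul (hSi i hi) (pow_le_pow_right₀ h1 hn.le) (by positivity) hSpos.le
      · obtain ⟨m, rfl⟩ : ∃ m, n = m + 3 := ⟨n - 3, by omega⟩
        have e1 := ih (m + 2) (by omega) J le_rfl
        have e1' : (S * ρ ^ 3)⁻¹ * (x * ρ ^ (m + 3)) ≤ NH p (V J) {-2, -1} (m + 2) := by
          refine le_trans ?_ e1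
          refine mul_le_mul_of_nonneg_left ?_ (by positivity)
          have e2 : x * ρ ^ (m + 3) = ρ ^ (m + 2) := by
            calc x * ρ ^ (m + 3) = (x * ρ) * ρ ^ (m + 2) := by ring
              _ = _ := by rw [hxρ, one_mul]
          rw [e2]
          have e3 : (0 : ℝ) ≤ ρ ^ (m + 2) := by positivity
          nlinarith
        rcases i with _ | i
        · have e3 := NH_prepend p (V 0) (V J) {-2, -1} [T] (hVT 0) (m + 3) (m + 2) rfl
          refine e1'.trans ?_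
          exact_mod_cast e3
        · have e3 := NH_two p (V (i + 1)) (V J) (V i) {-2, -1} T Q (by decide) [] [T, T]
            (hVT (i + 1)) (hVQ i hi) (m + 3) (m + 2) m rfl rfl
          have e4 := ih m (by omega) i (by omega)
          have e5 : ((NH p (V J) {-2, -1} (m + 2) : ℝ)) + NH p (V i) {-2, -1} m ≤
              NH p (V (i + 1)) {-2, -1} (m + 3) := by exact_mod_cast e3
          refine le_trans ?_ e5
          refine le_trans (le_of_eq ?_) (add_le_add e1' e4)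
          have e6 : ρ ^ m = x ^ 3 * ρ ^ (m + 3) := by
            calc ρ ^ m = (x * ρ) ^ 3 * ρ ^ m := by rw [hxρ]; ring
              _ = _ := by ring
          have hwe : we x (i + 1) = x + x ^ 3 * we x i := rfl
          rw [e6, hwe]
          ring
  have h9 := hmain n J le_rfl
  have h10 : NH p (V J) {-2, -1} n ≤ NH p univ {-2, -1} n := NH_mono p (subset_univ _) n
  have h11 : (NH p (V J) {-2, -1} n : ℝ) ≤ NH p univ {-2, -1} n := by exact_mod_cast h10
  refine le_trans ?_ h11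
  rw [← mul_assoc] at h9
  exact h9

theorem lsc_zero {p₀ : ℝ × ℝ} (hp₀ : InP p₀) (ha : p₀.1 = 0) (ρ : ℝ) (hρ0 : 0 ≤ ρ)
    (hρ : ρ < Real.exp (ent p₀)) : LB p₀ ρ := by
  have h13 := ent_lower hp₀
  have h1 : max ρ 1 < Real.exp (ent p₀) := max_lt hρ (by linarith)
  have h2 : 1 ≤ max ρ 1 := le_max_right _ _
  refine LB.mono ?_ hρ0 (le_max_left ρ 1)
  by_cases h : (max ρ 1) ^ 3 < (max ρ 1) ^ 2 + 1
  · exact LB_zero ha _ h2 h
  · push Not at h
    obtain ⟨p1, p2, p3, p4⟩ := hp₀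
    rw [ha] at p3
    exact absurd (z_upper ha (by linarith) _ h2 h) (not_le.2 h1)

theorem ent_fp (p : ℝ × ℝ) : ent (fp p) = ent p := by
  have h1 := ent_tendsto (fp p)
  have h2 := ent_tendsto p
  have h3 : ∀ n, NX (fp p) univ n = NX p univ n := fun n => by
    have := NX_fl p univ n
    rwa [fs_univ] at this
  simp only [h3] at h1
  exact tendsto_nhds_unique h1 h2

/-- Lower semicontinuity, in the strong form of a horseshoe. -/
theorem lsc {p₀ : ℝ × ℝ} (hp₀ : InP p₀) (ρ : ℝ) (hρ0 : 0 ≤ ρ)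
    (hρ : ρ < Real.exp (ent p₀)) : LB p₀ ρ := by
  rcases eq_or_lt_of_le hp₀.1 with ha | ha
  · exact lsc_zero hp₀ ha ρ hρ0 hρ
  rcases eq_or_lt_of_le hp₀.2.1 with hb | hb
  · refine LB.flip (lsc_zero (InP_fp hp₀) ?_ ρ hρ0 ?_)
    · simp [fp, ← hb]
    · rwa [ent_fp]
  · exact lsc_interior hp₀ ha hb ρ hρ0 hρ

end Pool.Agent.ABcf
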