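import Mathlib
import Pool.Agent.ABcf.Boundary

set_option autoImplicit false
set_option linter.unusedSectionVars false

/-!
The map on `[-1,1]`, its laps, and the comparison of laps with words.
-/

namespace Pool.Agent.ABcf

open Set Lt Filter Topology OnePoint

/-- the interval `[-1,1]` -/
abbrev II : Type := Icc (-1 : ℝ) 1

/-- the slow map on the extended line -/
noncomputable def slow (p : ℝ × ℝ) : OnePoint ℝ → OnePoint ℝ
  | ∞ => ∞
  | (x : ℝ) =>
    if x < p.1 then ((x + 1 : ℝ) : OnePoint ℝ)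
    else if x < p.2 then (if x = 0 then ∞ else ((-1 / x : ℝ) : OnePoint ℝ))
    else ((x - 1 : ℝ) : OnePoint ℝ)

/-- `Rep u z`: the point `u` of `[-1,1]` corresponds to the point `z` of the extended line under
`k(x) = x / (1 + |x|)`; both `-1` and `1` correspond to `∞`. -/
def Rep (u : Icc (-1 : ℝ) 1) : OnePoint ℝ → Prop
  | ∞ => (u : ℝ) = -1 ∨ (u : ℝ) = 1
  | (x : ℝ) => (u : ℝ) = x / (1 + |x|)

/-- `F` is the map `k ∘ f ∘ k⁻¹`, viewed as a map `[-1,1] → [-1,1]` -/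
def IsTilde (p : ℝ × ℝ) (F : Icc (-1 : ℝ) 1 → Icc (-1 : ℝ) 1) : Prop :=
  ∀ u z, Rep u z → Rep (F u) (slow p z)

/-- laps: maximal intervals on which `G` is monotone -/
def laps (G : Icc (-1 : ℝ) 1 → Icc (-1 : ℝ) 1) : Set (Set (Icc (-1 : ℝ) 1)) :=
  {J | Maximal (fun J => J.OrdConnected ∧ (MonotoneOn G J ∨ AntitoneOn G J)) J}

/-- the variant: maximal intervals on which `G` is continuous and monotone -/
def lapsC (G : Icc (-1 : ℝ) 1 → Icc (-1 : ℝ) 1) : Set (Set (Icc (-1 : ℝ) 1)) :=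
  {J | Maximal (fun J => J.OrdConnected ∧ (MonotoneOn G J ∨ AntitoneOn G J) ∧
    ContinuousOn G J) J}

/-! ### The coordinate -/

theorem k_bound (x : ℝ) : x / (1 + |x|) ∈ Ioo (-1 : ℝ) 1 := by
  have h : 0 < 1 + |x| := by positivity
  constructor
  · rw [lt_div_iff₀ h]
    linarith [neg_abs_le x]
  · rw [div_lt_one h]
    linarith [le_abs_self x]

/-- the coordinate as a map to `[-1,1]` -/
noncomputable def kk (x : ℝ) : II := ⟨x / (1 + |x|), (k_bound x).1.le, (k_bound x).2.le⟩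

theorem kk_val (x : ℝ) : (kk x : ℝ) = x / (1 + |x|) := rfl

theorem kk_strictMono : StrictMono kk := by
  intro x y h
  rw [← Subtype.coe_lt_coe, kk_val, kk_val, div_lt_div_iff₀ (by positivity) (by positivity)]
  rcases le_or_gt 0 x with hx | hx
  · rw [abs_of_nonneg hx, abs_of_nonneg (hx.trans h.le)]
    nlinarith
  · rcases le_or_gt 0 y with hy | hy
    · rw [abs_of_neg hx, abs_of_nonneg hy]
      nlinarith
    · rw [abs_of_neg hx, abs_of_neg hy]
      nlinarith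

theorem kk_inv (x : ℝ) : (kk x : ℝ) / (1 - |(kk x : ℝ)|) = x := by
  rw [kk_val]
  have h : 0 < 1 + |x| := by positivity
  rw [abs_div, abs_of_pos h]
  have : 1 - |x| / (1 + |x|) = 1 / (1 + |x|) := by field_simp; ring
  rw [this]
  field_simp

theorem kk_surj (u : II) (h1 : (u : ℝ) ≠ -1) (h2 : (u : ℝ) ≠ 1) : ∃ x, kk x = u := by
  obtain ⟨v, hv1, hv2⟩ := u
  simp only at h1 h2
  have hv : |v| < 1 := abs_lt.2 ⟨lt_of_le_of_ne hv1 (Ne.symm h1), lt_of_le_of_ne hv2 h2⟩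
  have h3 : 0 < 1 - |v| := by linarith
  refine ⟨v / (1 - |v|), ?_⟩
  rw [Subtype.ext_iff, kk_val]
  rw [abs_div, abs_of_pos h3]
  have : 1 + |v| / (1 - |v|) = 1 / (1 - |v|) := by field_simp; ring
  rw [this]
  field_simp

theorem kk_cont : Continuous kk := by
  refine Continuous.subtype_mk ?_ _
  refine continuous_id.div (by fun_prop) fun x => ?_
  have : 0 < 1 + |x| := by positivity
  exact this.ne'

theorem Rep_kk (x : ℝ) : Rep (kk x) (x : OnePoint ℝ) := rfl

theorem Rep_coe {u : II} {x : ℝ} (h : Rep u (x : OnePoint ℝ)) : u = kk x := Subtype.ext h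

theorem Rep_unique {u : II} {z z' : OnePoint ℝ} (h : Rep u z) (h' : Rep u z') : z = z' := by
  induction z using OnePoint.rec with
  | infty =>
    induction z' using OnePoint.rec with
    | infty => rfl
    | coe x =>
      exfalso
      have h1 : (u : ℝ) = -1 ∨ (u : ℝ) = 1 := h
      have h2 : (u : ℝ) = x / (1 + |x|) := h'
      have h3 := k_bound x
      rw [← h2] at h3
      rcases h1 with h1 | h1
      · linarith [h3.1]
      · linarith [h3.2]
  | coe y =>
    induction z' using OnePoint.rec with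
    | infty =>
      exfalso
      have h1 : (u : ℝ) = -1 ∨ (u : ℝ) = 1 := h'
      have h2 : (u : ℝ) = y / (1 + |y|) := h
      have h3 := k_bound y
      rw [← h2] at h3
      rcases h1 with h1 | h1
      · linarith [h3.1]
      · linarith [h3.2]
    | coe x =>
      have h1 := Rep_coe h
      have h2 := Rep_coe h'
      rw [h1] at h2
      rw [kk_strictMono.injective h2]

theorem Rep_exists (z : OnePoint ℝ) : ∃ u, Rep u z := by
  induction z using OnePoint.rec with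
  | infty => exact ⟨⟨1, by norm_num, by norm_num⟩, Or.inr rfl⟩
  | coe x => exact ⟨kk x, Rep_kk x⟩

theorem IsTilde_exists (p : ℝ × ℝ) : ∃ F, IsTilde p F := by
  have h : ∀ u : II, ∃ u' : II, ∀ z, Rep u z → Rep u' (slow p z) := by
    intro u
    by_cases hz : ∃ z, Rep u z
    · obtain ⟨z, hz⟩ := hz
      obtain ⟨u', hu'⟩ := Rep_exists (slow p z)
      refine ⟨u', fun z' hz' => ?_⟩
      rwa [← Rep_unique hz hz']
    · push Not at hz
      exact ⟨u, fun z' hz' => absurd hz' (hz z')⟩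
  choose F hF using h
  exact ⟨F, hF⟩

/-! ### Iterates along words -/

theorem F_lap {p : ℝ × ℝ} (hp : InP p) {F : II → II} (hF : IsTilde p F) {s : Lt} {x : ℝ}
    (hx : x ∈ lap p s) : F (kk x) = kk (g s x) := by
  obtain ⟨p1, p2, p3, p4⟩ := hp
  have h := hF _ _ (Rep_kk x)
  cases s
  · have hx' : x < p.1 := hx
    have e : slow p (x : OnePoint ℝ) = ((x + 1 : ℝ) : OnePoint ℝ) := if_pos hx'
    rw [e] at h
    exact Rep_coe h
  · have hx' : p.1 < x ∧ x < 0 := hx
    have e : slow p (x : OnePoint ℝ) = ((-1 / x : ℝ) : OnePoint ℝ) := by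
      have e1 : slow p (x : OnePoint ℝ) = if x < p.1 then ((x + 1 : ℝ) : OnePoint ℝ)
        else if x < p.2 then (if x = 0 then ∞ else ((-1 / x : ℝ) : OnePoint ℝ))
        else ((x - 1 : ℝ) : OnePoint ℝ) := rfl
      rw [e1, if_neg (by linarith), if_pos (by linarith), if_neg hx'.2.ne]
    rw [e] at h
    have e2 := Rep_coe h
    rw [e2]
    simp only [g]
    congr 1
    rw [neg_div, one_div]
  · have hx' : 0 < x ∧ x < p.2 := hx
    have e : slow p (x : OnePoint ℝ) = ((-1 / x : ℝ) : OnePoint ℝ) := by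
      have e1 : slow p (x : OnePoint ℝ) = if x < p.1 then ((x + 1 : ℝ) : OnePoint ℝ)
        else if x < p.2 then (if x = 0 then ∞ else ((-1 / x : ℝ) : OnePoint ℝ))
        else ((x - 1 : ℝ) : OnePoint ℝ) := rfl
      rw [e1, if_neg (by linarith), if_pos hx'.2, if_neg hx'.1.ne']
    rw [e] at h
    have e2 := Rep_coe h
    rw [e2]
    simp only [g]
    congr 1
    rw [neg_div, one_div]
  · have hx' : p.2 < x := hx
    have e : slow p (x : OnePoint ℝ) = ((x - 1 : ℝ) : OnePoint ℝ) := by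
      have e1 : slow p (x : OnePoint ℝ) = if x < p.1 then ((x + 1 : ℝ) : OnePoint ℝ)
        else if x < p.2 then (if x = 0 then ∞ else ((-1 / x : ℝ) : OnePoint ℝ))
        else ((x - 1 : ℝ) : OnePoint ℝ) := rfl
      rw [e1, if_neg (by linarith), if_neg (by linarith)]
    rw [e] at h
    exact Rep_coe h

theorem F_cyl {p : ℝ × ℝ} (hp : InP p) {F : II → II} (hF : IsTilde p F) {w : List Lt} {x : ℝ}
    (hx : x ∈ cyl p w) : F^[w.length] (kk x) = kk (act w x) := by
  induction w generalizing x with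
  | nil => rfl
  | cons s w ih =>
    rw [List.length_cons, Function.iterate_succ_apply, F_lap hp hF hx.1, ih hx.2, act_cons]

theorem cyl_open (p : ℝ × ℝ) (w : List Lt) : IsOpen (cyl p w) := by
  induction w with
  | nil => exact isOpen_univ
  | cons s w ih => exact (g_cont p s).isOpen_inter_preimage (lap_open p s) ih

/-- the cylinders in `[-1,1]` -/
def cylI (p : ℝ × ℝ) (w : List Lt) : Set II := kk '' cyl p w

theorem cylI_ord (p : ℝ × ℝ) (w : List Lt) : (cylI p w).OrdConnected := by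
  refine ⟨?_⟩
  rintro _ ⟨x, hx, rfl⟩ _ ⟨y, hy, rfl⟩ v hv
  have h1 : (kk x : ℝ) ≤ v := hv.1
  have h2 : (v : ℝ) ≤ kk y := hv.2
  obtain ⟨z, rfl⟩ := kk_surj v (by have := (k_bound x).1; rw [kk_val] at h1; linarith)
    (by have := (k_bound y).2; rw [kk_val] at h2; linarith)
  exact ⟨z, (cyl_ord p w).out hx hy ⟨kk_strictMono.le_iff_le.1 hv.1,
    kk_strictMono.le_iff_le.1 hv.2⟩, rfl⟩

theorem G_strict {p : ℝ × ℝ} (hp : InP p) {F : II → II} (hF : IsTilde p F) {w : List Lt}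
    {n : ℕ} (hw : w.length = n) : StrictMonoOn (F^[n]) (cylI p w) := by
  subst hw
  rintro _ ⟨x, hx, rfl⟩ _ ⟨y, hy, rfl⟩ h
  rw [F_cyl hp hF hx, F_cyl hp hF hy]
  exact kk_strictMono (act_mono p w hx hy (kk_strictMono.lt_iff_lt.1 h))

theorem G_cont {p : ℝ × ℝ} (hp : InP p) {F : II → II} (hF : IsTilde p F) {w : List Lt}
    {n : ℕ} (hw : w.length = n) : ContinuousOn (F^[n]) (cylI p w) := by
  subst hw
  have h1 : ContinuousOn (fun u : II => (u : ℝ) / (1 - |(u : ℝ)|)) (cylI p w) := by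
    refine ContinuousOn.div (by fun_prop) (by fun_prop) ?_
    rintro _ ⟨x, _, rfl⟩
    have h3 := k_bound x
    have h4 : |(kk x : ℝ)| < 1 := abs_lt.2 h3
    linarith
  have h2 : MapsTo (fun u : II => (u : ℝ) / (1 - |(u : ℝ)|)) (cylI p w) (cyl p w) := by
    rintro _ ⟨x, hx, rfl⟩
    simp only [kk_inv]
    exact hx
  have h3 := kk_cont.comp_continuousOn ((act_cont p w).comp h1 h2)
  refine h3.congr ?_
  rintro _ ⟨x, hx, rfl⟩
  rw [F_cyl hp hF hx]
  simp only [Function.comp_apply, kk_inv]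

/-! ### The exceptional points -/

theorem regular_or (p : ℝ × ℝ) (n : ℕ) (x : ℝ) :
    (∃ w : List Lt, w.length = n ∧ x ∈ cyl p w) ∨
    (∃ j < n, ∃ c, (c = p.1 ∨ c = 0 ∨ c = p.2) ∧
      ∃ w : List Lt, w.length = j ∧ x ∈ cyl p w ∧ act w x = c) := by
  induction n with
  | zero => exact Or.inl ⟨[], rfl, mem_univ _⟩
  | succ n ih =>
    rcases ih with ⟨w, hw, hx⟩ | ⟨j, hj, c, hc, w, hw⟩
    · have key : (∃ s, act w x ∈ lap p s) ∨ (act w x = p.1 ∨ act w x = 0 ∨ act w x = p.2) := by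
        rcases lt_trichotomy (act w x) p.1 with h | h | h
        · exact Or.inl ⟨T, h⟩
        · exact Or.inr (Or.inl h)
        · rcases lt_trichotomy (act w x) 0 with h' | h' | h'
          · exact Or.inl ⟨M, h, h'⟩
          · exact Or.inr (Or.inr (Or.inl h'))
          · rcases lt_trichotomy (act w x) p.2 with h'' | h'' | h''
            · exact Or.inl ⟨Q, h', h''⟩
            · exact Or.inr (Or.inr (Or.inr h''))
            · exact Or.inl ⟨D, h''⟩
      rcases key with ⟨s, hs⟩ | hc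
      · refine Or.inl ⟨w ++ [s], by simp [hw], ?_⟩
        rw [mem_cyl_append]
        exact ⟨hx, hs, mem_univ _⟩
      · exact Or.inr ⟨n, Nat.lt_succ_self n, act w x, hc, w, hw, hx, rfl⟩
    · exact Or.inr ⟨j, Nat.lt_succ_of_lt hj, c, hc, w, hw⟩

/-- points which reach `c` at time `j` -/
def SX (p : ℝ × ℝ) (j : ℕ) (c : ℝ) : Set ℝ :=
  {x | ∃ w : List Lt, w.length = j ∧ x ∈ cyl p w ∧ act w x = c}

theorem SX_count (p : ℝ × ℝ) (j : ℕ) (c : ℝ) :
    (SX p j c).Finite ∧ (SX p j c).ncard ≤ NX p univ j := by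
  classical
  let φ : List Lt → ℝ := fun w => if h : ∃ x, x ∈ cyl p w ∧ act w x = c then h.choose else 0
  have hsub : SX p j c ⊆ φ '' WX p univ j := by
    rintro x ⟨w, hw, hx, hc⟩
    refine ⟨w, ⟨hw, act w x, ?_⟩, ?_⟩
    · rw [img_eq]
      exact ⟨x, ⟨hx, mem_univ _⟩, rfl⟩
    · have h : ∃ x, x ∈ cyl p w ∧ act w x = c := ⟨x, hx, hc⟩
      have e : φ w = h.choose := dif_pos h
      rw [e]
      have h2 := h.choose_spec
      exact (act_mono p w).injOn h2.1 hx (h2.2.trans hc.symm)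
  have hfin : (φ '' WX p univ j).Finite := (WX_finite p univ j).image _
  exact ⟨hfin.subset hsub, (ncard_le_ncard hsub hfin).trans
    (ncard_image_le (WX_finite p univ j))⟩

/-- the exceptional points -/
def Irr (p : ℝ × ℝ) (n : ℕ) : Set II :=
  {u : II | (u : ℝ) = -1} ∪ {u : II | (u : ℝ) = 1} ∪
    kk '' ⋃ j ∈ Finset.range n, (SX p j p.1 ∪ SX p j 0 ∪ SX p j p.2)

theorem Irr_count (p : ℝ × ℝ) (n : ℕ) :
    (Irr p n).Finite ∧ (Irr p n).ncard ≤ 2 + 3 * ∑ j ∈ Finset.range n, NX p univ j := by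
  have f1 : ∀ c : ℝ, {u : II | (u : ℝ) = c}.Finite ∧ {u : II | (u : ℝ) = c}.ncard ≤ 1 := by
    intro c
    have hsub : {u : II | (u : ℝ) = c}.Subsingleton := fun u hu v hv =>
      Subtype.ext (hu.trans hv.symm)
    exact ⟨hsub.finite, (ncard_le_one hsub.finite).2 fun a ha b hb => hsub ha hb⟩
  have f2 : ∀ j, (SX p j p.1 ∪ SX p j 0 ∪ SX p j p.2).Finite ∧
      (SX p j p.1 ∪ SX p j 0 ∪ SX p j p.2).ncard ≤ 3 * NX p univ j := by
    intro j
    refine ⟨((SX_count p j p.1).1.union (SX_count p j 0).1).union (SX_count p j p.2).1, ?_⟩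
    have e1 := ncard_union_le (SX p j p.1 ∪ SX p j 0) (SX p j p.2)
    have e2 := ncard_union_le (SX p j p.1) (SX p j 0)
    have e3 := (SX_count p j p.1).2
    have e4 := (SX_count p j 0).2
    have e5 := (SX_count p j p.2).2
    omega
  have f3 : (⋃ j ∈ Finset.range n, (SX p j p.1 ∪ SX p j 0 ∪ SX p j p.2)).Finite :=
    Set.Finite.biUnion (Finset.finite_toSet _) fun j _ => (f2 j).1
  have f4 : (⋃ j ∈ Finset.range n, (SX p j p.1 ∪ SX p j 0 ∪ SX p j p.2)).ncard ≤
      3 * ∑ j ∈ Finset.range n, NX p univ j := by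
    refine (Finset.set_ncard_biUnion_le _ _).trans ?_
    rw [Finset.mul_sum]
    exact Finset.sum_le_sum fun j _ => (f2 j).2
  refine ⟨((f1 (-1)).1.union (f1 1).1).union (f3.image _), ?_⟩
  have e1 := ncard_union_le ({u : II | (u : ℝ) = -1} ∪ {u : II | (u : ℝ) = 1})
    (kk '' ⋃ j ∈ Finset.range n, (SX p j p.1 ∪ SX p j 0 ∪ SX p j p.2))
  have e2 := ncard_union_le {u : II | (u : ℝ) = -1} {u : II | (u : ℝ) = 1}
  have e3 := (f1 (-1)).2
  have e4 := (f1 1).2
  have e5 := ncard_image_le (f := kk) f3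
  unfold Irr
  omega

theorem cylI_or_Irr (p : ℝ × ℝ) (n : ℕ) (u : II) :
    (∃ w : List Lt, w.length = n ∧ u ∈ cylI p w) ∨ u ∈ Irr p n := by
  by_cases h1 : (u : ℝ) = -1
  · exact Or.inr (Or.inl (Or.inl h1))
  by_cases h2 : (u : ℝ) = 1
  · exact Or.inr (Or.inl (Or.inr h2))
  obtain ⟨x, rfl⟩ := kk_surj u h1 h2
  rcases regular_or p n x with ⟨w, hw, hx⟩ | ⟨j, hj, c, hc, w, hw, hx, hc'⟩
  · exact Or.inl ⟨w, hw, x, hx, rfl⟩
  · right; right
    refine ⟨x, ?_, rfl⟩
    refine mem_biUnion (x := j) (by simp [hj]) ?_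
    rcases hc with rfl | rfl | rfl
    · exact Or.inl (Or.inl ⟨w, hw, hx, hc'⟩)
    · exact Or.inl (Or.inr ⟨w, hw, hx, hc'⟩)
    · exact Or.inr ⟨w, hw, hx, hc'⟩

/-! ### Counting maximal intervals with a property -/

/-- properties of intervals to which the count applies -/
def Adm (p : ℝ × ℝ) (n : ℕ) (G : II → II) (R : Set II → Prop) : Prop :=
  (∀ J, R J → MonotoneOn G J ∨ AntitoneOn G J) ∧
  (∀ u, R {u}) ∧
  (∀ w : List Lt, w.length = n → R (cylI p w) ∧ StrictMonoOn G (cylI p w)) ∧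
  (∀ u v : II, u < v → ∀ K : Set (Set II),
    (∀ k ∈ K, k.OrdConnected ∧ MonotoneOn G k ∧ R k ∧ u ∈ k ∧ v ∈ k) → R (⋃₀ K))

/-- maximal intervals with a property -/
def lapsR (R : Set II → Prop) : Set (Set II) := {J | Maximal (fun J => J.OrdConnected ∧ R J) J}

theorem overlap {p : ℝ × ℝ} {w : List Lt} {J : Set II} (hJ : J.OrdConnected) {a u : II}
    (ha : a ∈ cylI p w) (haJ : a ∈ J) (hu : u ∈ J) (hne : u ≠ a) :
    ∃ b ∈ cylI p w, b ∈ J ∧ b ≠ a := by
  obtain ⟨x, hx, rfl⟩ := ha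
  obtain ⟨ε, hε, hball⟩ := Metric.isOpen_iff.1 (cyl_open p w) x hx
  rcases lt_or_gt_of_ne hne with h | h
  · -- `u < kk x`
    have h1 : ∃ y, y < x ∧ y ∈ cyl p w ∧ u ≤ kk y := by
      by_cases hu1 : (u : ℝ) = -1
      · refine ⟨x - ε / 2, by linarith, hball ?_, ?_⟩
        · rw [Metric.mem_ball, Real.dist_eq, abs_lt]; constructor <;> linarith
        · have := (k_bound (x - ε / 2)).1
          rw [← Subtype.coe_le_coe, kk_val, hu1]
          exact this.le
      · have hu2 : (u : ℝ) ≠ 1 := by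
          have h3 : (u : ℝ) < kk x := h
          have h4 := (k_bound x).2
          rw [kk_val] at h3
          linarith
        obtain ⟨z, rfl⟩ := kk_surj u hu1 hu2
        have hz : z < x := kk_strictMono.lt_iff_lt.1 h
        refine ⟨max z (x - ε / 2), max_lt hz (by linarith), hball ?_,
          kk_strictMono.monotone (le_max_left _ _)⟩
        have h5 : max z (x - ε / 2) < x := max_lt hz (by linarith)
        have h6 : x - ε / 2 ≤ max z (x - ε / 2) := le_max_right _ _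
        rw [Metric.mem_ball, Real.dist_eq, abs_lt]; constructor <;> linarith
    obtain ⟨y, hy1, hy2, hy3⟩ := h1
    exact ⟨kk y, ⟨y, hy2, rfl⟩, hJ.out hu haJ ⟨hy3, (kk_strictMono hy1).le⟩,
      (kk_strictMono hy1).ne⟩
  · -- `kk x < u`
    have h1 : ∃ y, x < y ∧ y ∈ cyl p w ∧ kk y ≤ u := by
      by_cases hu1 : (u : ℝ) = 1
      · refine ⟨x + ε / 2, by linarith, hball ?_, ?_⟩
        · rw [Metric.mem_ball, Real.dist_eq, abs_lt]; constructor <;> linarith
        · have := (k_bound (x + ε / 2)).2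
          rw [← Subtype.coe_le_coe, kk_val, hu1]
          exact this.le
      · have hu2 : (u : ℝ) ≠ -1 := by
          have h3 : (kk x : ℝ) < u := h
          have h4 := (k_bound x).1
          rw [kk_val] at h3
          linarith
        obtain ⟨z, rfl⟩ := kk_surj u hu2 hu1
        have hz : x < z := kk_strictMono.lt_iff_lt.1 h
        refine ⟨min z (x + ε / 2), lt_min hz (by linarith), hball ?_,
          kk_strictMono.monotone (min_le_left _ _)⟩
        have h5 : x < min z (x + ε / 2) := lt_min hz (by linarith)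
        have h6 : min z (x + ε / 2) ≤ x + ε / 2 := min_le_right _ _
        rw [Metric.mem_ball, Real.dist_eq, abs_lt]; constructor <;> linarith
    obtain ⟨y, hy1, hy2, hy3⟩ := h1
    exact ⟨kk y, ⟨y, hy2, rfl⟩, hJ.out haJ hu ⟨(kk_strictMono hy1).le, hy3⟩,
      (kk_strictMono hy1).ne'⟩

theorem ord_sUnion {K : Set (Set II)} {u : II} (h : ∀ k ∈ K, k.OrdConnected ∧ u ∈ k) :
    (⋃₀ K).OrdConnected := by
  refine ⟨?_⟩
  rintro x ⟨k, hk, hx⟩ y ⟨l, hl, hy⟩ z hz
  rcases le_total z u with hzu | hzu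
  · exact ⟨k, hk, (h k hk).1.out hx (h k hk).2 ⟨hz.1, hzu⟩⟩
  · exact ⟨l, hl, (h l hl).1.out (h l hl).2 hy ⟨hzu, hz.2⟩⟩

theorem mono_sUnion {G : II → II} {K : Set (Set II)} {u : II}
    (h : ∀ k ∈ K, k.OrdConnected ∧ MonotoneOn G k ∧ u ∈ k) : MonotoneOn G (⋃₀ K) := by
  rintro x ⟨k, hk, hx⟩ y ⟨l, hl, hy⟩ hxy
  obtain ⟨k1, k2, k3⟩ := h k hk
  obtain ⟨l1, l2, l3⟩ := h l hl
  rcases le_total x u with hxu | hxu
  · rcases le_total u y with huy | huy
    · exact (k2 hx k3 hxu).trans (l2 l3 hy huy)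
    · -- `x ≤ y ≤ u`, so `y ∈ k`
      exact k2 hx (k1.out hx k3 ⟨hxy, huy⟩) hxy
  · -- `u ≤ x ≤ y`, so `x ∈ l`
    exact l2 (l1.out l3 hy ⟨hxu, hxy⟩) hy hxy

/-- A maximal interval meeting a cylinder contains it, and the map increases there. -/
theorem lap_cyl {p : ℝ × ℝ} {n : ℕ} {G : II → II} {R : Set II → Prop} (hR : Adm p n G R)
    {J : Set II} (hJ : J ∈ lapsR R) {w : List Lt} (hw : w.length = n) {a : II}
    (ha : a ∈ cylI p w) (haJ : a ∈ J) :
    cylI p w ⊆ J ∧ MonotoneOn G J ∧ ∃ b ∈ cylI p w, b ≠ a := by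
  obtain ⟨R1, R2, R3, R4⟩ := hR
  obtain ⟨⟨J1, J2⟩, J3⟩ := hJ
  obtain ⟨C1, C2⟩ := R3 w hw
  -- a second point
  obtain ⟨b, hbC, hba⟩ : ∃ b ∈ cylI p w, b ≠ a := by
    obtain ⟨x, hx, rfl⟩ := ha
    obtain ⟨ε, hε, hball⟩ := Metric.isOpen_iff.1 (cyl_open p w) x hx
    refine ⟨kk (x + ε / 2), ⟨x + ε / 2, hball ?_, rfl⟩, (kk_strictMono (by linarith)).ne'⟩
    rw [Metric.mem_ball, Real.dist_eq, abs_lt]; constructor <;> linarith
  -- `J` has another point
  obtain ⟨u, huJ, hua⟩ : ∃ u ∈ J, u ≠ a := by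
    by_contra hcon
    push Not at hcon
    have hsub : J ⊆ cylI p w := fun u hu => by rw [hcon u hu]; exact ha
    exact hba (hcon b (J3 ⟨cylI_ord p w, C1⟩ hsub hbC))
  obtain ⟨c, hcC, hcJ, hca⟩ := overlap J1 ha haJ huJ hua
  -- `G` is monotone on `J`
  have hmono : MonotoneOn G J := by
    rcases R1 J J2 with h | h
    · exact h
    · exfalso
      rcases lt_or_gt_of_ne hca with h' | h'
      · exact absurd (h hcJ haJ h'.le) (not_le.2 (C2 hcC ha h'))
      · exact absurd (h haJ hcJ h'.le) (not_le.2 (C2 ha hcC h'))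
  refine ⟨?_, hmono, b, hbC, hba⟩
  -- the union
  have hall : ∀ k ∈ ({J, cylI p w} : Set (Set II)), k.OrdConnected ∧ MonotoneOn G k ∧ R k ∧
      a ∈ k ∧ c ∈ k := by
    rintro k (rfl | hk)
    · exact ⟨J1, hmono, J2, haJ, hcJ⟩
    · rw [mem_singleton_iff.1 hk]
      exact ⟨cylI_ord p w, C2.monotoneOn, C1, ha, hcC⟩
  have hRU : R (⋃₀ {J, cylI p w}) := by
    rcases lt_or_gt_of_ne hca with h' | h'
    · exact R4 c a h' _ fun k hk => by
        obtain ⟨e1, e2, e3, e4, e5⟩ := hall k hk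
        exact ⟨e1, e2, e3, e5, e4⟩
    · exact R4 a c h' _ hall
  have hOU : (⋃₀ {J, cylI p w}).OrdConnected := ord_sUnion fun k hk =>
    ⟨(hall k hk).1, (hall k hk).2.2.2.1⟩
  have hsub : J ⊆ ⋃₀ {J, cylI p w} := subset_sUnion_of_mem (by simp)
  have hsub' : cylI p w ⊆ ⋃₀ {J, cylI p w} := subset_sUnion_of_mem (by simp)
  exact hsub'.trans (J3 ⟨hOU, hRU⟩ hsub)

theorem lap_unique {p : ℝ × ℝ} {n : ℕ} {G : II → II} {R : Set II → Prop} (hR : Adm p n G R)
    {J J' : Set II} (hJ : J ∈ lapsR R) (hJ' : J' ∈ lapsR R) {w : List Lt} (hw : w.length = n)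
    {a a' : II} (ha : a ∈ cylI p w) (haJ : a ∈ J) (ha' : a' ∈ cylI p w) (haJ' : a' ∈ J') :
    J = J' := by
  obtain ⟨h1, h2, b, hb, hba⟩ := lap_cyl hR hJ hw ha haJ
  obtain ⟨h1', h2', _⟩ := lap_cyl hR hJ' hw ha' haJ'
  obtain ⟨R1, R2, R3, R4⟩ := hR
  obtain ⟨⟨J1, J2⟩, J3⟩ := hJ
  obtain ⟨⟨J1', J2'⟩, J3'⟩ := hJ'
  have hall : ∀ k ∈ ({J, J'} : Set (Set II)), k.OrdConnected ∧ MonotoneOn G k ∧ R k ∧
      a ∈ k ∧ b ∈ k := by
    rintro k (rfl | hk)
    · exact ⟨J1, h2, J2, h1 ha, h1 hb⟩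
    · rw [mem_singleton_iff.1 hk]
      exact ⟨J1', h2', J2', h1' ha, h1' hb⟩
  have hRU : R (⋃₀ {J, J'}) := by
    rcases lt_or_gt_of_ne hba with h' | h'
    · exact R4 b a h' _ fun k hk => by
        obtain ⟨e1, e2, e3, e4, e5⟩ := hall k hk
        exact ⟨e1, e2, e3, e5, e4⟩
    · exact R4 a b h' _ hall
  have hOU : (⋃₀ {J, J'}).OrdConnected := ord_sUnion fun k hk =>
    ⟨(hall k hk).1, (hall k hk).2.2.2.1⟩
  have s1 : J ⊆ ⋃₀ {J, J'} := subset_sUnion_of_mem (by simp)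
  have s2 : J' ⊆ ⋃₀ {J, J'} := subset_sUnion_of_mem (by simp)
  exact (s1.trans (J3' ⟨hOU, hRU⟩ s2)).antisymm (s2.trans (J3 ⟨hOU, hRU⟩ s1))

theorem laps_upper {p : ℝ × ℝ} {n : ℕ} {G : II → II} {R : Set II → Prop} (hR : Adm p n G R) :
    (lapsR R).Finite ∧
      (lapsR R).ncard ≤ NX p univ n + (2 + 3 * ∑ j ∈ Finset.range n, NX p univ j) := by
  classical
  let ψ : List Lt → Set II := fun w =>
    if h : ∃ J, J ∈ lapsR R ∧ ∃ a, a ∈ cylI p w ∧ a ∈ J then h.choose else ∅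
  have hsub : lapsR R ⊆ ψ '' WX p univ n ∪ (fun u : II => ({u} : Set II)) '' Irr p n := by
    intro J hJ
    by_cases h : ∃ w : List Lt, w.length = n ∧ ∃ a, a ∈ cylI p w ∧ a ∈ J
    · obtain ⟨w, hw, a, ha, haJ⟩ := h
      left
      refine ⟨w, ⟨hw, ?_⟩, ?_⟩
      · obtain ⟨x, hx, _⟩ := ha
        refine ⟨act w x, ?_⟩
        rw [img_eq]
        exact ⟨x, ⟨hx, mem_univ _⟩, rfl⟩
      · have h' : ∃ J, J ∈ lapsR R ∧ ∃ a, a ∈ cylI p w ∧ a ∈ J := ⟨J, hJ, a, ha, haJ⟩
        have e : ψ w = h'.choose := dif_pos h'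
        rw [e]
        obtain ⟨g1, a', ha', haJ'⟩ := h'.choose_spec
        exact lap_unique hR g1 hJ hw ha' haJ' ha haJ
    · right
      push Not at h
      have hI : J ⊆ Irr p n := by
        intro u hu
        rcases cylI_or_Irr p n u with ⟨w, hw, huw⟩ | h'
        · exact absurd hu (h w hw u huw)
        · exact h'
      have hss : J.Subsingleton := by
        intro u hu v hv
        by_contra hne
        rcases lt_or_gt_of_ne hne with h' | h'
        · exact (Icc_infinite h') ((Irr_count p n).1.subset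
            ((hJ.1.1.out hu hv).trans hI))
        · exact (Icc_infinite h') ((Irr_count p n).1.subset
            ((hJ.1.1.out hv hu).trans hI))
      have hne : J.Nonempty := by
        by_contra hemp
        rw [not_nonempty_iff_eq_empty] at hemp
        have hz : (⟨0, by norm_num, by norm_num⟩ : II) ∈ J := by
          refine hJ.2 (y := {(⟨0, by norm_num, by norm_num⟩ : II)})
            ⟨ordConnected_singleton, hR.2.1 _⟩ ?_ (mem_singleton _)
          rw [hemp]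
          exact empty_subset _
        rw [hemp] at hz
        exact hz
      obtain ⟨u, hu⟩ := hne
      exact ⟨u, hI hu, (hss.eq_singleton_of_mem hu).symm⟩
  have hf1 : (ψ '' WX p univ n).Finite := (WX_finite p univ n).image _
  have hf2 : ((fun u : II => ({u} : Set II)) '' Irr p n).Finite := (Irr_count p n).1.image _
  refine ⟨(hf1.union hf2).subset hsub, ?_⟩
  refine (ncard_le_ncard hsub (hf1.union hf2)).trans ((ncard_union_le _ _).trans ?_)
  refine add_le_add (ncard_image_le (WX_finite p univ n)) ?_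
  exact (ncard_image_le (Irr_count p n).1).trans (Irr_count p n).2

/-- The maximal interval containing a cylinder. -/
theorem lap_exists {p : ℝ × ℝ} {n : ℕ} {G : II → II} {R : Set II → Prop} (hR : Adm p n G R)
    {w : List Lt} (hw : w.length = n) {a b : II} (ha : a ∈ cylI p w) (hb : b ∈ cylI p w)
    (hab : a < b) : ∃ J ∈ lapsR R, cylI p w ⊆ J := by
  obtain ⟨R1, R2, R3, R4⟩ := hR
  obtain ⟨C1, C2⟩ := R3 w hw
  set K : Set (Set II) :=
    {k | k.OrdConnected ∧ MonotoneOn G k ∧ R k ∧ a ∈ k ∧ b ∈ k} with hK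
  have hC : cylI p w ∈ K := ⟨cylI_ord p w, C2.monotoneOn, C1, ha, hb⟩
  have hRU : R (⋃₀ K) := R4 a b hab K fun k hk => hk
  have hOU : (⋃₀ K).OrdConnected := ord_sUnion fun k hk => ⟨hk.1, hk.2.2.2.1⟩
  refine ⟨⋃₀ K, ⟨⟨hOU, hRU⟩, ?_⟩, subset_sUnion_of_mem hC⟩
  rintro L ⟨L1, L2⟩ hL
  have haL : a ∈ L := hL (subset_sUnion_of_mem hC ha)
  have hbL : b ∈ L := hL (subset_sUnion_of_mem hC hb)
  have hm : MonotoneOn G L := by
    rcases R1 L L2 with h | h
    · exact h
    · exact absurd (h haL hbL hab.le) (not_le.2 (C2 ha hb hab))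
  exact subset_sUnion_of_mem ⟨L1, hm, L2, haL, hbL⟩

theorem laps_lower {p : ℝ × ℝ} (hp : InP p) {n : ℕ} {F : II → II} (hF : IsTilde p F)
    {R : Set II → Prop} (hR : Adm p n (F^[n]) R) {y y' : ℝ} (hy : y < y') :
    NH p univ {y, y'} n ≤ (lapsR R).ncard := by
  classical
  have hpt : ∀ w ∈ HX p univ {y, y'} n, ∃ x x', x ∈ cyl p w ∧ x' ∈ cyl p w ∧ act w x = y ∧
      act w x' = y' ∧ x < x' := by
    rintro w ⟨hw, h⟩
    have h1 : y ∈ img p w univ := h (by simp)
    have h2 : y' ∈ img p w univ := h (by simp)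
    rw [img_eq] at h1 h2
    obtain ⟨x, ⟨hx, _⟩, hxy⟩ := h1
    obtain ⟨x', ⟨hx', _⟩, hxy'⟩ := h2
    refine ⟨x, x', hx, hx', hxy, hxy', ?_⟩
    by_contra hlt
    push Not at hlt
    have := (act_mono p w).monotoneOn hx' hx hlt
    rw [hxy, hxy'] at this
    linarith
  have hlap : ∀ w ∈ HX p univ {y, y'} n, ∃ J ∈ lapsR R, cylI p w ⊆ J := by
    intro w hw
    obtain ⟨x, x', hx, hx', _, _, hlt⟩ := hpt w hw
    exact lap_exists hR hw.1 ⟨x, hx, rfl⟩ ⟨x', hx', rfl⟩ (kk_strictMono hlt)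
  let ψ : List Lt → Set II := fun w =>
    if h : ∃ J ∈ lapsR R, cylI p w ⊆ J then h.choose else ∅
  have hψ : ∀ w ∈ HX p univ {y, y'} n, ψ w ∈ lapsR R ∧ cylI p w ⊆ ψ w := by
    intro w hw
    have h := hlap w hw
    have e : ψ w = h.choose := dif_pos h
    rw [e]
    exact h.choose_spec
  -- two words in the same lap, in order
  have key : ∀ w ∈ HX p univ {y, y'} n, ∀ v ∈ HX p univ {y, y'} n, ψ w = ψ v →
      ∀ x' z, x' ∈ cyl p w → act w x' = y' → z ∈ cyl p v → act v z = y → x' < z → False := by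
    intro w hw v hv hwv x' z hx' e1 hz e2 hlt
    obtain ⟨h1, h2⟩ := hψ w hw
    obtain ⟨h3, h4⟩ := hψ v hv
    have hx'J : kk x' ∈ ψ w := h2 ⟨x', hx', rfl⟩
    have hzJ : kk z ∈ ψ w := by rw [hwv]; exact h4 ⟨z, hz, rfl⟩
    obtain ⟨_, hm, _⟩ := lap_cyl hR h1 hw.1 ⟨x', hx', rfl⟩ hx'J
    have h5 := hm hx'J hzJ (kk_strictMono hlt).le
    have e3 := F_cyl hp hF hx'
    have e4 := F_cyl hp hF hz
    rw [hw.1] at e3
    rw [hv.1] at e4
    rw [e3, e4, e1, e2] at h5
    exact absurd (kk_strictMono.le_iff_le.1 h5) (not_le.2 hy)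
  have hinj : InjOn ψ (HX p univ {y, y'} n) := by
    intro w hw v hv hwv
    by_contra hne
    have hd : ∀ t, t ∈ cyl p w → t ∈ cyl p v → False := fun t h1 h2 =>
      hne (cyl_disj hp.1 hp.2.1 (hw.1.trans hv.1.symm) h1 h2)
    obtain ⟨x, x', hx, hx', ex, ex', hlt⟩ := hpt w hw
    obtain ⟨z, z', hz, hz', ez, ez', hlt'⟩ := hpt v hv
    have g1 : ¬ x' < z := fun h => key w hw v hv hwv x' z hx' ex' hz ez h
    have g2 : ¬ z' < x := fun h => key v hv w hw hwv.symm z' x hz' ez' hx ex h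
    push Not at g1 g2
    rcases le_total x z with h | h
    · exact hd z ((cyl_ord p w).out hx hx' ⟨h, g1⟩) hz
    · exact hd x hx ((cyl_ord p v).out hz hz' ⟨h, g2⟩)
  have h1 := ncard_le_ncard (s := ψ '' HX p univ {y, y'} n) (t := lapsR R)
    (by rintro _ ⟨w, hw, rfl⟩; exact (hψ w hw).1) (laps_upper hR).1
  rwa [hinj.ncard_image] at h1

/-! ### The two notions of lap -/

theorem adm_mono {p : ℝ × ℝ} (hp : InP p) (n : ℕ) {F : II → II} (hF : IsTilde p F) :
    Adm p n (F^[n]) (fun J => MonotoneOn (F^[n]) J ∨ AntitoneOn (F^[n]) J) := by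
  refine ⟨fun J h => h, fun u => Or.inl (subsingleton_singleton.monotoneOn _), ?_, ?_⟩
  · intro w hw
    have := G_strict hp hF hw
    exact ⟨Or.inl this.monotoneOn, this⟩
  · intro u v _ K hK
    exact Or.inl (mono_sUnion (u := u) fun k hk => ⟨(hK k hk).1, (hK k hk).2.1,
      (hK k hk).2.2.2.1⟩)

theorem cont_sUnion {G : II → II} {K : Set (Set II)} {u v : II} (huv : u < v)
    (h : ∀ k ∈ K, k.OrdConnected ∧ ContinuousOn G k ∧ u ∈ k ∧ v ∈ k) :
    ContinuousOn G (⋃₀ K) := by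
  rintro x ⟨k, hk, hx⟩
  suffices hs : ∃ l ∈ K, x ∈ l ∧ l ∈ 𝓝[⋃₀ K] x by
    obtain ⟨l, hl, hxl, hnh⟩ := hs
    exact ((h l hl).2.1 x hxl).mono_of_mem_nhdsWithin hnh
  rcases lt_or_ge x v with hxv | hxv
  · by_cases hlow : ∃ y ∈ ⋃₀ K, y < x
    · obtain ⟨y, ⟨l, hl, hyl⟩, hyx⟩ := hlow
      have hI : Icc y v ⊆ l := (h l hl).1.out hyl (h l hl).2.2.2
      refine ⟨l, hl, hI ⟨hyx.le, hxv.le⟩, ?_⟩
      exact mem_nhdsWithin_of_mem_nhds (mem_of_superset (Ioo_mem_nhds hyx hxv)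
        (Ioo_subset_Icc_self.trans hI))
    · push Not at hlow
      refine ⟨k, hk, hx, ?_⟩
      have hI : Icc x v ⊆ k := (h k hk).1.out hx (h k hk).2.2.2
      rw [mem_nhdsWithin]
      exact ⟨Iio v, isOpen_Iio, hxv, fun t ht => hI ⟨hlow t ht.2, ht.1.le⟩⟩
  · have hux : u < x := huv.trans_le hxv
    by_cases hup : ∃ y ∈ ⋃₀ K, x < y
    · obtain ⟨y, ⟨l, hl, hyl⟩, hyx⟩ := hup
      have hI : Icc u y ⊆ l := (h l hl).1.out (h l hl).2.2.1 hyl
      refine ⟨l, hl, hI ⟨hux.le, hyx.le⟩, ?_⟩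
      exact mem_nhdsWithin_of_mem_nhds (mem_of_superset (Ioo_mem_nhds hux hyx)
        (Ioo_subset_Icc_self.trans hI))
    · push Not at hup
      refine ⟨k, hk, hx, ?_⟩
      have hI : Icc u x ⊆ k := (h k hk).1.out (h k hk).2.2.1 hx
      rw [mem_nhdsWithin]
      exact ⟨Ioi u, isOpen_Ioi, hux, fun t ht => hI ⟨ht.1.le, hup t ht.2⟩⟩

theorem adm_cont {p : ℝ × ℝ} (hp : InP p) (n : ℕ) {F : II → II} (hF : IsTilde p F) :
    Adm p n (F^[n]) (fun J => (MonotoneOn (F^[n]) J ∨ AntitoneOn (F^[n]) J) ∧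
      ContinuousOn (F^[n]) J) := by
  refine ⟨fun J h => h.1, fun u => ⟨Or.inl (subsingleton_singleton.monotoneOn _),
    continuousOn_singleton _ _⟩, ?_, ?_⟩
  · intro w hw
    have := G_strict hp hF hw
    exact ⟨⟨Or.inl this.monotoneOn, G_cont hp hF hw⟩, this⟩
  · intro u v huv K hK
    refine ⟨Or.inl (mono_sUnion (u := u) fun k hk => ⟨(hK k hk).1, (hK k hk).2.1,
      (hK k hk).2.2.2.1⟩), cont_sUnion huv fun k hk => ?_⟩
    obtain ⟨e1, e2, e3, e4, e5⟩ := hK k hk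
    exact ⟨e1, e3.2, e4, e5⟩

/-! ### The limits -/

theorem lim_of_bounds {p : ℝ × ℝ} (hp : InP p) (ℓ : ℕ → ℕ)
    (h1 : ∀ n, ℓ n ≤ NX p univ n + (2 + 3 * ∑ j ∈ Finset.range n, NX p univ j))
    (h2 : ∀ n, ∀ y y' : ℝ, y < y' → NH p univ {y, y'} n ≤ ℓ n) :
    Tendsto (fun n : ℕ => Real.log (ℓ n) / n) atTop (𝓝 (ent p)) := by
  have h13 := ent_lower hp
  rw [Metric.tendsto_atTop]
  intro ε hε
  -- lower bound
  have hlow : ∀ᶠ n : ℕ in atTop, ent p - ε < Real.log (ℓ n) / n := by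
    set ρ := Real.exp (ent p - ε / 2) with hρ
    have hρ0 : 0 < ρ := Real.exp_pos _
    have hρ1 : ρ < Real.exp (ent p) := Real.exp_lt_exp.2 (by linarith)
    obtain ⟨c, hc, hev⟩ := lsc hp ρ hρ0.le hρ1
    have hp' := hev.self_of_nhds hp
    have hbd : ∀ n : ℕ, c * ρ ^ n ≤ ℓ n := by
      intro n
      obtain ⟨y, y', hy, h3⟩ := hp' n
      exact h3.trans (by exact_mod_cast h2 n y y' hy)
    have t1 : Tendsto (fun n : ℕ => Real.log c / n + (ent p - ε / 2)) atTop
        (𝓝 (0 + (ent p - ε / 2))) :=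
      (tendsto_const_div_atTop_nhds_zero_nat _).add tendsto_const_nhds
    have t2 := t1.eventually_const_lt (u := ent p - ε) (by linarith)
    filter_upwards [t2, eventually_ge_atTop 1] with n hn hn1
    refine hn.trans_le ?_
    have hn' : (0 : ℝ) < n := by exact_mod_cast hn1
    have h4 : Real.log (c * ρ ^ n) ≤ Real.log (ℓ n) :=
      Real.log_le_log (by positivity) (hbd n)
    rw [Real.log_mul hc.ne' (by positivity), Real.log_pow, hρ, Real.log_exp] at h4
    rw [le_div_iff₀ hn', add_mul, div_mul_cancel₀ _ hn'.ne']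
    linarith
  -- upper bound
  have hup : ∀ᶠ n : ℕ in atTop, Real.log (ℓ n) / n < ent p + ε := by
    set ρ := Real.exp (ent p + ε / 2) with hρ
    have hρ0 : 0 < ρ := Real.exp_pos _
    have hρ1 : Real.exp (ent p) < ρ := Real.exp_lt_exp.2 (by linarith)
    obtain ⟨C, hC, hN⟩ := NX_le_of_gt p ρ hρ1
    have hρ2 : 1 ≤ ρ := by linarith
    have hC1 : 1 ≤ C := by
      have := hN 0
      have h3 : (1 : ℝ) ≤ NX p univ 0 := by exact_mod_cast NX_pos p 0
      simp only [pow_zero, mul_one] at this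
      linarith
    have hbd : ∀ n : ℕ, (ℓ n : ℝ) ≤ (3 * C * (n + 1)) * ρ ^ n := by
      intro n
      have e1 : (ℓ n : ℝ) ≤ NX p univ n + (2 + 3 * ∑ j ∈ Finset.range n, (NX p univ j : ℝ)) := by
        exact_mod_cast h1 n
      have e2 : ∑ j ∈ Finset.range n, (NX p univ j : ℝ) ≤
          ∑ _j ∈ Finset.range n, C * ρ ^ n := by
        refine Finset.sum_le_sum fun j hj => (hN j).trans ?_
        exact mul_le_mul_of_nonneg_left
          (pow_le_pow_right₀ hρ2 (Finset.mem_range.1 hj).le) hC.le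
      rw [Finset.sum_const, Finset.card_range, nsmul_eq_mul] at e2
      have e3 := hN n
      have e4 : (1 : ℝ) ≤ ρ ^ n := one_le_pow₀ hρ2
      have e5 : (1 : ℝ) ≤ C * ρ ^ n := by nlinarith
      nlinarith
    have hpos : ∀ n, (1 : ℝ) ≤ ℓ n ∨ ℓ n = 0 := by
      intro n
      rcases Nat.eq_zero_or_pos (ℓ n) with h | h
      · exact Or.inr h
      · left; exact_mod_cast h
    have t0 : Tendsto (fun n : ℕ => Real.log ((n : ℝ) + 1) / n) atTop (𝓝 0) := by
      have a1 : Tendsto (fun x : ℝ => Real.log x ^ 1 / (1 * x + (-1))) atTop (𝓝 0) :=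
        Real.tendsto_pow_log_div_mul_add_atTop 1 (-1) 1 one_ne_zero
      have a2 : Tendsto (fun n : ℕ => ((n : ℝ) + 1)) atTop atTop :=
        tendsto_atTop_add_const_right _ _ tendsto_natCast_atTop_atTop
      have a3 := a1.comp a2
      refine a3.congr fun n => ?_
      simp only [Function.comp_apply, pow_one]
      congr 1
      ring
    have t1 : Tendsto (fun n : ℕ => Real.log (3 * C) / n + Real.log ((n : ℝ) + 1) / n +
        (ent p + ε / 2)) atTop (𝓝 (0 + 0 + (ent p + ε / 2))) :=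
      ((tendsto_const_div_atTop_nhds_zero_nat _).add t0).add tendsto_const_nhds
    have t2 := t1.eventually_lt_const (u := ent p + ε) (by linarith)
    filter_upwards [t2, eventually_ge_atTop 1] with n hn hn1
    refine lt_of_le_of_lt ?_ hn
    have hn' : (0 : ℝ) < n := by exact_mod_cast hn1
    have h4 : Real.log (ℓ n) ≤ Real.log ((3 * C * (n + 1)) * ρ ^ n) := by
      rcases hpos n with h | h
      · exact Real.log_le_log (by linarith) (hbd n)
      · rw [h]
        simp only [Nat.cast_zero, Real.log_zero]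
        refine Real.log_nonneg ?_
        have e4 : (1 : ℝ) ≤ ρ ^ n := one_le_pow₀ hρ2
        have e5 : (1 : ℝ) ≤ 3 * C * (n + 1) := by nlinarith
        nlinarith
    rw [Real.log_mul (by positivity) (by positivity), Real.log_mul (by positivity) (by positivity),
      Real.log_pow, hρ, Real.log_exp] at h4
    rw [div_le_iff₀ hn', add_mul, add_mul, div_mul_cancel₀ _ hn'.ne', div_mul_cancel₀ _ hn'.ne']
    linarith
  obtain ⟨N, hN⟩ := eventually_atTop.1 (hlow.and hup)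
  refine ⟨N, fun n hn => ?_⟩
  rw [Real.dist_eq, abs_lt]
  obtain ⟨e1, e2⟩ := hN n hn
  constructor <;> linarith

theorem ent_near {p₀ : ℝ × ℝ} (hp₀ : InP p₀) (ε : ℝ) (hε : 0 < ε) :
    ∀ᶠ p in 𝓝 p₀, InP p → |ent p - ent p₀| < ε := by
  have h1 := ent_usc hp₀ (Real.exp (ent p₀ + ε)) (Real.exp_lt_exp.2 (by linarith))
  set ρ := Real.exp (ent p₀ - ε / 2) with hρ
  have hρ0 : 0 < ρ := Real.exp_pos _
  obtain ⟨c, hc, h2⟩ := lsc hp₀ ρ hρ0.le (Real.exp_lt_exp.2 (by linarith))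
  filter_upwards [h1, h2] with p hp1 hp2 hp
  have e1 := Real.exp_lt_exp.1 (hp1 hp)
  have e2 : ent p₀ - ε / 2 ≤ ent p := by
    have t1 : Tendsto (fun n : ℕ => Real.log c / n + (ent p₀ - ε / 2)) atTop
        (𝓝 (0 + (ent p₀ - ε / 2))) :=
      (tendsto_const_div_atTop_nhds_zero_nat _).add tendsto_const_nhds
    rw [zero_add] at t1
    refine le_of_tendsto_of_tendsto t1 (ent_tendsto p) ?_
    filter_upwards [eventually_ge_atTop 1] with n hn1
    have hn' : (0 : ℝ) < n := by exact_mod_cast hn1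
    obtain ⟨y, y', _, h3⟩ := hp2 hp n
    have h4 : c * ρ ^ n ≤ NX p univ n := h3.trans (by
      exact_mod_cast NH_le_NX p univ {y, y'} ⟨y, by simp⟩ n)
    have h5 := Real.log_le_log (by positivity) h4
    rw [Real.log_mul hc.ne' (by positivity), Real.log_pow, hρ, Real.log_exp] at h5
    rw [le_div_iff₀ hn', add_mul, div_mul_cancel₀ _ hn'.ne']
    linarith
  rw [abs_lt]
  constructor <;> linarith

end Pool.Agent.ABcf
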